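import Pool.Agent.FPS4.Valid

/-!
A certificate which passes the check gives a valid entry for every actual cycle (conclusion).
-/

namespace Pool.Agent.FPS

open Finset

variable {c : ℚ} {N : ℕ} {x : ℕ → ℚ}

theorem pre_le (w : ℕ → Bool) : ∀ n i j : ℕ, pre w n i j ≤ n := by
  intro n
  induction n with
  | zero => intro i j; exact le_rfl
  | succ n ih =>
    intro i j
    unfold pre
    rcases hb : (w i == w j) with _ | _
    · simp only; omega
    · simp only
      have := ih (i + 1) (j + 1)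
      omega

theorem qx_le (N : ℕ) (w : ℕ → Bool) (b : Bool) (i j : ℕ) : qx N w b i j ≤ N + 1 := by
  unfold qx
  rcases hb : ((w i == w j) == b) with _ | _
  · simp only
    have := pre_le w N (i + 1) (j + 1)
    omega
  · simp only; omega

theorem qtOK_spec {qt : ℕ} (h : qtOK N qt = true) {i j : ℕ} (hi : i < N) (hj : j < N) (b : Bool) :
    qv qt b i j = pack (fun u => qx N (wd N u) b i j) 32 := by
  unfold qtOK at h
  rw [List.all_eq_true] at h
  have h1 := h i (List.mem_range.2 hi)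
  rw [List.all_eq_true] at h1
  have h2 := h1 j (List.mem_range.2 hj)
  rw [Bool.and_eq_true] at h2
  cases b
  · exact Nat.eq_of_beq_eq_true h2.2
  · exact Nat.eq_of_beq_eq_true h2.1

theorem validT_lt {s a : ℕ} (ha : validT N s a = true) :
    ti a < N ∧ tj a < N ∧ tk a < N ∧ ti a ≠ tj a ∧ ti a ≠ tk a ∧ 1 ≤ tm a := by
  unfold validT at ha
  simp only [Bool.and_eq_true] at ha
  obtain ⟨⟨⟨⟨⟨⟨h1, h2⟩, h3⟩, h4⟩, h5⟩, h6⟩, h7⟩ := ha
  have bne' : ∀ {m n : ℕ}, (!(Nat.beq m n)) = true → m ≠ n := by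
    intro m n hb e
    rw [e] at hb
    have : Nat.beq n n = true := Nat.beq_refl n
    rw [this] at hb
    exact Bool.false_ne_true hb
  exact ⟨Nat.lt_of_succ_le (Nat.le_of_ble_eq_true h1), Nat.lt_of_succ_le (Nat.le_of_ble_eq_true h2),
    Nat.lt_of_succ_le (Nat.le_of_ble_eq_true h3), bne' h4, bne' h5,
    Nat.le_of_ble_eq_true h6⟩

/-- the indicator used for the counts -/
def ind (N s : ℕ) (b : ℕ → Bool) (j : ℕ → ℕ) (a d : ℕ) : ℕ :=
  if b a = false ∧ d = dist' N (ti a) (j a) then 1 else 0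

theorem dist_lt4 (hN : N ≤ 6) {i j : ℕ} (hi : i < N) (hj : j < N) : dist' N i j < 4 := by
  unfold dist'
  split_ifs <;> omega

theorem count_pack (hN : N ≤ 6) {s : ℕ} (b : ℕ → Bool) (j : ℕ → ℕ) {l : List ℕ}
    (hl : ∀ a ∈ l, ti a < N ∧ j a < N) :
    tsum (fun a => match b a with
        | true => 0
        | false => 65536 ^ (dist' N (ti a) (j a))) l =
      pack (fun d => tsum (fun a => ind N s b j a d) l) 4 := by
  rw [← tsum_pack]
  refine tsum_congr fun a ha => ?_
  obtain ⟨h1, h2⟩ := hl a ha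
  have h3 := dist_lt4 hN h1 h2
  rcases hb : b a with _ | _
  · simp only
    rw [← pack_single _ _ h3]
    refine pack_congr fun d _ => ?_
    unfold ind
    simp [hb]
  · simp only
    rw [← pack_zero 4]
    refine pack_congr fun d _ => ?_
    unfold ind
    simp [hb]

theorem ind_le (s : ℕ) (b : ℕ → Bool) (j : ℕ → ℕ) (a d : ℕ) : ind N s b j a d ≤ 1 := by
  unfold ind
  split_ifs <;> omega

theorem rsum_dl (hN : N ≤ 6) {s : ℕ} (b : ℕ → Bool) (j : ℕ → ℕ) {l : List ℕ}
    (hl : ∀ a ∈ l, ti a < N ∧ j a < N) :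
    rsum (fun a => if b a then 0 else dl c x (dist' N (ti a) (j a))) l =
      ∑ d ∈ range 4, dl c x d * (tsum (fun a => ind N s b j a d) l : ℝ) := by
  have h1 : rsum (fun a => if b a then 0 else dl c x (dist' N (ti a) (j a))) l =
      rsum (fun a => ∑ d ∈ range 4, dl c x d * (ind N s b j a d : ℝ)) l := by
    refine rsum_congr fun a ha => ?_
    obtain ⟨h1, h2⟩ := hl a ha
    have h3 := dist_lt4 hN h1 h2
    rcases hb : b a with _ | _
    · rw [Finset.sum_eq_single_of_mem _ (mem_range.2 h3)]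
      · unfold ind; simp [hb]
      · intro d _ hd
        unfold ind; simp [hd]
    · symm
      rw [if_pos rfl]
      refine Finset.sum_eq_zero fun d _ => ?_
      unfold ind; simp [hb]
  rw [h1, rsum_sum]
  refine Finset.sum_congr rfl fun d _ => ?_
  rw [rsum_mul, rsum_cast]

theorem cert_valid (h : Cyc c N x) (hmin : ∀ i, i % N ≠ 0 → x 0 < x i) (hx : ∀ i, x i ≠ 0) {s : ℕ}
    (hs : ∀ i, s.testBit (i % N) = decide (x i < 0)) (hN : N ≤ 6) {qt : ℕ} (hqt : qtOK N qt = true)
    {l : List ℕ} {e : ℕ} (hc : certOK N s qt l e = true) :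
    VE ((places c x).image (code N x)) e := by
  intro hneg
  unfold certOK at hc
  simp only [Bool.and_eq_true] at hc
  obtain ⟨⟨⟨⟨⟨hne, hval⟩, hsm⟩, hkap⟩, hcnt⟩, hwords⟩ := hc
  have hl : l ≠ [] := by
    intro e
    rw [e] at hne
    exact Bool.false_ne_true hne
  rw [List.all_eq_true] at hval
  have hsm' : tsum (fun _ => 1) l * (N + 1) < 65536 :=
    Nat.lt_of_succ_le (Nat.le_of_ble_eq_true hsm)
  have hkap' : tsum kt l ≤ ekap e := Nat.le_of_ble_eq_true hkap
  have hS1 : tsum (fun _ => 1) l < 65536 := by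
    have : tsum (fun _ => 1) l ≤ tsum (fun _ => 1) l * (N + 1) := Nat.le_mul_of_pos_right _ (by omega)
    omega
  have hlA : ∀ a ∈ l, ti a < N ∧ tj a < N := fun a ha =>
    ⟨(validT_lt (hval a ha)).1, (validT_lt (hval a ha)).2.1⟩
  have hlB : ∀ a ∈ l, ti a < N ∧ tk a < N := fun a ha =>
    ⟨(validT_lt (hval a ha)).1, (validT_lt (hval a ha)).2.2.1⟩
  -- counts
  have hcnt' : countsOK (pack (fun d => tsum (fun a => ind N s (sA s) tj a d) l) 4)
      (pack (fun d => tsum (fun a => ind N s (sB s) tk a d) l) 4) 4 = true := by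
    rw [← count_pack (s := s) hN (sA s) tj hlA, ← count_pack (s := s) hN (sB s) tk hlB]
    exact hcnt
  have hcount : ∀ d < 4, tsum (fun a => ind N s (sB s) tk a d) l ≤
      tsum (fun a => ind N s (sA s) tj a d) l := by
    intro d hd
    have h1 := countsOK_spec hcnt' hd
    have bd : ∀ (b : ℕ → Bool) (j : ℕ → ℕ), ∀ u < 4, tsum (fun a => ind N s b j a u) l < 65536 := by
      intro b j u _
      exact lt_of_le_of_lt (tsum_le fun a _ => ind_le s b j a u) hS1
    rw [fd_pack (bd (sB s) tk) hd, fd_pack (bd (sA s) tj) hd] at h1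
    exact h1
  -- words
  have hP : ∀ (b : ℕ → Bool) (j : ℕ → ℕ), (∀ a ∈ l, ti a < N ∧ j a < N) →
      tsum (fun a => qv qt (b a) (ti a) (j a)) l =
      pack (fun u => tsum (fun a => qx N (wd N u) (b a) (ti a) (j a)) l) 32 := by
    intro b j hj
    rw [← tsum_pack]
    refine tsum_congr fun a ha => ?_
    exact qtOK_spec hqt (hj a ha).1 (hj a ha).2 _
  have hbd : ∀ (b : ℕ → Bool) (j : ℕ → ℕ), ∀ u < 32,
      tsum (fun a => qx N (wd N u) (b a) (ti a) (j a)) l < 65536 := by
    intro b j u _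
    have h1 : tsum (fun a => qx N (wd N u) (b a) (ti a) (j a)) l ≤ tsum (fun _ => N + 1) l :=
      tsum_le fun a _ => qx_le _ _ _ _ _
    rw [tsum_const] at h1
    omega
  rw [hP _ _ hlA, hP _ _ hlB] at hwords
  have hword : ∀ p ∈ places c x, tsum (fun a => qx N (cls p x) (sB s a) (ti a) (tk a)) l +
      efld e (code N x p) ≤ tsum (fun a => qx N (cls p x) (sA s a) (ti a) (tj a)) l := by
    intro p hp
    have hM := one_lt_of_mem hp
    have hF : Fact p.Prime := ⟨prime_of_mem hp⟩
    have hu : code N x p < 32 := by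
      have h1 := code_lt N x p
      have h2 : 2 ^ (N - 1) ≤ 2 ^ 5 := Nat.pow_le_pow_right (by norm_num) (by omega)
      omega
    have h1 := wordsOK_spec hwords hu (primw_code h hM)
      (hneg _ (Finset.mem_image_of_mem _ hp))
    rw [fd_pack (hbd (sB s) tk) hu, fd_pack (hbd (sA s) tj) hu, wd_code h hM] at h1
    exact h1
  -- the real inequality
  have hlt : rsum (fun a => Real.log |((pm x (sA s a) (ti a) (tj a) : ℚ) : ℝ)|) l <
      rsum (fun a => Real.log |((pm x (sB s a) (ti a) (tk a) : ℚ) : ℝ)| +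
        (kt a : ℝ) * Real.log 2) l :=
    rsum_lt hl (fun a ha => (validT_lt (hval a ha)).2.2.2.2.2)
      fun a ha => term_log h hmin hx hs (hval a ha)
  have hform : ∀ (b : ℕ → Bool) (j : ℕ → ℕ), (∀ a ∈ l, ti a < N ∧ j a < N ∧ ti a ≠ j a) →
      rsum (fun a => Real.log |((pm x (b a) (ti a) (j a) : ℚ) : ℝ)|) l =
      ∑ p ∈ places c x, Lg x p * ((tsum (fun a => qx N (cls p x) (b a) (ti a) (j a)) l : ℝ) -
        (tsum (fun _ => 1) l : ℝ)) +
      rsum (fun a => if b a then 0 else dl c x (dist' N (ti a) (j a))) l := by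
    intro b j hj
    have e1 : rsum (fun a => Real.log |((pm x (b a) (ti a) (j a) : ℚ) : ℝ)|) l =
        rsum (fun a => (∑ p ∈ places c x, Lg x p *
          ((qx N (cls p x) (b a) (ti a) (j a) : ℝ) - 1)) +
          (if b a then 0 else dl c x (dist' N (ti a) (j a)))) l := by
      refine rsum_congr fun a ha => ?_
      obtain ⟨g1, g2, g3⟩ := hj a ha
      exact log_pm h g1 g2 g3 (b a)
    rw [e1, rsum_add, rsum_sum]
    congr 1
    refine Finset.sum_congr rfl fun p _ => ?_
    rw [rsum_mul]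
    congr 1
    have e2 : (fun a => (qx N (cls p x) (b a) (ti a) (j a) : ℝ) - 1) =
        fun a => (qx N (cls p x) (b a) (ti a) (j a) : ℝ) + (-1) * ((1 : ℕ) : ℝ) := by
      funext a; push_cast; ring
    rw [e2, rsum_add, rsum_mul, rsum_cast, rsum_cast (fun _ => 1)]
    ring
  have e3 : rsum (fun a => Real.log |((pm x (sB s a) (ti a) (tk a) : ℚ) : ℝ)| +
        (kt a : ℝ) * Real.log 2) l =
      rsum (fun a => Real.log |((pm x (sB s a) (ti a) (tk a) : ℚ) : ℝ)|) l +
        (tsum kt l : ℝ) * Real.log 2 := by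
    rw [rsum_add]
    congr 1
    have : (fun a => (kt a : ℝ) * Real.log 2) = fun a => Real.log 2 * (kt a : ℝ) := by
      funext a; ring
    rw [this, rsum_mul, rsum_cast]; ring
  rw [e3, hform (sA s) tj (fun a ha => ⟨(hlA a ha).1, (hlA a ha).2, (validT_lt (hval a ha)).2.2.2.1⟩),
    hform (sB s) tk (fun a ha => ⟨(hlB a ha).1, (hlB a ha).2, (validT_lt (hval a ha)).2.2.2.2.1⟩),
    rsum_dl (s := s) hN (sA s) tj hlA, rsum_dl (s := s) hN (sB s) tk hlB] at hlt
  have hdl : ∑ d ∈ range 4, dl c x d * (tsum (fun a => ind N s (sB s) tk a d) l : ℝ) ≤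
      ∑ d ∈ range 4, dl c x d * (tsum (fun a => ind N s (sA s) tj a d) l : ℝ) := by
    refine Finset.sum_le_sum fun d hd => ?_
    refine mul_le_mul_of_nonneg_left ?_ (dl_nonneg h d)
    exact_mod_cast hcount d (mem_range.1 hd)
  have hmain : Real.log 2 * ∑ p ∈ places c x, (efld e (code N x p) : ℝ) ≤
      ∑ p ∈ places c x, Lg x p * ((tsum (fun a => qx N (cls p x) (sA s a) (ti a) (tj a)) l : ℝ) -
        (tsum (fun _ => 1) l : ℝ)) -
      ∑ p ∈ places c x, Lg x p * ((tsum (fun a => qx N (cls p x) (sB s a) (ti a) (tk a)) l : ℝ) -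
        (tsum (fun _ => 1) l : ℝ)) := by
    rw [← Finset.sum_sub_distrib, Finset.mul_sum]
    refine Finset.sum_le_sum fun p hp => ?_
    have h1 := log_two_le_Lg hp
    have h2 : ((tsum (fun a => qx N (cls p x) (sB s a) (ti a) (tk a)) l : ℕ) : ℝ) +
        (efld e (code N x p) : ℝ) ≤ (tsum (fun a => qx N (cls p x) (sA s a) (ti a) (tj a)) l : ℕ) := by
      exact_mod_cast hword p hp
    have h3 : (0 : ℝ) ≤ efld e (code N x p) := Nat.cast_nonneg _
    have h4 : 0 < Real.log 2 := Real.log_pos (by norm_num)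
    calc Real.log 2 * (efld e (code N x p) : ℝ) ≤ Lg x p * (efld e (code N x p) : ℝ) :=
          mul_le_mul_of_nonneg_right h1 h3
      _ ≤ Lg x p * ((tsum (fun a => qx N (cls p x) (sA s a) (ti a) (tj a)) l : ℝ) -
          (tsum (fun a => qx N (cls p x) (sB s a) (ti a) (tk a)) l : ℝ)) :=
          mul_le_mul_of_nonneg_left (by linarith) (by linarith)
      _ = _ := by ring
  have hfin : Real.log 2 * ∑ p ∈ places c x, (efld e (code N x p) : ℝ) <
      (tsum kt l : ℝ) * Real.log 2 := by linarith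
  have h4 : 0 < Real.log 2 := Real.log_pos (by norm_num)
  have hfin2 : ∑ p ∈ places c x, (efld e (code N x p) : ℝ) < (tsum kt l : ℝ) := by
    by_contra hcon
    push Not at hcon
    have := mul_le_mul_of_nonneg_left hcon h4.le
    linarith
  have hfin3 : ∑ p ∈ places c x, efld e (code N x p) < tsum kt l := by exact_mod_cast hfin2
  exact lt_of_le_of_lt (sum_image_le' _ _ _) (lt_of_lt_of_le hfin3 hkap')

/-- If all certificates are valid and the search tree is closed, the number of different words is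
larger than `K`. -/
theorem tree_spec (h : Cyc c N x) (hmin : ∀ i, i % N ≠ 0 → x 0 < x i) (hx : ∀ i, x i ≠ 0) {s : ℕ}
    (hs : ∀ i, s.testBit (i % N) = decide (x i < 0)) (hN : N ≤ 6) {qt : ℕ} (hqt : qtOK N qt = true)
    {tab nc K st : ℕ} (hcerts : ∀ i < nc, ∃ l : List ℕ, certOK N s qt l (entry tab i) = true)
    (hrun : (run tab nc K 0 [] st).isSome = true) :
    K < ((places c x).image (code N x)).card := by
  by_contra hcon
  push Not at hcon
  obtain ⟨s', hs'⟩ := Option.isSome_iff_exists.1 hrun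
  refine run_spec (W := (places c x).image (code N x)) ?_ tab nc ?_ K 0 [] st s' hs' ?_ ?_ ?_ ?_
  · intro w hw
    obtain ⟨p, -, rfl⟩ := Finset.mem_image.1 hw
    have h1 := code_lt N x p
    have h2 : 2 ^ (N - 1) ≤ 2 ^ 5 := Nat.pow_le_pow_right (by norm_num) (by omega)
    omega
  · intro i hi
    obtain ⟨l, hl⟩ := hcerts i hi
    exact cert_valid h hmin hx hs hN hqt hl
  · simp
  · exact List.nodup_nil
  · intro v _; simp
  · simpa using hcon

end Pool.Agent.FPS
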