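import Pool.Agent.FPS4.Defs

/-!
The order of the points of a cycle is determined by the signs (once `x 0` is the minimum).
-/

namespace Pool.Agent.FPS

variable {c : ℚ} {N : ℕ} {x : ℕ → ℚ}

/-- `x i < x j` as computed from the sign code `s` (bit `i` of `s` is set iff `x i < 0`). -/
def ltc (N s : ℕ) : ℕ → ℕ → ℕ → Bool
  | 0, _, _ => false
  | n + 1, i, j =>
    match Nat.beq (i % N) 0 with
    | true => true
    | false =>
      match Nat.beq (j % N) 0 with
      | true => false
      | false =>
        match s.testBit (i % N) == s.testBit (j % N) with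
        | true => ltc N s n (i + 1) (j + 1) != s.testBit (i % N)
        | false => s.testBit (i % N)

theorem abs_lt_iff' (h : Cyc c N x) (i j : ℕ) : |x j| < |x i| ↔ x (j + 1) < x (i + 1) := by
  rw [h.step, h.step, ← sq_lt_sq]
  constructor <;> intro hh <;> linarith

theorem ltc_spec (h : Cyc c N x) (hmin : ∀ i, i % N ≠ 0 → x 0 < x i) {s : ℕ}
    (hs : ∀ i, s.testBit (i % N) = decide (x i < 0)) :
    ∀ n i j, i % N ≠ j % N → (∃ t < n, (i + t) % N = 0 ∨ (j + t) % N = 0) →
      ltc N s n i j = decide (x i < x j) := by
  intro n
  induction n with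
  | zero => rintro i j - ⟨t, ht, -⟩; omega
  | succ n ih =>
    rintro i j hij ⟨t, ht, h0⟩
    have hz : ∀ i, i % N = 0 → x i = x 0 := fun i hi => (h.eq_iff).2 (by rw [hi, Nat.zero_mod])
    unfold ltc
    by_cases hi : i % N = 0
    · have : Nat.beq (i % N) 0 = true := by rw [hi]; rfl
      simp only [this]
      symm
      rw [decide_eq_true_iff, hz i hi]
      exact hmin j fun hj => hij (by rw [hi, hj])
    · have hi' : Nat.beq (i % N) 0 = false := by
        rcases hb : Nat.beq (i % N) 0 with _ | _
        · rfl
        · exact absurd (Nat.eq_of_beq_eq_true hb) hi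
      simp only [hi']
      by_cases hj : j % N = 0
      · have : Nat.beq (j % N) 0 = true := by rw [hj]; rfl
        simp only [this]
        symm
        rw [decide_eq_false_iff_not, hz j hj]
        exact not_lt.2 (hmin i hi).le
      · have hj' : Nat.beq (j % N) 0 = false := by
          rcases hb : Nat.beq (j % N) 0 with _ | _
          · rfl
          · exact absurd (Nat.eq_of_beq_eq_true hb) hj
        simp only [hj']
        rw [hs i, hs j]
        have ht0 : t ≠ 0 := by
          rintro rfl
          rcases h0 with h0 | h0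
          · exact hi (by simpa using h0)
          · exact hj (by simpa using h0)
        have ih' := ih (i + 1) (j + 1) (fun e => hij (mod_add_congr.1 e)) ⟨t - 1, by omega, by
          rwa [show i + 1 + (t - 1) = i + t by omega, show j + 1 + (t - 1) = j + t by omega]⟩
        rw [ih']
        have habs := abs_lt_iff' h j i
        have hne : x i ≠ x j := fun e => hij (h.inj_mod e)
        by_cases si : x i < 0 <;> by_cases sj : x j < 0
        · simp only [si, sj, decide_true, beq_self_eq_true]
          rw [abs_of_neg si, abs_of_neg sj] at habs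
          rcases lt_or_gt_of_ne hne with hlt | hlt
          · have : ¬ (x (i + 1) < x (j + 1)) := fun hh => by have := habs.2 hh; linarith
            simp [this, hlt]
          · have : x (i + 1) < x (j + 1) := habs.1 (by linarith)
            have h2 : ¬ (x i < x j) := not_lt.2 hlt.le
            simp [this, h2]
        · have : x i < x j := by push Not at sj; linarith
          simp [si, sj, this]
        · have : ¬ (x i < x j) := by push Not at si; exact not_lt.2 (by linarith)
          simp [si, sj, this]
        · have hii : 0 ≤ x i := not_lt.1 si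
          have hjj : 0 ≤ x j := not_lt.1 sj
          simp only [si, sj, decide_false, beq_self_eq_true]
          rw [abs_of_nonneg hii, abs_of_nonneg hjj] at habs
          by_cases hlt : x i < x j
          · simp [hlt, habs.1 hlt]
          · have : ¬ (x (i + 1) < x (j + 1)) := fun hh => hlt (habs.2 hh)
            simp [hlt, this]

theorem ltc_eq (h : Cyc c N x) (hmin : ∀ i, i % N ≠ 0 → x 0 < x i) {s : ℕ}
    (hs : ∀ i, s.testBit (i % N) = decide (x i < 0)) {i j : ℕ} (hij : i % N ≠ j % N) :
    ltc N s N i j = decide (x i < x j) := by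
  refine ltc_spec h hmin hs N i j hij ⟨(N - i % N) % N, Nat.mod_lt _ h.pos, Or.inl ?_⟩
  rw [Nat.add_mod, Nat.mod_mod, ← Nat.add_mod]
  have hh : i + (N - i % N) = N * (i / N) + N := by
    have := Nat.mod_add_div i N
    have := Nat.mod_lt i h.pos
    omega
  rw [hh]; simp

/-- `|x j| < |x i|` as computed from the sign code -/
def ygt (N s i j : ℕ) : Bool := ltc N s N (j + 1) (i + 1)

theorem ygt_eq (h : Cyc c N x) (hmin : ∀ i, i % N ≠ 0 → x 0 < x i) {s : ℕ}
    (hs : ∀ i, s.testBit (i % N) = decide (x i < 0)) {i j : ℕ} (hij : i % N ≠ j % N) :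
    ygt N s i j = decide (|x j| < |x i|) := by
  unfold ygt
  rw [ltc_eq h hmin hs (fun e => hij (mod_add_congr.1 e).symm)]
  rw [decide_eq_decide]
  exact (abs_lt_iff' h i j).symm

/-- Consistency of a sign code. -/
def cons (N s : ℕ) : Bool :=
  (List.range N).all fun i => (List.range N).all fun j => i == j ||
    ((ltc N s N i j != ltc N s N j i) &&
      (s.testBit i || !(s.testBit j) || !(ltc N s N i j)) &&
      (!(s.testBit i) || s.testBit j || ltc N s N i j) &&
      (s.testBit i != s.testBit j ||
        ((ltc N s N i j != ltc N s N (i + 1) (j + 1)) == s.testBit i)) &&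
      (List.range N).all fun k => k == i || k == j || !(ltc N s N i j) || !(ltc N s N j k) ||
        ltc N s N i k)

theorem cons_of (h : Cyc c N x) (hmin : ∀ i, i % N ≠ 0 → x 0 < x i) {s : ℕ}
    (hs : ∀ i, s.testBit (i % N) = decide (x i < 0)) : cons N s = true := by
  unfold cons
  rw [List.all_eq_true]
  intro i hi
  rw [List.all_eq_true]
  intro j hj
  rw [List.mem_range] at hi hj
  by_cases hij : i = j
  · simp [hij]
  have mi := Nat.mod_eq_of_lt hi
  have mj := Nat.mod_eq_of_lt hj
  have hij' : i % N ≠ j % N := by rwa [mi, mj]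
  have si : s.testBit i = decide (x i < 0) := by rw [← hs i, mi]
  have sj : s.testBit j = decide (x j < 0) := by rw [← hs j, mj]
  have e1 := ltc_eq h hmin hs hij'
  have e2 := ltc_eq h hmin hs (Ne.symm hij')
  have e3 := ltc_eq h hmin hs (i := i + 1) (j := j + 1) (fun e => hij' (mod_add_congr.1 e))
  have hne : x i ≠ x j := fun e => hij' (h.inj_mod e)
  have habs := abs_lt_iff' h j i
  simp only [Bool.or_eq_true, Bool.and_eq_true, beq_iff_eq]
  right
  refine ⟨⟨⟨⟨?_, ?_⟩, ?_⟩, ?_⟩, ?_⟩
  · rw [e1, e2]
    rcases lt_or_gt_of_ne hne with hlt | hlt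
    · simp [hlt, not_lt.2 hlt.le]
    · simp [hlt, not_lt.2 hlt.le]
  · rw [si, sj, e1]
    by_cases a : x i < 0
    · simp [a]
    · by_cases b : x j < 0
      · have : ¬ (x i < x j) := not_lt.2 (by linarith [not_lt.1 a])
        simp [a, b, this]
      · simp [b]
  · rw [si, sj, e1]
    by_cases a : x i < 0
    · by_cases b : x j < 0
      · simp [b]
      · have : x i < x j := by linarith [not_lt.1 b]
        simp [a, b, this]
    · simp [a]
  · rw [si, sj, e1, e3]
    by_cases a : x i < 0 <;> by_cases b : x j < 0
    · rw [abs_of_neg a, abs_of_neg b] at habs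
      rcases lt_or_gt_of_ne hne with hlt | hlt
      · have : ¬ (x (i + 1) < x (j + 1)) := fun hh => by have := habs.2 hh; linarith
        simp [a, b, this, hlt]
      · have h1 : x (i + 1) < x (j + 1) := habs.1 (by linarith)
        have h2 : ¬ (x i < x j) := not_lt.2 hlt.le
        simp [a, b, h1, h2]
    · simp [a, b]
    · simp [a, b]
    · rw [abs_of_nonneg (not_lt.1 a), abs_of_nonneg (not_lt.1 b)] at habs
      by_cases hlt : x i < x j
      · simp [a, b, hlt, habs.1 hlt]
      · have : ¬ (x (i + 1) < x (j + 1)) := fun hh => hlt (habs.2 hh)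
        simp [a, b, hlt, this]
  · rw [List.all_eq_true]
    intro k hk
    rw [List.mem_range] at hk
    by_cases hki : k = i
    · simp [hki]
    by_cases hkj : k = j
    · simp [hkj]
    have mk := Nat.mod_eq_of_lt hk
    have e4 := ltc_eq h hmin hs (i := j) (j := k) (by rw [mj, mk]; exact fun e => hkj e.symm)
    have e5 := ltc_eq h hmin hs (i := i) (j := k) (by rw [mi, mk]; exact fun e => hki e.symm)
    rw [e1, e4, e5]
    by_cases a : x i < x j
    · by_cases b : x j < x k
      · simp [a.trans b]
      · simp [b]
    · simp [a]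

end Pool.Agent.FPS
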