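import Pool.Agent.FPS4.LogForm
import Pool.Agent.FPS4.Order

/-!
The checker: certificates (integer combinations of the basic inequalities) and the search tree over
sets of words.  Everything is natural number arithmetic, to be evaluated by the kernel.
-/

namespace Pool.Agent.FPS

/-- the word with code `u` (class of index `0` is `false`) -/
def wd (N u : ℕ) : ℕ → Bool := fun i => (2 * u).testBit (i % N)

/-- primitivity of the word with code `u` -/
def primw (N u : ℕ) : Bool :=
  (List.range N).all fun d => d == 0 || (List.range N).any fun t => wd N u t != wd N u (d + t)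

/-! ### Terms -/

def tk (a : ℕ) : ℕ := a % 8
def tj (a : ℕ) : ℕ := a / 8 % 8
def ti (a : ℕ) : ℕ := a / 64 % 8
def tt (a : ℕ) : ℕ := a / 512 % 4
def tm (a : ℕ) : ℕ := a / 2048

/-- is the first quantity of the inequality a sum? -/
def sA (s a : ℕ) : Bool :=
  match Nat.beq (tt a) 3 with
  | true => s.testBit (ti a) != s.testBit (tj a)
  | false => s.testBit (ti a) == s.testBit (tj a)

/-- is the second quantity of the inequality a sum? -/
def sB (s a : ℕ) : Bool := s.testBit (ti a) == s.testBit (tk a)

/-- the constant (times `log 2`) of the inequality -/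
def kt (a : ℕ) : ℕ := match Nat.beq (tt a) 1 with
  | true => 1
  | false => 0

def validT (N s a : ℕ) : Bool :=
  Nat.blt (ti a) N && Nat.blt (tj a) N && Nat.blt (tk a) N &&
    !(Nat.beq (ti a) (tj a)) && !(Nat.beq (ti a) (tk a)) && Nat.blt 0 (tm a) &&
    (match Nat.beq (tt a) 1 with
      | true => ygt N s (ti a) (tj a)
      | false => match Nat.beq (tt a) 2 with
        | true => !(Nat.beq (tj a) (tk a)) && ygt N s (tk a) (tj a)
        | false => match Nat.beq (tt a) 3 with
          | true => ygt N s (ti a) (tj a)
          | false => false)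

/-- weighted sum over the terms of a certificate -/
def tsum (f : ℕ → ℕ) : List ℕ → ℕ
  | [] => 0
  | a :: l => tm a * f a + tsum f l

/-- packing of a function into one number, fields of 16 bits -/
def pack (f : ℕ → ℕ) : ℕ → ℕ
  | 0 => 0
  | n + 1 => pack f n + f n * 65536 ^ n

/-- a field of 16 bits -/
def fd (P u : ℕ) : ℕ := Nat.land (Nat.shiftRight P (16 * u)) 65535

/-- the packed vector of exponents, from a table -/
def qv (qt : ℕ) (b : Bool) (i j : ℕ) : ℕ :=
  Nat.land (Nat.shiftRight qt (512 * ((match b with
    | true => 64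
    | false => 0) + 8 * i + j))) (2 ^ 512 - 1)

/-- correctness of the table -/
def qtOK (N qt : ℕ) : Bool :=
  (List.range N).all fun i => (List.range N).all fun j =>
    Nat.beq (qv qt true i j) (pack (fun u => qx N (wd N u) true i j) 32) &&
    Nat.beq (qv qt false i j) (pack (fun u => qx N (wd N u) false i j) 32)

/-! ### Entries: 32 bits (negative words), 12 bits (constant), 32 fields of 12 bits -/

def eneg (e : ℕ) : ℕ := Nat.land e 4294967295
def ekap (e : ℕ) : ℕ := Nat.land (Nat.shiftRight e 32) 4095
def efld (e u : ℕ) : ℕ := Nat.land (Nat.shiftRight e (44 + 12 * u)) 4095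
def entry (tab i : ℕ) : ℕ := Nat.land (Nat.shiftRight tab (428 * i)) (2 ^ 428 - 1)

def wordsOK (N P Q e : ℕ) : ℕ → Bool
  | 0 => true
  | u + 1 => (e.testBit u || Nat.ble (fd Q u + efld e u) (fd P u) || !(primw N u)) &&
      wordsOK N P Q e u

def countsOK (cA cB : ℕ) : ℕ → Bool
  | 0 => true
  | d + 1 => Nat.ble (fd cB d) (fd cA d) && countsOK cA cB d

def certOK (N s qt : ℕ) (l : List ℕ) (e : ℕ) : Bool :=
  !(l.isEmpty) && l.all (validT N s) &&
    Nat.blt (tsum (fun _ => 1) l * (N + 1)) 65536 &&
    Nat.ble (tsum kt l) (ekap e) &&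
    countsOK
      (tsum (fun a => match sA s a with
        | true => 0
        | false => 65536 ^ (dist' N (ti a) (tj a))) l)
      (tsum (fun a => match sB s a with
        | true => 0
        | false => 65536 ^ (dist' N (ti a) (tk a))) l) 4 &&
    wordsOK N (tsum (fun a => qv qt (sA s a) (ti a) (tj a)) l)
      (tsum (fun a => qv qt (sB s a) (ti a) (tk a)) l) e 32

def certsOK (N s qt tab : ℕ) : ℕ → List (List ℕ) → Bool
  | _, [] => true
  | i, c :: l => certOK N s qt c (entry tab i) && certsOK N s qt tab (i + 1) l

/-! ### The tree -/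

def sumF (e : ℕ) : List ℕ → ℕ
  | [] => 0
  | u :: l => efld e u + sumF e l

def nodeOK (e : ℕ) (U : List ℕ) : Bool :=
  (U.all fun u => !(e.testBit u)) && Nat.ble (ekap e) (sumF e U)

def loop (f : ℕ → List ℕ → ℕ → Option ℕ) (U : List ℕ) : ℕ → ℕ → ℕ → ℕ → Option ℕ
  | 0, _, _, _ => none
  | n + 1, cand, X, s =>
    match Nat.beq cand 0 with
    | true => some s
    | false =>
      match f X (Nat.log2 cand :: U) s with
      | none => none
      | some s' => loop f U n (Nat.xor cand (Nat.shiftLeft 1 (Nat.log2 cand)))
          (Nat.lor X (Nat.shiftLeft 1 (Nat.log2 cand))) s'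

def run (tab nc : ℕ) : ℕ → ℕ → List ℕ → ℕ → Option ℕ
  | 0, _, U, s =>
    match Nat.blt (s % 4096) nc && nodeOK (entry tab (s % 4096)) U with
    | true => some (s / 4096)
    | false => none
  | r + 1, X, U, s =>
    match Nat.blt (s % 4096) nc && nodeOK (entry tab (s % 4096)) U with
    | true => loop (run tab nc r) U 33
        (Nat.xor (eneg (entry tab (s % 4096))) (Nat.land (eneg (entry tab (s % 4096))) X))
        X (s / 4096)
    | false => none

end Pool.Agent.FPS
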