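import Mathlib

/-!
Basic definitions for the quadratic map `x ↦ x ^ 2 + c` over `ℚ`.
-/

namespace Pool.Agent.FPS

/-- `x 0, …, x (N-1)` is a cycle of exact length `N` of `y ↦ y ^ 2 + c`
(continued periodically to all of `ℕ`). -/
structure Cyc (c : ℚ) (N : ℕ) (x : ℕ → ℚ) : Prop where
  pos : 0 < N
  step : ∀ i, x (i + 1) = x i ^ 2 + c
  per : ∀ i, x (i + N) = x i
  inj : ∀ i j, i < N → j < N → x i = x j → i = j

theorem cyc_of_minimalPeriod {c a : ℚ} (h : 0 < Function.minimalPeriod (fun y : ℚ => y ^ 2 + c) a) :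
    Cyc c (Function.minimalPeriod (fun y : ℚ => y ^ 2 + c) a)
      (fun i => (fun y : ℚ => y ^ 2 + c)^[i] a) where
  pos := h
  step i := by rw [Function.iterate_succ_apply']
  per i := by
    change (fun y : ℚ => y ^ 2 + c)^[i + _] a = _
    rw [Function.iterate_add_apply, Function.iterate_minimalPeriod]
  inj i j hi hj hij := by
    exact (Function.iterate_eq_iterate_iff_of_lt_minimalPeriod hi hj).1 hij

variable {c : ℚ} {N : ℕ} {x : ℕ → ℚ}

theorem Cyc.per_mul (h : Cyc c N x) (i k : ℕ) : x (i + k * N) = x i := by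
  induction k with
  | zero => simp
  | succ k ih => rw [Nat.succ_mul, ← add_assoc, h.per, ih]

theorem Cyc.mod (h : Cyc c N x) (i : ℕ) : x (i % N) = x i := by
  conv_rhs => rw [← Nat.mod_add_div i N, mul_comm]
  rw [h.per_mul]

theorem Cyc.inj_mod (h : Cyc c N x) {i j : ℕ} (hij : x i = x j) : i % N = j % N :=
  h.inj _ _ (Nat.mod_lt _ h.pos) (Nat.mod_lt _ h.pos) (by rw [h.mod, h.mod, hij])

theorem Cyc.eq_iff (h : Cyc c N x) {i j : ℕ} : x i = x j ↔ i % N = j % N :=
  ⟨h.inj_mod, fun e => by rw [← h.mod i, ← h.mod j, e]⟩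

theorem mod_add_congr {N i j k : ℕ} : (i + k) % N = (j + k) % N ↔ i % N = j % N :=
  ⟨fun h => (Nat.ModEq.add_right_cancel' k h), fun h => Nat.ModEq.add_right k h⟩

/-- rotation of a cycle -/
theorem Cyc.shift (h : Cyc c N x) (k : ℕ) : Cyc c N (fun i => x (i + k)) where
  pos := h.pos
  step i := by
    change x (i + 1 + k) = _
    rw [← h.step]; congr 1; ring
  per i := by
    change x (i + N + k) = _
    rw [← h.per (i + k)]; congr 1; ring
  inj i j hi hj hij := by
    have := mod_add_congr.1 (h.inj_mod hij)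
    rwa [Nat.mod_eq_of_lt hi, Nat.mod_eq_of_lt hj] at this

theorem Cyc.mul_eq (h : Cyc c N x) (i j : ℕ) :
    (x i - x j) * (x i + x j) = x (i + 1) - x (j + 1) := by
  rw [h.step, h.step]; ring

end Pool.Agent.FPS
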