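import Pool.Agent.FPS4.Sound

/-!
A version of the tree checker that is cheaper to evaluate in the kernel.
-/

namespace Pool.Agent.FPS

def sumG (e : ℕ) (U : List ℕ) : ℕ :=
  List.rec (motive := fun _ => ℕ) Nat.zero
    (fun u _ ih => Nat.add (Nat.land (Nat.shiftRight e u) 4095) ih) U

def nodeF (e um : ℕ) (U : List ℕ) : Bool :=
  Bool.rec (motive := fun _ => Bool) false
    (Nat.ble (Nat.land (Nat.shiftRight e 32) 4095) (sumG e U))
    (Nat.beq (Nat.land e um) 0)

def loopF (f : ℕ → ℕ → List ℕ → ℕ → Option ℕ) (U : List ℕ) (um : ℕ) (n : ℕ) :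
    ℕ → ℕ → ℕ → Option ℕ :=
  Nat.rec (motive := fun _ => ℕ → ℕ → ℕ → Option ℕ) (fun _ _ _ => none)
    (fun _ ih cand X s =>
      Bool.rec (motive := fun _ => Option ℕ)
        (Option.rec (motive := fun _ => Option ℕ) none
          (fun s' => ih (Nat.xor cand (Nat.shiftLeft 1 (Nat.log2 cand)))
            (Nat.lor X (Nat.shiftLeft 1 (Nat.log2 cand))) s')
          (f X (Nat.lor um (Nat.shiftLeft 1 (Nat.log2 cand)))
            (Nat.add 44 (Nat.mul 12 (Nat.log2 cand)) :: U) s))
        (some s)
        (Nat.beq cand 0)) n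

def bodyF (nc e um : ℕ) (U : List ℕ) (s : ℕ) (k : Option ℕ) : Option ℕ :=
  Bool.rec (motive := fun _ => Option ℕ) none
    (Bool.rec (motive := fun _ => Option ℕ) none k (nodeF e um U))
    (Nat.ble (Nat.add (Nat.mod s 4096) 1) nc)

def entF (tab s : ℕ) : ℕ :=
  Nat.land (Nat.shiftRight tab (Nat.mul 428 (Nat.mod s 4096)))
    693167423530203714894603546035770925859109268843954143792619895153655326951406405759993601526034894524347802740350892957243539455

def runF (tab nc : ℕ) (r : ℕ) : ℕ → ℕ → List ℕ → ℕ → Option ℕ :=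
  Nat.rec (motive := fun _ => ℕ → ℕ → List ℕ → ℕ → Option ℕ)
    (fun _ um U s => bodyF nc (entF tab s) um U s (some (Nat.div s 4096)))
    (fun _ ih X um U s =>
      bodyF nc (entF tab s) um U s
        (loopF ih U um 33
          (Nat.xor (Nat.land (entF tab s) 4294967295)
            (Nat.land (Nat.land (entF tab s) 4294967295) X))
          X (Nat.div s 4096))) r

theorem mask_eq : 693167423530203714894603546035770925859109268843954143792619895153655326951406405759993601526034894524347802740350892957243539455 = 2 ^ 428 - 1 := by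
  decide +kernel

theorem entF_eq (tab s : ℕ) : entF tab s = entry tab (s % 4096) := by
  have h := mask_eq
  unfold entF entry
  rw [h]
  rfl

/-- shift amounts -/
def sh (u : ℕ) : ℕ := Nat.add 44 (Nat.mul 12 u)

theorem sumG_eq (e : ℕ) (U : List ℕ) : sumG e (U.map sh) = sumF e U := by
  induction U with
  | nil => rfl
  | cons u U ih =>
    change Nat.add (Nat.land (Nat.shiftRight e (sh u)) 4095) (sumG e (U.map sh)) = _
    rw [ih]; rfl

/-- `um` is the mask of `U` -/
def Mask (um : ℕ) (U : List ℕ) : Prop := ∀ u, um.testBit u = decide (u ∈ U)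

theorem mask_nil : Mask 0 [] := fun u => by simp

theorem mask_cons {um : ℕ} {U : List ℕ} (h : Mask um U) (v : ℕ) :
    Mask (Nat.lor um (Nat.shiftLeft 1 v)) (v :: U) := by
  intro u
  have : (um ||| (1 <<< v)).testBit u = decide (u ∈ v :: U) := by
    rw [Nat.testBit_or, h u, Nat.testBit_shiftLeft]
    by_cases huv : u = v
    · subst huv; simp
    · have h1 : (decide (u ≥ v) && Nat.testBit 1 (u - v)) = false := by
        by_cases h2 : u ≥ v
        · have h3 : u - v ≠ 0 := by omega
          have h4 : Nat.testBit 1 (u - v) = false := by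
            rw [Nat.testBit_eq_decide_div_mod_eq]
            have h5 : 1 / 2 ^ (u - v) = 0 := Nat.div_eq_of_lt (Nat.one_lt_two_pow h3)
            rw [h5]; simp
          simp [h4]
        · simp [h2]
      rw [h1]
      simp [huv]
  exact this

theorem nodeF_imp {e um : ℕ} {U : List ℕ} (h : Mask um U) (hn : nodeF e um (U.map sh) = true) :
    nodeOK e U = true := by
  unfold nodeF at hn
  rw [sumG_eq] at hn
  rcases hb : Nat.beq (Nat.land e um) 0 with _ | _
  · rw [hb] at hn; exact absurd hn (by simp)
  · rw [hb] at hn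
    have h1 : e &&& um = 0 := Nat.eq_of_beq_eq_true hb
    unfold nodeOK
    rw [Bool.and_eq_true]
    refine ⟨?_, hn⟩
    rw [List.all_eq_true]
    intro u hu
    have h2 : um.testBit u = true := by rw [h u]; simpa using hu
    have h3 : (e &&& um).testBit u = false := by rw [h1]; simp
    rw [Nat.testBit_and, h2, Bool.and_true] at h3
    simp [h3]

theorem loopF_imp {f : ℕ → ℕ → List ℕ → ℕ → Option ℕ} {g : ℕ → List ℕ → ℕ → Option ℕ}
    (hfg : ∀ X um U s s', Mask um U → f X um (U.map sh) s = some s' → g X U s = some s')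
    {um : ℕ} {U : List ℕ} (h : Mask um U) :
    ∀ n cand X s s', loopF f (U.map sh) um n cand X s = some s' →
      loop g U n cand X s = some s' := by
  intro n
  induction n with
  | zero => intro cand X s s' hh; exact absurd hh (by simp [loopF])
  | succ n ih =>
    intro cand X s s' hh
    unfold loop
    have hh' : (Bool.rec (motive := fun _ => Option ℕ)
        (Option.rec (motive := fun _ => Option ℕ) none
          (fun s' => loopF f (U.map sh) um n (Nat.xor cand (Nat.shiftLeft 1 (Nat.log2 cand)))
            (Nat.lor X (Nat.shiftLeft 1 (Nat.log2 cand))) s')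
          (f X (Nat.lor um (Nat.shiftLeft 1 (Nat.log2 cand)))
            (sh (Nat.log2 cand) :: U.map sh) s))
        (some s)
        (Nat.beq cand 0) : Option ℕ) = some s' := hh
    rcases hb : Nat.beq cand 0 with _ | _
    · rw [hb] at hh'
      rcases hf : f X (Nat.lor um (Nat.shiftLeft 1 (Nat.log2 cand)))
            (sh (Nat.log2 cand) :: U.map sh) s with _ | s1
      · rw [hf] at hh'; exact absurd hh' (by simp)
      · rw [hf] at hh'
        have h1 := hfg X _ (Nat.log2 cand :: U) s s1 (mask_cons h _) hf
        simp only [h1]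
        exact ih _ _ _ _ hh'
    · rw [hb] at hh'
      exact hh'

theorem bodyF_imp {nc tab um : ℕ} {U : List ℕ} {s s' : ℕ} {k k' : Option ℕ} (h : Mask um U)
    (hk : k = some s' → k' = some s')
    (hb : bodyF nc (entF tab s) um (U.map sh) s k = some s') :
    (match Nat.blt (s % 4096) nc && nodeOK (entry tab (s % 4096)) U with
    | true => k'
    | false => none) = some s' := by
  unfold bodyF at hb
  rw [entF_eq] at hb
  rcases h1 : Nat.ble (Nat.add (Nat.mod s 4096) 1) nc with _ | _
  · rw [h1] at hb; exact absurd hb (by simp)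
  rw [h1] at hb
  rcases h2 : nodeF (entry tab (s % 4096)) um (U.map sh) with _ | _
  · rw [h2] at hb; exact absurd hb (by simp)
  rw [h2] at hb
  have h3 : Nat.blt (s % 4096) nc = true := h1
  have h4 := nodeF_imp h h2
  rw [h3, h4]
  exact hk hb

theorem runF_imp {tab nc : ℕ} : ∀ r X um U s s', Mask um U →
    runF tab nc r X um (U.map sh) s = some s' → run tab nc r X U s = some s' := by
  intro r
  induction r with
  | zero =>
    intro X um U s s' h hr
    unfold run
    exact bodyF_imp (k := some (Nat.div s 4096)) h (fun e => e) hr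
  | succ r ih =>
    intro X um U s s' h hr
    unfold run
    refine bodyF_imp (k := loopF (runF tab nc r) (U.map sh) um 33
          (Nat.xor (Nat.land (entF tab s) 4294967295)
            (Nat.land (Nat.land (entF tab s) 4294967295) X))
          X (Nat.div s 4096)) h (fun e => ?_) hr
    rw [entF_eq] at e
    exact loopF_imp ih h _ _ _ _ _ e

theorem run_of_runF {tab nc r s : ℕ} (h : (runF tab nc r 0 0 [] s).isSome = true) :
    (run tab nc r 0 [] s).isSome = true := by
  rw [Option.isSome_iff_exists] at h ⊢
  obtain ⟨s', hs⟩ := h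
  exact ⟨s', runF_imp r 0 0 [] s s' mask_nil hs⟩

end Pool.Agent.FPS
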