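import Pool.Agent.FPS4.CertValid
import Pool.Agent.FPS4.D6x1
import Pool.Agent.FPS4.D6x9
import Pool.Agent.FPS4.D6x17
import Pool.Agent.FPS4.D6x25
import Pool.Agent.FPS4.D6x29
import Pool.Agent.FPS4.D6x33
import Pool.Agent.FPS4.D6x41
import Pool.Agent.FPS4.D6x49
import Pool.Agent.FPS4.D6x57
import Pool.Agent.FPS4.D6x61

/-!
A rational cycle of length 6 of `y ^ 2 + c` has at least seven different words.
-/

namespace Pool.Agent.FPS

open Finset

variable {c : ℚ} {N : ℕ} {x : ℕ → ℚ}

theorem cons_check : ∀ s < 64, cons 6 s = true → s ∈ [1, 9, 17, 25, 29, 33, 41, 49, 57, 61] := by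
  decide +kernel

theorem places_nonempty (h : Cyc c N x) (hN : 3 ≤ N) : (places c x).Nonempty := by
  by_contra hcon
  rw [Finset.not_nonempty_iff_eq_empty] at hcon
  have key : ∀ i j, i % N ≠ j % N → |x i + x j| = 1 := by
    intro i j hij
    have := Dq_add h hij
    unfold Dq at this
    rw [hcon] at this
    simpa using this
  have m0 : 0 % N = 0 := Nat.zero_mod _
  have m1 : 1 % N = 1 := Nat.mod_eq_of_lt (by omega)
  have m2 : 2 % N = 2 := Nat.mod_eq_of_lt (by omega)
  have a01 := key 0 1 (by rw [m0, m1]; norm_num)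
  have a02 := key 0 2 (by rw [m0, m2]; norm_num)
  have a12 := key 1 2 (by rw [m1, m2]; norm_num)
  have n01 : x 0 ≠ x 1 := fun e => by have := h.inj_mod e; omega
  have n02 : x 0 ≠ x 2 := fun e => by have := h.inj_mod e; omega
  have n12 : x 1 ≠ x 2 := fun e => by have := h.inj_mod e; omega
  rcases eq_or_eq_neg_of_abs_eq a01 with b01 | b01 <;>
  rcases eq_or_eq_neg_of_abs_eq a02 with b02 | b02 <;>
  rcases eq_or_eq_neg_of_abs_eq a12 with b12 | b12 <;>
  first
  | exact n12 (by linarith)
  | exact n02 (by linarith)
  | exact n01 (by linarith)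

theorem x_ne_zero (h : Cyc c N x) (hN : 3 ≤ N) (i : ℕ) : x i ≠ 0 := by
  obtain ⟨p, hp⟩ := places_nonempty h hN
  have : Fact p.Prime := ⟨prime_of_mem hp⟩
  have h1 := norm_le_of_place (one_lt_of_mem hp)
  have h2 := sq_eq h h1 0
  have h3 := sq_eq h h1 i
  intro e
  rw [e, padicNorm.zero] at h3
  rw [← h3] at h2
  have h4 : padicNorm p (x 0) ^ 2 = 0 := by rw [h2]; norm_num
  have h5 : padicNorm p (x 0) = 0 := by simpa using h4
  rw [h5] at h1
  norm_num at h1

/-- the main bound when the cycle starts at its minimum -/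
theorem seven_of_min (h : Cyc c 6 x) (hmin : ∀ i, i % 6 ≠ 0 → x 0 < x i) :
    6 < ((places c x).image (code 6 x)).card := by
  have hx := x_ne_zero h (by norm_num)
  set s : ℕ := Nat.ofBits (n := 6) fun i => decide (x i < 0) with hsd
  have hslt : s < 64 := Nat.ofBits_lt_two_pow _
  have hs : ∀ i, s.testBit (i % 6) = decide (x i < 0) := by
    intro i
    have hlt := Nat.mod_lt i h.pos
    rw [hsd, Nat.testBit_ofBits_lt _ _ hlt]
    simp only [h.mod]
  have hc := cons_check s hslt (cons_of h hmin hs)
  simp only [List.mem_cons, List.not_mem_nil, or_false] at hc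
  rcases hc with e | e | e | e | e | e | e | e | e | e <;> rw [e] at hs
  · exact tree_spec h hmin hx hs le_rfl qt6_ok S1.all_ok S1.run_ok
  · exact tree_spec h hmin hx hs le_rfl qt6_ok S9.all_ok S9.run_ok
  · exact tree_spec h hmin hx hs le_rfl qt6_ok S17.all_ok S17.run_ok
  · exact tree_spec h hmin hx hs le_rfl qt6_ok S25.all_ok S25.run_ok
  · exact tree_spec h hmin hx hs le_rfl qt6_ok S29.all_ok S29.run_ok
  · exact tree_spec h hmin hx hs le_rfl qt6_ok S33.all_ok S33.run_ok
  · exact tree_spec h hmin hx hs le_rfl qt6_ok S41.all_ok S41.run_ok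
  · exact tree_spec h hmin hx hs le_rfl qt6_ok S49.all_ok S49.run_ok
  · exact tree_spec h hmin hx hs le_rfl qt6_ok S57.all_ok S57.run_ok
  · exact tree_spec h hmin hx hs le_rfl qt6_ok S61.all_ok S61.run_ok

/-- change of the base point does not change the norm -/
theorem two_mul_iff (h : Cyc c N x) {p : ℕ} [Fact p.Prime] (m : ℕ) :
    1 < padicNorm p (2 * x m) ↔ 1 < padicNorm p (2 * x 0) := by
  constructor
  · intro hM
    have h1 : 1 < padicNorm p (x m) := by
      rw [padicNorm.mul] at hM
      have h2 := norm_two_le (p := p)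
      have h0 : 0 ≤ padicNorm p (x m) := padicNorm.nonneg _
      nlinarith
    have h2 := sq_eq h h1 m
    have h3 := sq_eq h h1 0
    have h4 : padicNorm p (x m) = padicNorm p (x 0) :=
      (sq_eq_sq₀ (padicNorm.nonneg _) (padicNorm.nonneg _)).1 (h2.trans h3.symm)
    rwa [padicNorm.mul, h4, ← padicNorm.mul] at hM
  · intro hM
    rwa [two_mul_eq h hM]

theorem places_shift (h : Cyc c N x) (m : ℕ) : places c (fun i => x (i + m)) = places c x := by
  ext p
  by_cases hp : p.Prime
  · have : Fact p.Prime := ⟨hp⟩
    rw [mem_places_iff (h.shift m) hp, mem_places_iff h hp]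
    simp only [zero_add]
    exact two_mul_iff h m
  · exact ⟨fun hh => absurd (prime_of_mem hh) hp, fun hh => absurd (prime_of_mem hh) hp⟩

theorem cls_shift (h : Cyc c N x) {p : ℕ} [Fact p.Prime] (hM : 1 < padicNorm p (2 * x 0))
    (m i : ℕ) : cls p (fun i => x (i + m)) i = (cls p x (i + m) != cls p x m) := by
  have h1 := cls_iff h hM (i + m) m
  have h2 := sub_le (p := p) h (i + m) m
  rw [max_eq_left hM.le] at h2
  have h3 := two_mul_eq h hM m
  unfold cls
  simp only [zero_add]
  rw [h3]
  change _ = (cls p x (i + m) != cls p x m)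
  by_cases he : cls p x (i + m) = cls p x m
  · have h4 : (cls p x (i + m) != cls p x m) = false := by simpa using he
    rw [h4, decide_eq_false_iff_not]
    exact ne_of_lt (h1.1 he)
  · have h4 : (cls p x (i + m) != cls p x m) = true := by simpa using he
    rw [h4, decide_eq_true_iff]
    rcases lt_or_eq_of_le h2 with h5 | h5
    · exact absurd (h1.2 h5) he
    · exact h5

/-- the set of indices of opposite class -/
noncomputable def opp (N : ℕ) (x : ℕ → ℚ) (p : ℕ) : Finset ℕ :=
  (Finset.range N).filter fun i => padicNorm p (x i - x 0) = padicNorm p (2 * x 0)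

theorem mem_opp (h : Cyc c N x) (p i : ℕ) : decide (i % N ∈ opp N x p) = cls p x i := by
  rw [← cls_mod h i]
  unfold opp cls
  rw [decide_eq_decide, mem_filter, mem_range]
  exact ⟨fun hh => hh.2, fun hh => ⟨Nat.mod_lt _ h.pos, hh⟩⟩

theorem card_shift (h : Cyc c N x) (m : ℕ) :
    ((places c (fun i => x (i + m))).image (code N fun i => x (i + m))).card ≤
      ((places c x).image (opp N x)).card := by
  rw [places_shift h m]
  let g : Finset ℕ → ℕ := fun A => Nat.ofBits (n := N - 1) fun i =>
    (decide ((i.1 + 1 + m) % N ∈ A) != decide (m % N ∈ A))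
  have hg : (places c x).image (code N fun i => x (i + m)) =
      ((places c x).image (opp N x)).image g := by
    rw [Finset.image_image]
    refine Finset.image_congr ?_
    intro p hp
    have hp' : p ∈ places c x := hp
    have : Fact p.Prime := ⟨prime_of_mem hp'⟩
    unfold code
    change _ = g (opp N x p)
    simp only [g]
    congr 1
    funext i
    rw [cls_shift h (one_lt_of_mem hp'), mem_opp h, mem_opp h]
  rw [hg]
  exact Finset.card_image_le

/-- A cycle of length six has at least seven different words. -/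
theorem seven_words (h : Cyc c 6 x) : 7 ≤ ((places c x).image (opp 6 x)).card := by
  obtain ⟨m, hm⟩ := exists_max h (fun z => -z)
  have h1 : 6 < ((places c (fun i => x (i + m))).image (code 6 fun i => x (i + m))).card := by
    refine seven_of_min (h.shift m) ?_
    intro i hi
    simp only [zero_add]
    have h2 : x m ≤ x (i + m) := by
      have h9 : -x (i + m) ≤ -x m := hm (i + m)
      linarith
    refine lt_of_le_of_ne h2 fun e => hi ?_
    have h3 := h.inj_mod e
    have h4 : (0 + m) % 6 = (i + m) % 6 := by rw [zero_add]; exact h3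
    have h5 := mod_add_congr.1 h4
    omega
  exact lt_of_lt_of_le h1 (card_shift h m)

/-- A cycle of length six has at least seven places. -/
theorem seven_places (h : Cyc c 6 x) : 7 ≤ (places c x).card :=
  (seven_words h).trans Finset.card_image_le

/-- If `y ^ 2 + c` has a rational cycle of length six, the denominator of `c` has at least seven
prime factors. -/
theorem seven_primes (h : Cyc c 6 x) : 7 ≤ c.den.primeFactors.card :=
  (seven_places h).trans (Finset.card_filter_le _ _)

end Pool.Agent.FPS
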