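import Mathlib

/-!
# The equation `x ^ 4 - y ^ 4 = z ^ 2`

Fermat's theorem that `x ^ 4 - y ^ 4 = z ^ 2` has no solution in non-zero integers
(infinite descent); Mathlib has only `a ^ 4 + b ^ 4 ≠ c ^ 2`.
-/

namespace Pool.Agent.FPS

/-- If two integers have no common prime divisor then their gcd is `1`. -/
theorem gcd_eq_one_of_no_prime {a b : ℤ}
    (h : ∀ p : ℕ, p.Prime → (p : ℤ) ∣ a → (p : ℤ) ∣ b → False) : Int.gcd a b = 1 := by
  by_contra hne
  obtain ⟨p, hp, hpd⟩ := Nat.exists_prime_and_dvd hne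
  have h1 : (p : ℤ) ∣ (Int.gcd a b : ℤ) := Int.natCast_dvd_natCast.2 hpd
  exact h p hp (h1.trans (Int.gcd_dvd_left ..)) (h1.trans (Int.gcd_dvd_right ..))

theorem no_prime_of_gcd_eq_one {a b : ℤ} (h : Int.gcd a b = 1) {p : ℕ} (hp : p.Prime)
    (ha : (p : ℤ) ∣ a) (hb : (p : ℤ) ∣ b) : False := by
  have h1 : (p : ℤ) ∣ (Int.gcd a b : ℤ) := Int.dvd_coe_gcd ha hb
  rw [h] at h1
  have h2 : p ∣ 1 := by exact_mod_cast h1
  exact hp.one_lt.ne' (Nat.dvd_one.1 h2)

/-- The auxiliary step: a solution of `x² = 4c⁴ + d⁴` gives a smaller solution of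
`g⁴ - h⁴ = d²`. -/
theorem step_aux {x c d : ℤ} (hc : c ≠ 0) (hd : d % 2 = 1) (hcd : Int.gcd c d = 1)
    (h : x ^ 2 = 4 * c ^ 4 + d ^ 4) :
    ∃ g h : ℤ, g ≠ 0 ∧ h ≠ 0 ∧ g.natAbs < x.natAbs ∧ g ^ 4 - h ^ 4 = d ^ 2 := by
  have hd0 : d ≠ 0 := by rintro rfl; simp at hd
  have hx0 : x ≠ 0 := by
    rintro rfl
    have : 0 < d ^ 4 := by positivity
    nlinarith [pow_pos (show 0 < c ^ 2 by positivity) 2]
  have ht : PythagoreanTriple (d ^ 2) (2 * c ^ 2) |x| := by
    unfold PythagoreanTriple
    rw [abs_mul_abs_self]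
    linarith [h]
  have hg : Int.gcd (d ^ 2) (2 * c ^ 2) = 1 := by
    apply gcd_eq_one_of_no_prime
    intro p hp h1 h2
    have hpp : Prime (p : ℤ) := Nat.prime_iff_prime_int.1 hp
    have h1' := hpp.dvd_of_dvd_pow h1
    rcases hpp.dvd_or_dvd h2 with h3 | h3
    · have : p = 2 := by
        have : p ∣ 2 := by exact_mod_cast h3
        exact (Nat.prime_dvd_prime_iff_eq hp Nat.prime_two).1 this
      subst this
      omega
    · exact no_prime_of_gcd_eq_one hcd hp (hpp.dvd_of_dvd_pow h3) h1'
  have hpar : (d ^ 2) % 2 = 1 := by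
    rw [pow_two, Int.mul_emod, hd]; norm_num
  obtain ⟨e, f, h1, h2, h3, h4, -, h5⟩ := ht.coprime_classification' hg hpar (abs_pos.2 hx0)
  have h6 : e * f = c ^ 2 := by linarith
  obtain ⟨g, hg'⟩ := Int.sq_of_gcd_eq_one h4 h6
  obtain ⟨k, hk'⟩ := Int.sq_of_gcd_eq_one (by rw [Int.gcd_comm]; exact h4)
    (show f * e = c ^ 2 by linarith)
  have he0 : e ≠ 0 := by
    rintro rfl
    exact hc (by simpa using h6.symm)
  have hf0 : f ≠ 0 := by
    rintro rfl
    exact hc (by simpa using h6.symm)
  have heg : e ^ 2 = g ^ 4 := by rcases hg' with h | h <;> rw [h] <;> ring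
  have hfk : f ^ 2 = k ^ 4 := by rcases hk' with h | h <;> rw [h] <;> ring
  have hg0 : g ≠ 0 := by
    rintro rfl
    apply he0
    have : e ^ 2 = 0 := by rw [heg]; norm_num
    exact pow_eq_zero_iff (two_ne_zero) |>.1 this
  have hk0 : k ≠ 0 := by
    rintro rfl
    apply hf0
    have : f ^ 2 = 0 := by rw [hfk]; norm_num
    exact pow_eq_zero_iff (two_ne_zero) |>.1 this
  refine ⟨g, k, hg0, hk0, ?_, ?_⟩
  · have hlt : |g| < |x| := by
      rw [h3, heg]
      have h7 : 1 ≤ |g| := Int.one_le_abs hg0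
      have h8 : g ^ 4 = |g| ^ 4 := by
        rw [← abs_pow, abs_of_nonneg (by positivity)]
      have h9 : 0 < f ^ 2 := by positivity
      rw [h8]
      nlinarith [pow_le_pow_right₀ h7 (show 1 ≤ 4 by norm_num)]
    rw [Int.abs_eq_natAbs, Int.abs_eq_natAbs] at hlt
    exact_mod_cast hlt
  · rw [← heg, ← hfk]; exact h1.symm

theorem descent : ∀ n : ℕ, ∀ x y z : ℤ, x.natAbs = n → x ≠ 0 → y ≠ 0 → z ≠ 0 →
    x ^ 4 - y ^ 4 = z ^ 2 → False := by
  intro n
  induction n using Nat.strong_induction_on with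
  | _ n ih =>
    intro x y z hxn hx hy hz h
    by_cases hco : Int.gcd x y = 1
    swap
    · obtain ⟨p, hp, hpd⟩ := Nat.exists_prime_and_dvd hco
      have hpx : (p : ℤ) ∣ x := (Int.natCast_dvd_natCast.2 hpd).trans (Int.gcd_dvd_left ..)
      have hpy : (p : ℤ) ∣ y := (Int.natCast_dvd_natCast.2 hpd).trans (Int.gcd_dvd_right ..)
      obtain ⟨x', rfl⟩ := hpx
      obtain ⟨y', rfl⟩ := hpy
      have hp0 : (p : ℤ) ≠ 0 := by exact_mod_cast hp.ne_zero
      have h4 : ((p : ℤ) ^ 2) ^ 2 ∣ z ^ 2 := ⟨x' ^ 4 - y' ^ 4, by rw [← h]; ring⟩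
      have h5 : (p : ℤ) ^ 2 ∣ z := (Int.pow_dvd_pow_iff two_ne_zero).1 h4
      obtain ⟨z', rfl⟩ := h5
      have hx' : x' ≠ 0 := right_ne_zero_of_mul hx
      have hy' : y' ≠ 0 := right_ne_zero_of_mul hy
      have hz' : z' ≠ 0 := right_ne_zero_of_mul hz
      refine ih x'.natAbs ?_ x' y' z' rfl hx' hy' hz' ?_
      · rw [← hxn, Int.natAbs_mul, Int.natAbs_natCast]
        have : 0 < x'.natAbs := Int.natAbs_pos.2 hx'
        nlinarith [hp.two_le]
      · have h6 : (p : ℤ) ^ 4 * (x' ^ 4 - y' ^ 4) = (p : ℤ) ^ 4 * z' ^ 2 := by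
          linear_combination h
        exact mul_left_cancel₀ (pow_ne_zero 4 hp0) h6
    -- coprime case
    have hxz : PythagoreanTriple (y ^ 2) z (x ^ 2) := by
      unfold PythagoreanTriple
      linear_combination (-1 : ℤ) * h
    have hgy : Int.gcd (y ^ 2) z = 1 := by
      apply gcd_eq_one_of_no_prime
      intro p hp h1 h2
      have hpp : Prime (p : ℤ) := Nat.prime_iff_prime_int.1 hp
      have h1' := hpp.dvd_of_dvd_pow h1
      have h3 : (p : ℤ) ∣ x ^ 4 := by
        have : x ^ 4 = y ^ 4 + z ^ 2 := by linarith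
        rw [this]
        exact dvd_add (dvd_pow h1' (by norm_num)) (dvd_pow h2 (by norm_num))
      exact no_prime_of_gcd_eq_one hco hp (hpp.dvd_of_dvd_pow h3) h1'
    have hx2 : 0 < x ^ 2 := by positivity
    rcases Int.emod_two_eq_zero_or_one y with hy2 | hy2
    · -- `y` even, `z` odd
      have hz2 : z % 2 = 1 := by
        rcases Int.emod_two_eq_zero_or_one z with hz2 | hz2
        · exfalso
          refine no_prime_of_gcd_eq_one hgy Nat.prime_two ?_ ?_
          · exact dvd_pow (Int.dvd_of_emod_eq_zero hy2) two_ne_zero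
          · exact Int.dvd_of_emod_eq_zero hz2
        · exact hz2
      obtain ⟨a, b, h1, h2, h3, h4, h5, h6⟩ :=
        hxz.symm.coprime_classification' (by rw [Int.gcd_comm]; exact hgy) hz2 hx2
      have ha0 : a ≠ 0 := by
        rintro rfl
        apply hy
        have : y ^ 2 = 0 := by rw [h2]; ring
        exact pow_eq_zero_iff (two_ne_zero) |>.1 this
      have hb0 : b ≠ 0 := by
        rintro rfl
        apply hy
        have : y ^ 2 = 0 := by rw [h2]; ring
        exact pow_eq_zero_iff (two_ne_zero) |>.1 this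
      obtain ⟨y', hy'⟩ := Int.dvd_of_emod_eq_zero hy2
      rcases h5 with ⟨ha2, hb2⟩ | ⟨ha2, hb2⟩
      · obtain ⟨a', ha'⟩ := Int.dvd_of_emod_eq_zero ha2
        have h7 : a' * b = y' ^ 2 := by
          have : 4 * (a' * b) = 4 * y' ^ 2 := by
            rw [ha', hy'] at h2
            linear_combination -h2
          linarith
        have h8 : Int.gcd a' b = 1 := by
          apply gcd_eq_one_of_no_prime
          intro p hp h9 h10
          exact no_prime_of_gcd_eq_one h4 hp (ha' ▸ Dvd.dvd.mul_left h9 2) h10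
        obtain ⟨c, hc⟩ := Int.sq_of_gcd_eq_one h8 h7
        obtain ⟨d, hd⟩ := Int.sq_of_gcd_eq_one (by rw [Int.gcd_comm]; exact h8)
          (show b * a' = y' ^ 2 by linarith)
        have hac : a' ^ 2 = c ^ 4 := by rcases hc with h | h <;> rw [h] <;> ring
        have hbd : b ^ 2 = d ^ 4 := by rcases hd with h | h <;> rw [h] <;> ring
        have hca : c ∣ a' := by
          rcases hc with h | h <;> rw [h, pow_two]
          · exact dvd_mul_right c c
          · exact (dvd_mul_right c c).neg_right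
        have hdb : d ∣ b := by
          rcases hd with h | h <;> rw [h, pow_two]
          · exact dvd_mul_right d d
          · exact (dvd_mul_right d d).neg_right
        have hc0 : c ≠ 0 := by
          rintro rfl
          have := zero_dvd_iff.1 hca
          exact ha0 (by rw [ha', this]; ring)
        have hd2 : d % 2 = 1 := by
          rcases Int.emod_two_eq_zero_or_one d with hd2 | hd2
          · exfalso
            have := (Int.dvd_of_emod_eq_zero hd2).trans hdb
            omega
          · exact hd2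
        obtain ⟨g, k, hg0, hk0, hlt, heq⟩ := step_aux (x := x) hc0 hd2
          (by
            apply gcd_eq_one_of_no_prime
            intro p hp h9 h10
            exact no_prime_of_gcd_eq_one h8 hp (h9.trans hca) (h10.trans hdb))
          (by rw [h3, ← hbd, ha']; linear_combination 4 * hac)
        have hd0 : d ≠ 0 := by rintro rfl; simp at hd2
        exact ih g.natAbs (hxn ▸ hlt) g k d rfl hg0 hk0 hd0 heq
      · obtain ⟨b', hb'⟩ := Int.dvd_of_emod_eq_zero hb2
        have h7 : b' * a = y' ^ 2 := by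
          have : 4 * (b' * a) = 4 * y' ^ 2 := by
            rw [hb', hy'] at h2
            linear_combination -h2
          linarith
        have h8 : Int.gcd b' a = 1 := by
          apply gcd_eq_one_of_no_prime
          intro p hp h9 h10
          exact no_prime_of_gcd_eq_one h4 hp h10 (hb' ▸ Dvd.dvd.mul_left h9 2)
        obtain ⟨c, hc⟩ := Int.sq_of_gcd_eq_one h8 h7
        obtain ⟨d, hd⟩ := Int.sq_of_gcd_eq_one (by rw [Int.gcd_comm]; exact h8)
          (show a * b' = y' ^ 2 by linarith)
        have hac : b' ^ 2 = c ^ 4 := by rcases hc with h | h <;> rw [h] <;> ring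
        have hbd : a ^ 2 = d ^ 4 := by rcases hd with h | h <;> rw [h] <;> ring
        have hca : c ∣ b' := by
          rcases hc with h | h <;> rw [h, pow_two]
          · exact dvd_mul_right c c
          · exact (dvd_mul_right c c).neg_right
        have hdb : d ∣ a := by
          rcases hd with h | h <;> rw [h, pow_two]
          · exact dvd_mul_right d d
          · exact (dvd_mul_right d d).neg_right
        have hc0 : c ≠ 0 := by
          rintro rfl
          have := zero_dvd_iff.1 hca
          exact hb0 (by rw [hb', this]; ring)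
        have hd2 : d % 2 = 1 := by
          rcases Int.emod_two_eq_zero_or_one d with hd2 | hd2
          · exfalso
            have := (Int.dvd_of_emod_eq_zero hd2).trans hdb
            omega
          · exact hd2
        obtain ⟨g, k, hg0, hk0, hlt, heq⟩ := step_aux (x := x) hc0 hd2
          (by
            apply gcd_eq_one_of_no_prime
            intro p hp h9 h10
            exact no_prime_of_gcd_eq_one h8 hp (h9.trans hca) (h10.trans hdb))
          (by rw [h3, ← hbd, hb']; linear_combination 4 * hac)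
        have hd0 : d ≠ 0 := by rintro rfl; simp at hd2
        exact ih g.natAbs (hxn ▸ hlt) g k d rfl hg0 hk0 hd0 heq
    · -- `y` odd
      have hpar : (y ^ 2) % 2 = 1 := by
        rw [pow_two, Int.mul_emod, hy2]; norm_num
      obtain ⟨a, b, h1, h2, h3, h4, h5, h6⟩ := hxz.coprime_classification' hgy hpar hx2
      have ha0 : a ≠ 0 := by
        rintro rfl
        apply hz
        rw [h2]; ring
      have hb0 : b ≠ 0 := by
        rintro rfl
        apply hz
        rw [h2]; ring
      refine ih a.natAbs ?_ a b (x * y) rfl ha0 hb0 (mul_ne_zero hx hy) ?_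
      · rw [← hxn]
        have hlt : a ^ 2 < x ^ 2 := by
          rw [h3]
          have : 0 < b ^ 2 := by positivity
          linarith
        exact Int.natAbs_lt_iff_sq_lt.2 hlt
      · rw [mul_pow, h1, h3]; ring

/-- Fermat: `x⁴ - y⁴ = z²` has no solution in non-zero integers. -/
theorem fourth_sub_fourth_ne_sq {x y z : ℤ} (hx : x ≠ 0) (hy : y ≠ 0) (hz : z ≠ 0) :
    x ^ 4 - y ^ 4 ≠ z ^ 2 :=
  fun h => descent x.natAbs x y z rfl hx hy hz h

end Pool.Agent.FPS
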