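import Mathlib
import Pool.Agent.FPS4.Quartic

/-!
# No rational point of exact period `4` for `y ↦ y ^ 2 + c` (Morton)

A self-contained proof by descent.  If `x₁, x₂, x₃, x₄` is a `4`-cycle and `t = x₁ + x₃`,
then `(t ^ 4 - 1) * (t ^ 2 + 2 * t - 1)` is a rational square, which is impossible for
`t ≠ 0, 1, -1` by Fermat's theorems on `x ^ 4 - y ^ 4 = z ^ 2` and `x ^ 4 + y ^ 4 = z ^ 2`.
-/

namespace Pool.Agent.FPS

/-- both odd case, written with `m = p + q`, `n = p - q`. -/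
theorem desc_odd {p q Z : ℤ} (hco : Int.gcd p q = 1) (hp : p ≠ 0) (hq : q ≠ 0)
    (hpar : (p + q) % 2 = 1) :
    p * q * (p ^ 2 + q ^ 2) * (p ^ 2 + 2 * p * q - q ^ 2) ≠ Z ^ 2 := by
  intro h
  -- coprimality statements
  have key : ∀ l : ℕ, l.Prime → (l : ℤ) ∣ p → (l : ℤ) ∣ q → False :=
    fun l hl h1 h2 => no_prime_of_gcd_eq_one hco hl h1 h2
  have c1 : Int.gcd p (q * (p ^ 2 + q ^ 2) * (p ^ 2 + 2 * p * q - q ^ 2)) = 1 := by
    apply gcd_eq_one_of_no_prime
    intro l hl h1 h2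
    have hpp : Prime (l : ℤ) := Nat.prime_iff_prime_int.1 hl
    rcases hpp.dvd_or_dvd h2 with h3 | h3
    · rcases hpp.dvd_or_dvd h3 with h4 | h4
      · exact key l hl h1 h4
      · have h5 : (l : ℤ) ∣ q ^ 2 := by
          have := dvd_sub h4 (dvd_pow h1 (two_ne_zero))
          simpa using this
        exact key l hl h1 (hpp.dvd_of_dvd_pow h5)
    · have h5 : (l : ℤ) ∣ q ^ 2 := by
        have h6 : q ^ 2 = p * (p + 2 * q) - (p ^ 2 + 2 * p * q - q ^ 2) := by ring
        rw [h6]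
        exact dvd_sub (Dvd.dvd.mul_right h1 _) h3
      exact key l hl h1 (hpp.dvd_of_dvd_pow h5)
  have c2 : Int.gcd q (p * (p ^ 2 + q ^ 2) * (p ^ 2 + 2 * p * q - q ^ 2)) = 1 := by
    apply gcd_eq_one_of_no_prime
    intro l hl h1 h2
    have hpp : Prime (l : ℤ) := Nat.prime_iff_prime_int.1 hl
    rcases hpp.dvd_or_dvd h2 with h3 | h3
    · rcases hpp.dvd_or_dvd h3 with h4 | h4
      · exact key l hl h4 h1
      · have h5 : (l : ℤ) ∣ p ^ 2 := by
          have := dvd_sub h4 (dvd_pow h1 (two_ne_zero))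
          simpa using this
        exact key l hl (hpp.dvd_of_dvd_pow h5) h1
    · have h5 : (l : ℤ) ∣ p ^ 2 := by
        have h6 : p ^ 2 = (p ^ 2 + 2 * p * q - q ^ 2) - q * (2 * p - q) := by ring
        rw [h6]
        exact dvd_sub h3 (Dvd.dvd.mul_right h1 _)
      exact key l hl (hpp.dvd_of_dvd_pow h5) h1
  have c3 : Int.gcd (p ^ 2 + q ^ 2) (p * q * (p ^ 2 + 2 * p * q - q ^ 2)) = 1 := by
    apply gcd_eq_one_of_no_prime
    intro l hl h1 h2
    have hpp : Prime (l : ℤ) := Nat.prime_iff_prime_int.1 hl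
    rcases hpp.dvd_or_dvd h2 with h3 | h3
    · rcases hpp.dvd_or_dvd h3 with h4 | h4
      · have h5 : (l : ℤ) ∣ q ^ 2 := by
          have := dvd_sub h1 (dvd_pow h4 (two_ne_zero))
          simpa using this
        exact key l hl h4 (hpp.dvd_of_dvd_pow h5)
      · have h5 : (l : ℤ) ∣ p ^ 2 := by
          have := dvd_sub h1 (dvd_pow h4 (two_ne_zero))
          simpa using this
        exact key l hl (hpp.dvd_of_dvd_pow h5) h4
    · -- `l ∣ 2 p (p + q)`
      have h5 : (l : ℤ) ∣ 2 * (p * (p + q)) := by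
        have h6 : 2 * (p * (p + q)) = (p ^ 2 + q ^ 2) + (p ^ 2 + 2 * p * q - q ^ 2) := by ring
        rw [h6]; exact dvd_add h1 h3
      rcases hpp.dvd_or_dvd h5 with h7 | h7
      · have hl2 : l = 2 := by
          have : l ∣ 2 := by exact_mod_cast h7
          exact (Nat.prime_dvd_prime_iff_eq hl Nat.prime_two).1 this
        subst hl2
        have h8 : (p ^ 2 + q ^ 2) % 2 = 1 := by
          have : p ^ 2 + q ^ 2 = (p + q) * (p + q) - 2 * (p * q) := by ring
          rw [this, Int.sub_emod, Int.mul_emod, hpar, Int.mul_emod_right]; norm_num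
        have h9 := Int.emod_eq_zero_of_dvd h1
        push_cast at h9
        omega
      · rcases hpp.dvd_or_dvd h7 with h8 | h8
        · have h5 : (l : ℤ) ∣ q ^ 2 := by
            have := dvd_sub h1 (dvd_pow h8 (two_ne_zero))
            simpa using this
          exact key l hl h8 (hpp.dvd_of_dvd_pow h5)
        · -- `q ≡ -p`
          have h9 : (l : ℤ) ∣ 2 * p ^ 2 := by
            have h6 : 2 * p ^ 2 = (p ^ 2 + q ^ 2) + (p + q) * (p - q) := by ring
            rw [h6]; exact dvd_add h1 (Dvd.dvd.mul_right h8 _)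
          rcases hpp.dvd_or_dvd h9 with h10 | h10
          · have hl2 : l = 2 := by
              have : l ∣ 2 := by exact_mod_cast h10
              exact (Nat.prime_dvd_prime_iff_eq hl Nat.prime_two).1 this
            subst hl2
            have h9 := Int.emod_eq_zero_of_dvd h8
            push_cast at h9
            omega
          · have h11 := hpp.dvd_of_dvd_pow h10
            have h12 : (l : ℤ) ∣ q := by
              have := dvd_sub h8 h11
              simpa using this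
            exact key l hl h11 h12
  obtain ⟨r, hr⟩ := Int.sq_of_gcd_eq_one c1 (show p * (q * (p ^ 2 + q ^ 2) *
    (p ^ 2 + 2 * p * q - q ^ 2)) = Z ^ 2 by rw [← h]; ring)
  obtain ⟨s, hs⟩ := Int.sq_of_gcd_eq_one c2 (show q * (p * (p ^ 2 + q ^ 2) *
    (p ^ 2 + 2 * p * q - q ^ 2)) = Z ^ 2 by rw [← h]; ring)
  obtain ⟨b, hb⟩ := Int.sq_of_gcd_eq_one c3 (show (p ^ 2 + q ^ 2) * (p * q *
    (p ^ 2 + 2 * p * q - q ^ 2)) = Z ^ 2 by rw [← h]; ring)
  have hr4 : p ^ 2 = r ^ 4 := by rcases hr with h | h <;> rw [h] <;> ring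
  have hs4 : q ^ 2 = s ^ 4 := by rcases hs with h | h <;> rw [h] <;> ring
  have hr0 : r ≠ 0 := by
    rintro rfl
    apply hp
    have : p ^ 2 = 0 := by rw [hr4]; norm_num
    exact pow_eq_zero_iff (two_ne_zero) |>.1 this
  have hs0 : s ≠ 0 := by
    rintro rfl
    apply hq
    have : q ^ 2 = 0 := by rw [hs4]; norm_num
    exact pow_eq_zero_iff (two_ne_zero) |>.1 this
  have hb' : p ^ 2 + q ^ 2 = b ^ 2 := by
    rcases hb with h | h
    · exact h
    · exfalso
      have h1 : 0 < p ^ 2 := by positivity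
      have h2 : 0 < q ^ 2 := by positivity
      have h3 : 0 ≤ b ^ 2 := by positivity
      linarith
  exact not_fermat_42 (c := b) hr0 hs0 (by rw [← hr4, ← hs4, hb'])

/-- opposite parity case -/
theorem desc_opp {m n Z : ℤ} (hco : Int.gcd m n = 1) (hm : m ≠ 0) (hn : n ≠ 0)
    (hpar : (m + n) % 2 = 1) :
    (m ^ 4 - n ^ 4) * (m ^ 2 + 2 * m * n - n ^ 2) ≠ Z ^ 2 := by
  intro h
  have key : ∀ l : ℕ, l.Prime → (l : ℤ) ∣ m → (l : ℤ) ∣ n → False :=
    fun l hl h1 h2 => no_prime_of_gcd_eq_one hco hl h1 h2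
  have c1 : Int.gcd (m ^ 4 - n ^ 4) (m ^ 2 + 2 * m * n - n ^ 2) = 1 := by
    apply gcd_eq_one_of_no_prime
    intro l hl h1 h2
    have hpp : Prime (l : ℤ) := Nat.prime_iff_prime_int.1 hl
    have hl2 : l ≠ 2 := by
      rintro rfl
      have h9 := Int.emod_eq_zero_of_dvd h2
      have h8 : (m ^ 2 + 2 * m * n - n ^ 2) % 2 = 1 := by
        have : m ^ 2 + 2 * m * n - n ^ 2 = (m + n) * (m + n) - 2 * n ^ 2 := by ring
        rw [this, Int.sub_emod, Int.mul_emod, hpar, Int.mul_emod_right]; norm_num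
      push_cast at h9
      omega
    have hl2' : ¬ (l : ℤ) ∣ 2 := by
      intro h3
      have : l ∣ 2 := by exact_mod_cast h3
      exact hl2 ((Nat.prime_dvd_prime_iff_eq hl Nat.prime_two).1 this)
    -- not both: `l ∤ m`, `l ∤ n`
    have hlm : ¬ (l : ℤ) ∣ m := by
      intro h3
      have h5 : (l : ℤ) ∣ n ^ 2 := by
        have h6 : n ^ 2 = m * (m + 2 * n) - (m ^ 2 + 2 * m * n - n ^ 2) := by ring
        rw [h6]
        exact dvd_sub (Dvd.dvd.mul_right h3 _) h2
      exact key l hl h3 (hpp.dvd_of_dvd_pow h5)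
    have hln : ¬ (l : ℤ) ∣ n := by
      intro h3
      have h5 : (l : ℤ) ∣ m ^ 2 := by
        have h6 : m ^ 2 = (m ^ 2 + 2 * m * n - n ^ 2) - n * (2 * m - n) := by ring
        rw [h6]
        exact dvd_sub h2 (Dvd.dvd.mul_right h3 _)
      exact key l hl (hpp.dvd_of_dvd_pow h5) h3
    have h1' : (l : ℤ) ∣ (m ^ 2 - n ^ 2) * (m ^ 2 + n ^ 2) := by
      have : (m ^ 2 - n ^ 2) * (m ^ 2 + n ^ 2) = m ^ 4 - n ^ 4 := by ring
      rw [this]; exact h1
    rcases hpp.dvd_or_dvd h1' with h3 | h3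
    · have h4 : (l : ℤ) ∣ 2 * (m * n) := by
        have : 2 * (m * n) = (m ^ 2 + 2 * m * n - n ^ 2) - (m ^ 2 - n ^ 2) := by ring
        rw [this]; exact dvd_sub h2 h3
      rcases hpp.dvd_or_dvd h4 with h5 | h5
      · exact hl2' h5
      · rcases hpp.dvd_or_dvd h5 with h6 | h6
        · exact hlm h6
        · exact hln h6
    · have h4 : (l : ℤ) ∣ 2 * (m * (m + n)) := by
        have : 2 * (m * (m + n)) = (m ^ 2 + 2 * m * n - n ^ 2) + (m ^ 2 + n ^ 2) := by ring
        rw [this]; exact dvd_add h2 h3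
      rcases hpp.dvd_or_dvd h4 with h5 | h5
      · exact hl2' h5
      · rcases hpp.dvd_or_dvd h5 with h6 | h6
        · exact hlm h6
        · have h7 : (l : ℤ) ∣ 2 * m ^ 2 := by
            have : 2 * m ^ 2 = (m ^ 2 + n ^ 2) + (m + n) * (m - n) := by ring
            rw [this]; exact dvd_add h3 (Dvd.dvd.mul_right h6 _)
          rcases hpp.dvd_or_dvd h7 with h8 | h8
          · exact hl2' h8
          · exact hlm (hpp.dvd_of_dvd_pow h8)
  have hne : m ^ 4 - n ^ 4 ≠ 0 := by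
    intro h0
    have h1 : (m ^ 2 - n ^ 2) * (m ^ 2 + n ^ 2) = 0 := by
      have : (m ^ 2 - n ^ 2) * (m ^ 2 + n ^ 2) = m ^ 4 - n ^ 4 := by ring
      rw [this, h0]
    have h2 : 0 < m ^ 2 := by positivity
    have h3 : 0 < n ^ 2 := by positivity
    rcases mul_eq_zero.1 h1 with h4 | h4
    · have h5 : (m ^ 2 - n ^ 2) % 2 = 1 := by
        have : m ^ 2 - n ^ 2 = (m + n) * (m + n) - 2 * (n * (m + n)) := by ring
        rw [this, Int.sub_emod, Int.mul_emod, hpar, Int.mul_emod_right]; norm_num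
      rw [h4] at h5
      norm_num at h5
    · linarith
  obtain ⟨a, ha⟩ := Int.sq_of_gcd_eq_one c1 h
  rcases ha with ha | ha
  · have ha0 : a ≠ 0 := by
      rintro rfl
      exact hne (by rw [ha]; ring)
    exact fourth_sub_fourth_ne_sq hm hn ha0 ha
  · have ha0 : a ≠ 0 := by
      rintro rfl
      exact hne (by rw [ha]; ring)
    exact fourth_sub_fourth_ne_sq hn hm ha0 (by linarith)

/-- The integral descent statement. -/
theorem desc {m n Z : ℤ} (hco : Int.gcd m n = 1) (hm : m ≠ 0) (hn : n ≠ 0)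
    (h1 : m ≠ n) (h2 : m ≠ -n) :
    (m ^ 4 - n ^ 4) * (m ^ 2 + 2 * m * n - n ^ 2) ≠ Z ^ 2 := by
  intro h
  rcases Int.emod_two_eq_zero_or_one (m + n) with hpar | hpar
  · -- same parity, hence both odd
    have hpar' : (m - n) % 2 = 0 := by omega
    obtain ⟨p, hp⟩ := Int.dvd_of_emod_eq_zero hpar
    obtain ⟨q, hq⟩ := Int.dvd_of_emod_eq_zero hpar'
    have hm' : m = p + q := by linarith
    have hn' : n = p - q := by linarith
    subst hm' hn'
    have hp0 : p ≠ 0 := by
      rintro rfl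
      exact h2 (by ring)
    have hq0 : q ≠ 0 := by
      rintro rfl
      exact h1 (by ring)
    have hco' : Int.gcd p q = 1 := by
      apply gcd_eq_one_of_no_prime
      intro l hl h3 h4
      exact no_prime_of_gcd_eq_one hco hl (dvd_add h3 h4) (dvd_sub h3 h4)
    have hpar2 : (p + q) % 2 = 1 := by
      rcases Int.emod_two_eq_zero_or_one (p + q) with h3 | h3
      · exfalso
        refine no_prime_of_gcd_eq_one hco Nat.prime_two ?_ ?_
        · exact Int.dvd_of_emod_eq_zero h3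
        · apply Int.dvd_of_emod_eq_zero
          push_cast
          omega
      · exact h3
    have h5 : 16 * (p * q * (p ^ 2 + q ^ 2) * (p ^ 2 + 2 * p * q - q ^ 2)) = Z ^ 2 := by
      rw [← h]; ring
    have h6 : (4 : ℤ) ^ 2 ∣ Z ^ 2 :=
      ⟨p * q * (p ^ 2 + q ^ 2) * (p ^ 2 + 2 * p * q - q ^ 2), by rw [← h5]; norm_num⟩
    obtain ⟨W, rfl⟩ := (Int.pow_dvd_pow_iff two_ne_zero).1 h6
    refine desc_odd (Z := W) hco' hp0 hq0 hpar2 ?_
    have h7 : 16 * (p * q * (p ^ 2 + q ^ 2) * (p ^ 2 + 2 * p * q - q ^ 2)) = 16 * W ^ 2 := by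
      rw [h5]; ring
    linarith
  · exact desc_opp hco hm hn hpar h

/-- The rational version. -/
theorem desc_rat {t y : ℚ} (h0 : t ≠ 0) (h1 : t ≠ 1) (h2 : t ≠ -1) :
    y ^ 2 ≠ (t ^ 4 - 1) * (t ^ 2 + 2 * t - 1) := by
  intro h
  set m : ℤ := t.num with hm
  set n : ℤ := (t.den : ℤ) with hn
  have hn0 : n ≠ 0 := by rw [hn]; exact_mod_cast t.den_ne_zero
  have hm0 : m ≠ 0 := by rw [hm]; exact Rat.num_ne_zero.2 h0
  have ht : t = (m : ℚ) / (n : ℚ) := by
    rw [hm, hn]; push_cast; exact (Rat.num_div_den t).symm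
  have hnq : (n : ℚ) ≠ 0 := by exact_mod_cast hn0
  have hco : Int.gcd m n = 1 := by
    have := t.reduced
    rw [hm, hn]
    simpa [Int.gcd, Nat.Coprime] using this
  have h3 : (((m ^ 4 - n ^ 4) * (m ^ 2 + 2 * m * n - n ^ 2) : ℤ) : ℚ) = (y * n ^ 3) ^ 2 := by
    rw [mul_pow, h, ht]
    push_cast
    field_simp
  have h4 : IsSquare (((m ^ 4 - n ^ 4) * (m ^ 2 + 2 * m * n - n ^ 2) : ℤ) : ℚ) :=
    ⟨y * n ^ 3, by rw [h3]; ring⟩
  rw [Rat.isSquare_intCast_iff] at h4
  obtain ⟨Z, hZ⟩ := h4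
  refine desc (Z := Z) hco hm0 hn0 ?_ ?_ (by rw [hZ]; ring)
  · intro h5
    apply h1
    rw [ht, h5]
    exact div_self hnq
  · intro h5
    apply h2
    rw [ht, h5]
    push_cast
    rw [neg_div, div_self hnq]

/-- A rational `4`-cycle of `y ↦ y ^ 2 + c` is degenerate. -/
theorem four_cycle {c a b d e : ℚ} (hab : a ^ 2 + c = b) (hbd : b ^ 2 + c = d)
    (hde : d ^ 2 + c = e) (hea : e ^ 2 + c = a) : a = d := by
  by_contra had
  have hbe : b ≠ e := by
    intro h
    apply had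
    rw [← hea, ← h, hbd]
  -- `(a + d) * (b + e) = -1`
  have h1 : (a - d) * (a + d) = b - e := by linear_combination hab - hde
  have h2 : (b - e) * (b + e) = d - a := by linear_combination hbd - hea
  have h3 : (a + d) * (b + e) = -1 := by
    have h4 : (a - d) * ((a + d) * (b + e) + 1) = 0 := by
      linear_combination (b + e) * h1 + h2
    rcases mul_eq_zero.1 h4 with h5 | h5
    · exact absurd (sub_eq_zero.1 h5) had
    · linarith
  set t : ℚ := a + d with ht
  set s : ℚ := a - d with hs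
  have ht0 : t ≠ 0 := by
    intro h
    rw [h] at h3
    norm_num at h3
  have hs0 : s ≠ 0 := sub_ne_zero.2 had
  set u : ℚ := b + e with hu
  have hst : s * t = b - e := h1
  have k1 : a ^ 2 + d ^ 2 = (t ^ 2 + s ^ 2) / 2 := by rw [ht, hs]; ring
  have k2 : b ^ 2 + e ^ 2 = (u ^ 2 + (s * t) ^ 2) / 2 := by rw [hst, hu]; ring
  have k3 : (t ^ 2 + s ^ 2) / 2 + 2 * c = u := by
    rw [← k1, hu]; linear_combination hab + hde
  have k4 : (u ^ 2 + (s * t) ^ 2) / 2 + 2 * c = t := by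
    rw [← k2, ht]; linear_combination hbd + hea
  -- the key relation
  have key : (s * t) ^ 2 * (t ^ 2 - 1) = (t ^ 2 + 1) * (t ^ 2 + 2 * t - 1) := by
    linear_combination 2 * t ^ 2 * k4 - 2 * t ^ 2 * k3 + (1 - t * u - 2 * t) * h3
  have ht1 : t ≠ 1 := by
    intro h
    rw [h] at key
    norm_num at key
  have ht2 : t ≠ -1 := by
    intro h
    rw [h] at key
    norm_num at key
  refine desc_rat (y := s * t * (t ^ 2 - 1)) ht0 ht1 ht2 ?_
  linear_combination (t ^ 2 - 1) * key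

/-- **Morton's theorem**: for rational `c` the map `y ↦ y ^ 2 + c` has no rational point of
exact period `4`. -/
theorem no_four (c x : ℚ) : Function.minimalPeriod (fun y => y ^ 2 + c) x ≠ 4 := by
  intro h
  have hper : Function.IsPeriodicPt (fun y => y ^ 2 + c) 4 x := by
    rw [← h]; exact Function.isPeriodicPt_minimalPeriod _ _
  have h1 : x = ((x ^ 2 + c) ^ 2 + c) := by
    refine four_cycle (c := c) (b := x ^ 2 + c) (e := ((x ^ 2 + c) ^ 2 + c) ^ 2 + c)
      rfl rfl rfl ?_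
    simpa [Function.IsPeriodicPt, Function.IsFixedPt, Function.iterate_succ] using hper
  have h2 : Function.IsPeriodicPt (fun y => y ^ 2 + c) 2 x := by
    simpa [Function.IsPeriodicPt, Function.IsFixedPt, Function.iterate_succ] using h1.symm
  have h3 := h2.minimalPeriod_dvd
  rw [h] at h3
  norm_num at h3

end Pool.Agent.FPS
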