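import Mathlib

/-!
# Local period theory for `y ↦ y ^ 2 + c` at primes of good reduction

Purely algebraic part: congruences along an orbit.
-/

namespace Pool.Agent.FPS

open Finset

/-- The quadratic map `y ↦ y ^ 2 + c`. -/
def F {R : Type*} [CommRing R] (c : R) (y : R) : R := y ^ 2 + c

section Ring

variable {R : Type*} [CommRing R]

theorem F_sub (c a b : R) : F c a - F c b = (a - b) * (a + b) := by
  unfold F; ring

theorem iter_sub (c a b : R) (n : ℕ) :
    (F c)^[n] a - (F c)^[n] b = (a - b) * ∏ t ∈ range n, ((F c)^[t] a + (F c)^[t] b) := by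
  induction n with
  | zero => simp
  | succ n ih =>
    rw [Function.iterate_succ_apply', Function.iterate_succ_apply', F_sub, ih, prod_range_succ]
    ring

theorem iter_map {S : Type*} [CommRing S] (φ : R →+* S) (c x : R) (n : ℕ) :
    φ ((F c)^[n] x) = (F (φ c))^[n] (φ x) := by
  induction n with
  | zero => rfl
  | succ n ih =>
    rw [Function.iterate_succ_apply', Function.iterate_succ_apply', ← ih]
    simp [F]

/-- The multiplier `∏_{t<n} 2 xₜ` along the first `n` points of the orbit. -/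
def mult (c x : R) (n : ℕ) : R := ∏ t ∈ range n, (2 * (F c)^[t] x)

theorem mult_succ (c x : R) (n : ℕ) : mult c x (n + 1) = mult c x n * (2 * (F c)^[n] x) := by
  unfold mult; rw [prod_range_succ]

@[simp] theorem mult_zero (c x : R) : mult c x 0 = 1 := by simp [mult]

theorem mult_map {S : Type*} [CommRing S] (φ : R →+* S) (c x : R) (n : ℕ) :
    φ (mult c x n) = mult (φ c) (φ x) n := by
  unfold mult
  rw [map_prod]
  apply prod_congr rfl
  intro t _
  rw [map_mul, iter_map, map_ofNat]

theorem mult_add (c x : R) (m n : ℕ) :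
    mult c x (m + n) = mult c x m * mult c ((F c)^[m] x) n := by
  induction n with
  | zero => simp
  | succ n ih =>
    rw [← add_assoc, mult_succ, mult_succ, ih, ← Function.iterate_add_apply, add_comm n m]
    ring

theorem mult_mul {c x : R} {m : ℕ} (h : (F c)^[m] x = x) (k : ℕ) :
    mult c x (m * k) = mult c x m ^ k := by
  induction k with
  | zero => simp
  | succ k ih =>
    have h1 : (F c)^[m * k] x = x := by
      rw [Function.iterate_mul]
      exact Function.iterate_fixed h k
    rw [Nat.mul_succ, mult_add, ih, h1, pow_succ]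

/-- the block products -/
def blk (c x : R) (M j : ℕ) : R :=
  ∏ t ∈ range M, ((F c)^[t] ((F c)^[(j + 1) * M] x) + (F c)^[t] ((F c)^[j * M] x))

theorem blk_spec (c x : R) (M j : ℕ) :
    (F c)^[(j + 2) * M] x - (F c)^[(j + 1) * M] x =
      ((F c)^[(j + 1) * M] x - (F c)^[j * M] x) * blk c x M j := by
  have h1 : (F c)^[(j + 2) * M] x = (F c)^[M] ((F c)^[(j + 1) * M] x) := by
    rw [← Function.iterate_add_apply]
    congr 2
    ring
  have h2 : (F c)^[(j + 1) * M] x = (F c)^[M] ((F c)^[j * M] x) := by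
    rw [← Function.iterate_add_apply]
    congr 2
    ring
  calc (F c)^[(j + 2) * M] x - (F c)^[(j + 1) * M] x
      = (F c)^[M] ((F c)^[(j + 1) * M] x) - (F c)^[M] ((F c)^[j * M] x) := by rw [h1, ← h2]
    _ = _ := iter_sub _ _ _ _

theorem diff_eq (c x : R) (M k : ℕ) :
    (F c)^[(k + 1) * M] x - (F c)^[k * M] x =
      ((F c)^[M] x - x) * ∏ j ∈ range k, blk c x M j := by
  induction k with
  | zero => simp
  | succ k ih =>
    rw [prod_range_succ, ← mul_assoc, ← ih, blk_spec]

theorem sum_diff (c x : R) (M K : ℕ) :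
    ((F c)^[M] x - x) * ∑ k ∈ range K, ∏ j ∈ range k, blk c x M j =
      (F c)^[K * M] x - x := by
  rw [mul_sum]
  simp_rw [← diff_eq]
  rw [sum_range_sub (fun k => (F c)^[k * M] x)]
  simp

/-- If `x` has period `K M` but not `M`, the telescoping sum of the block products vanishes. -/
theorem sum_blk_eq_zero [IsDomain R] {c x : R} {M K : ℕ} (h : (F c)^[K * M] x = x)
    (hne : (F c)^[M] x ≠ x) : ∑ k ∈ range K, ∏ j ∈ range k, blk c x M j = 0 := by
  have h1 := sum_diff c x M K
  rw [h, sub_self] at h1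
  exact (mul_eq_zero.1 h1).resolve_left (sub_ne_zero.2 hne)

/-- **First order condition.** -/
theorem first_order [IsDomain R] {S : Type*} [CommRing S] (φ : R →+* S) {c x : R} {M K : ℕ}
    (h : (F c)^[K * M] x = x) (hne : (F c)^[M] x ≠ x)
    (hφ : (F (φ c))^[M] (φ x) = φ x) :
    ∑ k ∈ range K, (mult (φ c) (φ x) M) ^ k = 0 := by
  have h1 := congrArg φ (sum_blk_eq_zero h hne)
  rw [map_zero, map_sum] at h1
  rw [← h1]
  apply sum_congr rfl
  intro k _
  rw [map_prod, ← card_range k, ← prod_const]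
  simp only [card_range]
  apply prod_congr rfl
  intro j _
  have h2 : ∀ i : ℕ, (F (φ c))^[i * M] (φ x) = φ x := by
    intro i
    rw [mul_comm, Function.iterate_mul]
    exact Function.iterate_fixed hφ i
  unfold blk mult
  rw [map_prod]
  apply prod_congr rfl
  intro t _
  rw [map_add, iter_map, iter_map, iter_map, iter_map, h2, h2]
  ring

/-! ### Second order congruences -/

theorem iter_congr {q : R} (c : R) {a b : R} (h : q ∣ a - b) (n : ℕ) :
    q ∣ (F c)^[n] a - (F c)^[n] b := by
  rw [iter_sub]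
  exact Dvd.dvd.mul_right h _

theorem iter_taylor (π c x h : R) (n : ℕ) :
    π ^ 2 ∣ (F c)^[n] (x + π * h) - ((F c)^[n] x + π * h * mult c x n) := by
  induction n with
  | zero => simp
  | succ n ih =>
    obtain ⟨z, hz⟩ := ih
    rw [Function.iterate_succ_apply', Function.iterate_succ_apply', mult_succ]
    have h1 : (F c)^[n] (x + π * h) = (F c)^[n] x + π * h * mult c x n + π ^ 2 * z := by
      linear_combination hz
    rw [h1]
    refine ⟨z * (2 * ((F c)^[n] x + π * h * mult c x n) + π ^ 2 * z) +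
      h ^ 2 * mult c x n ^ 2, ?_⟩
    unfold F
    ring

/-- `x_{jM} ≡ x + π j d` modulo `π²`. -/
theorem pts_congr {π c x d : R} {M : ℕ} (hd : (F c)^[M] x = x + π * d)
    (hμ : π ∣ mult c x M - 1) (j : ℕ) :
    π ^ 2 ∣ (F c)^[j * M] x - (x + π * (j * d)) := by
  induction j with
  | zero => simp
  | succ j ih =>
    have h1 : (F c)^[(j + 1) * M] x = (F c)^[M] ((F c)^[j * M] x) := by
      rw [← Function.iterate_add_apply]
      congr 2
      ring
    obtain ⟨u, hu⟩ := iter_congr c ih M
    obtain ⟨v, hv⟩ := iter_taylor π c x (j * d) M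
    obtain ⟨w, hw⟩ := hμ
    rw [h1]
    refine ⟨u + v + j * d * w, ?_⟩
    push_cast
    linear_combination hu + hv + hd + π * (j * d) * hw

/-- The recursively defined second order coefficient. -/
def coefB (c x d : R) : ℕ → R
  | 0 => 0
  | n + 1 => 2 * (F c)^[n] x * coefB c x d n + d * mult c x n ^ 2

theorem coefB_map {S : Type*} [CommRing S] (φ : R →+* S) (c x d : R) (n : ℕ) :
    φ (coefB c x d n) = coefB (φ c) (φ x) (φ d) n := by
  induction n with
  | zero => simp [coefB]
  | succ n ih =>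
    have h2 : φ 2 = 2 := map_ofNat φ 2
    simp [coefB, ih, iter_map, mult_map, h2]

theorem prod_congr_sq (π c x d s : R) (n : ℕ) :
    π ^ 2 ∣ ∏ t ∈ range n, (2 * (F c)^[t] x + π * (s * (d * mult c x t))) -
      (mult c x n + π * (s * coefB c x d n)) := by
  induction n with
  | zero => simp [coefB]
  | succ n ih =>
    obtain ⟨u, hu⟩ := ih
    rw [prod_range_succ, mult_succ]
    have h1 : ∏ t ∈ range n, (2 * (F c)^[t] x + π * (s * (d * mult c x t))) =
      (mult c x n + π * (s * coefB c x d n)) + π ^ 2 * u := by linear_combination hu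
    rw [h1]
    refine ⟨u * (2 * (F c)^[n] x + π * (s * (d * mult c x n))) +
      s * coefB c x d n * (s * (d * mult c x n)), ?_⟩
    simp only [coefB]
    ring

theorem prod_dvd_sub {q : R} {f g : ℕ → R} (n : ℕ) (h : ∀ t, q ∣ f t - g t) :
    q ∣ ∏ t ∈ range n, f t - ∏ t ∈ range n, g t := by
  induction n with
  | zero => simp
  | succ n ih =>
    obtain ⟨u, hu⟩ := ih
    obtain ⟨v, hv⟩ := h n
    rw [prod_range_succ, prod_range_succ]
    refine ⟨u * f n + (∏ t ∈ range n, g t) * v, ?_⟩
    linear_combination f n * hu + (∏ t ∈ range n, g t) * hv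

theorem blk_congr {π c x d a : R} {M : ℕ} (hd : (F c)^[M] x = x + π * d)
    (ha : mult c x M = 1 + π * a) (j : ℕ) :
    π ^ 2 ∣ blk c x M j - (1 + π * (a + (2 * j + 1) * coefB c x d M)) := by
  have hμ : π ∣ mult c x M - 1 := ⟨a, by rw [ha]; ring⟩
  have h1 : ∀ t, π ^ 2 ∣
      ((F c)^[t] ((F c)^[(j + 1) * M] x) + (F c)^[t] ((F c)^[j * M] x)) -
      (2 * (F c)^[t] x + π * ((2 * j + 1) * (d * mult c x t))) := by
    intro t
    obtain ⟨u1, hu1⟩ := iter_congr c (pts_congr hd hμ (j + 1)) t
    obtain ⟨u2, hu2⟩ := iter_congr c (pts_congr hd hμ j) t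
    obtain ⟨v1, hv1⟩ := iter_taylor π c x (((j + 1 : ℕ) : R) * d) t
    obtain ⟨v2, hv2⟩ := iter_taylor π c x (j * d) t
    refine ⟨u1 + u2 + v1 + v2, ?_⟩
    push_cast at hu1 hv1 ⊢
    linear_combination hu1 + hu2 + hv1 + hv2
  obtain ⟨u, hu⟩ := prod_dvd_sub M h1
  obtain ⟨v, hv⟩ := prod_congr_sq π c x d (2 * j + 1) M
  refine ⟨u + v, ?_⟩
  unfold blk
  linear_combination hu + hv + ha

theorem prod_blk_congr {π c x d a : R} {M : ℕ} (hd : (F c)^[M] x = x + π * d)
    (ha : mult c x M = 1 + π * a) (k : ℕ) :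
    π ^ 2 ∣ ∏ j ∈ range k, blk c x M j - (1 + π * (k * a + k ^ 2 * coefB c x d M)) := by
  induction k with
  | zero => simp
  | succ k ih =>
    obtain ⟨u, hu⟩ := ih
    obtain ⟨v, hv⟩ := blk_congr hd ha k
    rw [prod_range_succ]
    refine ⟨u * blk c x M k + (1 + π * (k * a + k ^ 2 * coefB c x d M)) * v +
      (k * a + k ^ 2 * coefB c x d M) * (a + (2 * k + 1) * coefB c x d M), ?_⟩
    push_cast
    linear_combination blk c x M k * hu +
      (1 + π * (k * a + k ^ 2 * coefB c x d M)) * hv

/-- **Second order condition.** -/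
theorem second_order [IsDomain R] {π c x d a : R} {M K : ℕ}
    (h : (F c)^[K * M] x = x) (hne : (F c)^[M] x ≠ x)
    (hd : (F c)^[M] x = x + π * d) (ha : mult c x M = 1 + π * a) :
    π ^ 2 ∣ (K : R) + π * (((∑ k ∈ range K, k : ℕ) : R) * a +
      ((∑ k ∈ range K, k ^ 2 : ℕ) : R) * coefB c x d M) := by
  have h1 := sum_blk_eq_zero h hne
  have h2 : π ^ 2 ∣ ∑ k ∈ range K, (∏ j ∈ range k, blk c x M j -
      (1 + π * (k * a + k ^ 2 * coefB c x d M))) :=
    dvd_sum fun k _ => prod_blk_congr hd ha k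
  rw [sum_sub_distrib, h1, zero_sub] at h2
  have h3 := (dvd_neg).1 h2
  convert h3 using 1
  rw [sum_add_distrib, ← mul_sum, sum_add_distrib, ← sum_mul, ← sum_mul]
  push_cast
  simp

end Ring

end Pool.Agent.FPS
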