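import Mathlib
import Pool.Agent.FPS4.Local

/-!
# Periods at primes of good reduction

If `p` does not divide the denominator of `c` then the exact period `N` of a rational periodic
point `x` of `y ↦ y ^ 2 + c` is `l` or `l * ord(μ)`, where `l` is the exact period of the
reduction modulo `p` and `μ` the multiplier (`p ≥ 5`); `N ≤ 2` if `p = 2`, `N ≤ 3` if `p = 3`.
-/

namespace Pool.Agent.FPS

open Function Finset

theorem minimalPeriod_map {R S : Type*} [CommRing R] [CommRing S] (φ : R →+* S)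
    (hφ : Function.Injective φ) (c x : R) :
    minimalPeriod (F (φ c)) (φ x) = minimalPeriod (F c) x := by
  rw [minimalPeriod_eq_minimalPeriod_iff]
  intro n
  unfold IsPeriodicPt IsFixedPt
  rw [← iter_map]
  exact hφ.eq_iff

theorem norm_iter_of_one_lt {p : ℕ} [Fact p.Prime] {c x : ℚ_[p]} (hc : ‖c‖ ≤ 1)
    (hx : 1 < ‖x‖) (n : ℕ) : ‖x‖ ≤ ‖(F c)^[n] x‖ ∧ (0 < n → ‖x‖ < ‖(F c)^[n] x‖) := by
  induction n with
  | zero => simp
  | succ n ih =>
    obtain ⟨h1, -⟩ := ih
    set y := (F c)^[n] x with hy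
    have hy1 : 1 < ‖y‖ := hx.trans_le h1
    have h2 : ‖y ^ 2‖ ≠ ‖c‖ := by
      rw [norm_pow]
      nlinarith
    have h3 : ‖(F c)^[n + 1] x‖ = ‖y‖ ^ 2 := by
      rw [iterate_succ_apply', ← hy]
      unfold F
      rw [Padic.add_eq_max_of_ne h2, norm_pow]
      apply max_eq_left
      nlinarith
    rw [h3]
    constructor
    · nlinarith
    · intro _
      nlinarith

/-- A periodic point of `y ↦ y ^ 2 + c`, `c` integral at `p`, lives in `ℤ_[p]`. -/
theorem lift {p : ℕ} [Fact p.Prime] {c x : ℚ} (hc : ¬ p ∣ c.den)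
    (hx : 0 < minimalPeriod (fun y : ℚ => y ^ 2 + c) x) :
    ∃ C X : ℤ_[p], minimalPeriod (F C) X = minimalPeriod (fun y : ℚ => y ^ 2 + c) x := by
  have hcn : ‖(c : ℚ_[p])‖ ≤ 1 := Padic.norm_rat_le_one hc
  have h1 : minimalPeriod (F (Rat.castHom ℚ_[p] c)) (Rat.castHom ℚ_[p] x) =
      minimalPeriod (F c) x :=
    minimalPeriod_map (Rat.castHom ℚ_[p]) (Rat.castHom ℚ_[p]).injective c x
  have hxn : ‖(x : ℚ_[p])‖ ≤ 1 := by
    by_contra hlt
    push Not at hlt
    have h2 := (norm_iter_of_one_lt hcn hlt (minimalPeriod (F (c : ℚ_[p])) (x : ℚ_[p]))).2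
    have h3 : 0 < minimalPeriod (F (c : ℚ_[p])) (x : ℚ_[p]) := by
      have h4 : minimalPeriod (F (c : ℚ_[p])) (x : ℚ_[p]) = minimalPeriod (F c) x := h1
      rw [h4]; exact hx
    have h5 := h2 h3
    have h6 := isPeriodicPt_minimalPeriod (F (c : ℚ_[p])) (x : ℚ_[p])
    rw [IsPeriodicPt, IsFixedPt] at h6
    rw [h6] at h5
    exact lt_irrefl _ h5
  refine ⟨⟨(c : ℚ_[p]), hcn⟩, ⟨(x : ℚ_[p]), hxn⟩, ?_⟩
  have h2 := minimalPeriod_map (PadicInt.Coe.ringHom (p := p)) Subtype.val_injective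
    ⟨(c : ℚ_[p]), hcn⟩ ⟨(x : ℚ_[p]), hxn⟩
  rw [← h2]
  exact h1

section PadicInt

variable {p : ℕ} [hp : Fact p.Prime]

theorem dvd_of_toZMod_eq_zero {z : ℤ_[p]} (h : PadicInt.toZMod z = 0) : (p : ℤ_[p]) ∣ z := by
  have h1 : z ∈ RingHom.ker (PadicInt.toZMod (p := p)) := h
  rw [PadicInt.ker_toZMod, PadicInt.maximalIdeal_eq_span_p, Ideal.mem_span_singleton] at h1
  exact h1

theorem toZMod_eq_zero_of_dvd {z : ℤ_[p]} (h : (p : ℤ_[p]) ∣ z) : PadicInt.toZMod z = 0 := by
  obtain ⟨w, rfl⟩ := h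
  simp

theorem not_sq_dvd_p {z : ℤ_[p]} : ¬ (p : ℤ_[p]) ^ 2 ∣ (p : ℤ_[p]) + (p : ℤ_[p]) * (p * z) := by
  rintro ⟨w, hw⟩
  have hp0 : (p : ℤ_[p]) ≠ 0 := by exact_mod_cast hp.out.ne_zero
  have h1 : (p : ℤ_[p]) * (1 - p * (w - z)) = 0 := by linear_combination hw
  have h2 : (p : ℤ_[p]) * (w - z) = 1 := by
    rcases mul_eq_zero.1 h1 with h3 | h3
    · exact absurd h3 hp0
    · linear_combination -h3
  exact PadicInt.p_nonunit (p := p) (IsUnit.of_mul_eq_one _ h2)

theorem sum_sq_range (n : ℕ) :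
    6 * ∑ k ∈ range (n + 1), k ^ 2 = n * (n + 1) * (2 * n + 1) := by
  induction n with
  | zero => simp
  | succ n ih => rw [sum_range_succ, mul_add, ih]; ring

theorem p_dvd_sums (h5 : 5 ≤ p) :
    p ∣ ∑ k ∈ range p, k ∧ p ∣ ∑ k ∈ range p, k ^ 2 := by
  have hpp := hp.out
  constructor
  · have h1 := sum_range_id_mul_two p
    have h2 : p ∣ (∑ k ∈ range p, k) * 2 := ⟨p - 1, h1⟩
    rcases (Nat.Prime.dvd_mul hpp).1 h2 with h3 | h3
    · exact h3
    · have := Nat.le_of_dvd (by norm_num) h3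
      omega
  · obtain ⟨m, rfl⟩ : ∃ m, p = m + 1 := ⟨p - 1, by omega⟩
    have h1 := sum_sq_range m
    have h2 : (m + 1) ∣ 6 * ∑ k ∈ range (m + 1), k ^ 2 := ⟨m * (2 * m + 1), by rw [h1]; ring⟩
    rcases (Nat.Prime.dvd_mul hpp).1 h2 with h3 | h3
    · have h4 : (m + 1) ∣ 2 * 3 := by simpa using h3
      rcases (Nat.Prime.dvd_mul hpp).1 h4 with h5 | h5
      · have := Nat.le_of_dvd (by norm_num) h5
        omega
      · have := Nat.le_of_dvd (by norm_num) h5
        omega
    · exact h3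

/-- The exact period of the reduction divides the exact period. -/
theorem red_dvd (C X : ℤ_[p]) :
    minimalPeriod (F (PadicInt.toZMod C)) (PadicInt.toZMod X) ∣ minimalPeriod (F C) X := by
  apply IsPeriodicPt.minimalPeriod_dvd
  have h := isPeriodicPt_minimalPeriod (F C) X
  rw [IsPeriodicPt, IsFixedPt] at h ⊢
  rw [← iter_map, h]

/-- Consequences of the first order condition: either `N = l`, or `μ ≠ 0` and
`N = l * ord(μ) * K` with `K = 1` or `p ∣ K`. -/
theorem first_cases {C X : ℤ_[p]} (hN : 0 < minimalPeriod (F C) X) :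
    minimalPeriod (F C) X = minimalPeriod (F (PadicInt.toZMod C)) (PadicInt.toZMod X) ∨
    ∃ K : ℕ, mult (PadicInt.toZMod C) (PadicInt.toZMod X)
        (minimalPeriod (F (PadicInt.toZMod C)) (PadicInt.toZMod X)) ≠ 0 ∧
      minimalPeriod (F C) X =
        minimalPeriod (F (PadicInt.toZMod C)) (PadicInt.toZMod X) *
        orderOf (mult (PadicInt.toZMod C) (PadicInt.toZMod X)
          (minimalPeriod (F (PadicInt.toZMod C)) (PadicInt.toZMod X))) * K ∧
      (K = 1 ∨ p ∣ K) := by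
  set N := minimalPeriod (F C) X with hNdef
  set c := PadicInt.toZMod C with hc
  set x := PadicInt.toZMod X with hx
  set l := minimalPeriod (F c) x with hl
  set μ := mult c x l with hμ
  obtain ⟨K, hK⟩ := red_dvd C X
  rw [← hNdef, ← hc, ← hx, ← hl] at hK
  have hl0 : 0 < l := Nat.pos_of_mul_pos_right (hK ▸ hN)
  have hK0 : 0 < K := Nat.pos_of_mul_pos_left (hK ▸ hN)
  by_cases hK1 : K = 1
  · left; rw [hK, hK1, mul_one]
  right
  have hper : ∀ m k : ℕ, k * m = N → (F C)^[k * m] X = X := by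
    intro m k h
    rw [h]; exact isPeriodicPt_minimalPeriod (F C) X
  have hnper : ∀ m : ℕ, 0 < m → m < N → (F C)^[m] X ≠ X := by
    intro m h0 h1 h2
    exact not_isPeriodicPt_of_pos_of_lt_minimalPeriod h0.ne' h1 h2
  have hlfix : (F c)^[l] x = x := isPeriodicPt_minimalPeriod (F c) x
  have hlN : l < N := by
    rw [hK]
    have : 1 < K := by omega
    nlinarith
  have h1 := first_order PadicInt.toZMod (M := l) (K := K) (hper l K (by rw [hK, mul_comm]))
    (hnper l hl0 hlN) hlfix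
  rw [← hc, ← hx, ← hμ] at h1
  have h2 : μ ^ K = 1 := by
    have := geom_sum_mul μ K
    rw [h1, zero_mul] at this
    exact (sub_eq_zero.1 this.symm)
  have hμ0 : μ ≠ 0 := by
    intro h0
    rw [h0, zero_pow hK0.ne'] at h2
    exact zero_ne_one h2
  obtain ⟨K', hK'⟩ := orderOf_dvd_of_pow_eq_one h2
  refine ⟨K', hμ0, by rw [hK, hK']; ring, ?_⟩
  by_cases hK1' : K' = 1
  · left; exact hK1'
  right
  set r := orderOf μ with hr
  have hr0 : 0 < r := Nat.pos_of_mul_pos_right (hK' ▸ hK0)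
  have hK'0 : 0 < K' := Nat.pos_of_mul_pos_left (hK' ▸ hK0)
  have hN' : N = K' * (l * r) := by rw [hK, hK']; ring
  have hlr : l * r < N := by
    rw [hN']
    have h3 : 1 < K' := by omega
    have h4 : 0 < l * r := Nat.mul_pos hl0 hr0
    nlinarith
  have hfix : (F c)^[l * r] x = x := by
    rw [iterate_mul]; exact iterate_fixed hlfix r
  have h3 := first_order PadicInt.toZMod (M := l * r) (K := K') (hper _ _ hN'.symm)
    (hnper _ (Nat.mul_pos hl0 hr0) hlr) hfix
  rw [← hc, ← hx, mult_mul hlfix, ← hμ, pow_orderOf_eq_one] at h3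
  simp only [one_pow, sum_const, card_range, nsmul_eq_mul, mul_one] at h3
  exact (ZMod.natCast_eq_zero_iff _ _).1 h3

/-- Consequence of the second order condition. -/
theorem second_cases {C X : ℤ_[p]} {M : ℕ} (hM : 0 < M)
    (hN : minimalPeriod (F C) X = p * M)
    (hfix : (F (PadicInt.toZMod C))^[M] (PadicInt.toZMod X) = PadicInt.toZMod X)
    (hmu : mult (PadicInt.toZMod C) (PadicInt.toZMod X) M = 1) :
    ∃ d a : ℤ_[p], (p : ℤ_[p]) ^ 2 ∣ (p : ℤ_[p]) + p * (((∑ k ∈ range p, k : ℕ) : ℤ_[p]) * a +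
      ((∑ k ∈ range p, k ^ 2 : ℕ) : ℤ_[p]) * coefB C X d M) ∧
      (F C)^[M] X = X + p * d := by
  have h1 : PadicInt.toZMod ((F C)^[M] X - X) = 0 := by
    rw [map_sub, iter_map, hfix, sub_self]
  obtain ⟨d, hd⟩ := dvd_of_toZMod_eq_zero h1
  have h2 : PadicInt.toZMod (mult C X M - 1) = 0 := by
    rw [map_sub, mult_map, hmu, map_one, sub_self]
  obtain ⟨a, ha⟩ := dvd_of_toZMod_eq_zero h2
  refine ⟨d, a, ?_, by linear_combination hd⟩
  have hlt : M < minimalPeriod (F C) X := by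
    rw [hN]
    have := hp.out.one_lt
    nlinarith
  refine second_order (M := M) (K := p) ?_ ?_ (by linear_combination hd)
    (by linear_combination ha)
  · rw [← hN]; exact isPeriodicPt_minimalPeriod (F C) X
  · intro h
    exact not_isPeriodicPt_of_pos_of_lt_minimalPeriod hM.ne' hlt h

/-- **Periods at a prime `p ≥ 5` of good reduction.** -/
theorem local_period (h5 : 5 ≤ p) {C X : ℤ_[p]} (hN : 0 < minimalPeriod (F C) X) :
    minimalPeriod (F C) X = minimalPeriod (F (PadicInt.toZMod C)) (PadicInt.toZMod X) ∨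
    (mult (PadicInt.toZMod C) (PadicInt.toZMod X)
        (minimalPeriod (F (PadicInt.toZMod C)) (PadicInt.toZMod X)) ≠ 0 ∧
      minimalPeriod (F C) X =
        minimalPeriod (F (PadicInt.toZMod C)) (PadicInt.toZMod X) *
        orderOf (mult (PadicInt.toZMod C) (PadicInt.toZMod X)
          (minimalPeriod (F (PadicInt.toZMod C)) (PadicInt.toZMod X)))) := by
  rcases first_cases hN with h | ⟨K, hμ0, hK, hK1 | hpK⟩
  · left; exact h
  · right
    refine ⟨hμ0, ?_⟩
    rw [hK1, mul_one] at hK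
    exact hK
  · exfalso
    obtain ⟨m, rfl⟩ := hpK
    set c := PadicInt.toZMod C with hc
    set x := PadicInt.toZMod X with hx
    set l := minimalPeriod (F c) x with hl
    set μ := mult c x l with hμ
    set r := orderOf μ with hr
    have hM0 : 0 < l * r * m := by
      rcases Nat.eq_zero_or_pos (l * r * m) with h0 | h0
      · rw [hK] at hN
        have h00 : l * r * (p * m) = p * (l * r * m) := by ring
        rw [h00, h0] at hN
        simp at hN
      · exact h0
    have hlfix : (F c)^[l] x = x := isPeriodicPt_minimalPeriod (F c) x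
    obtain ⟨d, a, h1, -⟩ := second_cases (M := l * r * m) hM0 (by rw [hK]; ring)
      (by rw [← hc, ← hx, mul_assoc, iterate_mul]; exact iterate_fixed hlfix _)
      (by rw [← hc, ← hx, mul_assoc, mult_mul hlfix, ← hμ, pow_mul, hr, pow_orderOf_eq_one,
        one_pow])
    obtain ⟨⟨s1, hs1⟩, ⟨s2, hs2⟩⟩ := p_dvd_sums (p := p) h5
    rw [hs1, hs2] at h1
    apply not_sq_dvd_p (p := p) (z := s1 * a + s2 * coefB C X d (l * r * m))
    convert h1 using 1
    push_cast
    ring

end PadicInt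

end Pool.Agent.FPS
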