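import Pool.Agent.FPS4.Defs

/-!
The local condition at a prime of good reduction, and the spec of the two packages
`LocalLemma.lean` and `LocalTable.lean`.
-/

namespace Pool.Agent.FPS

/-- Necessary condition for a cycle of exact length `N` of some `z ^ 2 + c`, `c` a `p`-adic
integer: some point `y` of `ZMod p` is fixed by the `N`-th iterate, and whenever it is fixed by the
`M`-th iterate, `M` a proper divisor of `N`, the multiplier `μ` of that iterate satisfies
`1 + μ + … + μ ^ (N / M - 1) = 0` in `ZMod p`. -/
def LocalOK (p N : ℕ) : Prop :=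
  ∃ c y : ZMod p, (fun z : ZMod p => z ^ 2 + c)^[N] y = y ∧
    ∀ M : ℕ, 0 < M → M ∣ N → M < N → (fun z : ZMod p => z ^ 2 + c)^[M] y = y →
      ∑ k ∈ Finset.range (N / M),
        (∏ t ∈ Finset.range M, (2 * (fun z : ZMod p => z ^ 2 + c)^[t] y)) ^ k = 0

end Pool.Agent.FPS
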