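import Pool.Agent.FPS4.Defs

/-!
A product formula for the `p`-adic absolute values of a rational number, with a finite set of primes.
-/

set_option autoImplicit false

namespace Pool.Agent.FPS

private theorem prodFormula_zpow (q : ℕ) [Fact q.Prime] (a : ℚ) (k : ℤ) :
    padicNorm q (a ^ k) = padicNorm q a ^ k := by
  have h := map_zpow₀ (IsAbsoluteValue.toAbsoluteValue (padicNorm q)) a k
  exact h

private theorem prodFormula_prod (q : ℕ) [Fact q.Prime] (S : Finset ℕ) (f : ℕ → ℚ) :
    padicNorm q (∏ p ∈ S, f p) = ∏ p ∈ S, padicNorm q (f p) := by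
  have h := map_prod (IsAbsoluteValue.toAbsoluteValue (padicNorm q)) f S
  exact h

private theorem prodFormula_self (q : ℕ) [hq : Fact q.Prime] {z : ℚ} (hz : z ≠ 0) :
    padicNorm q (padicNorm q z) = (padicNorm q z)⁻¹ := by
  have hq0 : (q : ℚ) ≠ 0 := by exact_mod_cast hq.out.ne_zero
  rw [padicNorm.eq_zpow_of_nonzero hz, prodFormula_zpow, padicNorm.padicNorm_p hq.out.one_lt,
    zpow_neg, zpow_neg, inv_inv, inv_zpow, inv_inv]

private theorem prodFormula_other (q p : ℕ) [hq : Fact q.Prime] [hp : Fact p.Prime] (hne : p ≠ q)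
    {z : ℚ} (hz : z ≠ 0) : padicNorm q (padicNorm p z) = 1 := by
  rw [padicNorm.eq_zpow_of_nonzero hz, prodFormula_zpow,
    padicNorm.padicNorm_of_prime_of_ne (p := q) (q := p) (fun h => hne h.symm), one_zpow]

private theorem prodFormula_int {y : ℚ} (hy : y ≠ 0)
    (h : ∀ p : ℕ, p.Prime → padicNorm p y ≤ 1) : 1 ≤ |y| := by
  have hden : y.den = 1 := by
    by_contra hne
    obtain ⟨q, hq, hqd⟩ := Nat.exists_prime_and_dvd hne
    have := Fact.mk hq
    have h1 := h q hq
    have hnum : ¬ (q : ℤ) ∣ y.num := by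
      intro hdvd
      have h2 : q ∣ y.num.natAbs := Int.natCast_dvd.1 hdvd
      have h3 := Nat.dvd_gcd h2 hqd
      rw [y.reduced] at h3
      exact hq.one_lt.ne' (Nat.dvd_one.1 h3)
    have h4 : padicNorm q (y.num : ℚ) = 1 := by
      rw [padicNorm.int_eq_one_iff]
      exact hnum
    have h5 : padicNorm q (y.den : ℚ) < 1 := by
      rw [padicNorm.nat_lt_one_iff]
      exact hqd
    have h6 : padicNorm q y * padicNorm q (y.den : ℚ) = padicNorm q (y.num : ℚ) := by
      rw [← padicNorm.mul, Rat.mul_den_eq_num]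
    rw [h4] at h6
    have h7 : 0 ≤ padicNorm q (y.den : ℚ) := padicNorm.nonneg _
    have h8 : padicNorm q y * padicNorm q (y.den : ℚ) ≤ 1 * padicNorm q (y.den : ℚ) :=
      mul_le_mul_of_nonneg_right h1 h7
    linarith
  have h1 : y = (y.num : ℚ) := by
    conv_lhs => rw [← Rat.num_div_den y]
    rw [hden]
    simp
  have h2 : y.num ≠ 0 := Rat.num_ne_zero.2 hy
  rw [h1]
  exact_mod_cast Int.one_le_abs h2

theorem prod_formula_le (S : Finset ℕ) (hS : ∀ p ∈ S, p.Prime) (z : ℚ) (hz : z ≠ 0)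
    (h : ∀ p : ℕ, p.Prime → p ∉ S → padicNorm p z ≤ 1) :
    1 ≤ |z| * ∏ p ∈ S, padicNorm p z := by
  have hpos : ∀ p ∈ S, 0 < padicNorm p z := by
    intro p hp
    have := Fact.mk (hS p hp)
    exact lt_of_le_of_ne (padicNorm.nonneg _) (Ne.symm (padicNorm.nonzero hz))
  have hprod : 0 < ∏ p ∈ S, padicNorm p z := Finset.prod_pos hpos
  have hy : z * ∏ p ∈ S, padicNorm p z ≠ 0 := mul_ne_zero hz hprod.ne'
  have key := prodFormula_int hy (by
    intro q hq
    have := Fact.mk hq
    rw [padicNorm.mul, prodFormula_prod]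
    by_cases hqS : q ∈ S
    · rw [← Finset.mul_prod_erase S _ hqS, prodFormula_self q hz]
      have h1 : ∏ p ∈ S.erase q, padicNorm q (padicNorm p z) = 1 := by
        refine Finset.prod_eq_one fun p hp => ?_
        rw [Finset.mem_erase] at hp
        have := Fact.mk (hS p hp.2)
        exact prodFormula_other q p hp.1 hz
      rw [h1, mul_one, mul_inv_cancel₀ (padicNorm.nonzero hz)]
    · have h1 : ∏ p ∈ S, padicNorm q (padicNorm p z) = 1 := by
        refine Finset.prod_eq_one fun p hp => ?_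
        have := Fact.mk (hS p hp)
        exact prodFormula_other q p (fun h => hqS (h ▸ hp)) hz
      rw [h1, mul_one]
      exact h q hq hqS)
  rwa [abs_mul, abs_of_pos hprod] at key

theorem prod_formula_eq (S : Finset ℕ) (hS : ∀ p ∈ S, p.Prime) (z : ℚ) (hz : z ≠ 0)
    (h : ∀ p : ℕ, p.Prime → p ∉ S → padicNorm p z = 1) :
    |z| * ∏ p ∈ S, padicNorm p z = 1 := by
  have h1 := prod_formula_le S hS z hz fun p hp hpS => (h p hp hpS).le
  have hinv : ∀ p : ℕ, p.Prime → padicNorm p z⁻¹ = (padicNorm p z)⁻¹ := by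
    intro p hp
    have := Fact.mk hp
    have h2 := prodFormula_zpow p z (-1)
    simpa [zpow_neg] using h2
  have h2 := prod_formula_le S hS z⁻¹ (inv_ne_zero hz) (by
    intro p hp hpS
    rw [hinv p hp, h p hp hpS, inv_one])
  have h3 : ∏ p ∈ S, padicNorm p z⁻¹ = (∏ p ∈ S, padicNorm p z)⁻¹ := by
    rw [← Finset.prod_inv_distrib]
    exact Finset.prod_congr rfl fun p hp => hinv p (hS p hp)
  rw [h3, abs_inv, ← mul_inv] at h2
  have hpos : 0 < |z| * ∏ p ∈ S, padicNorm p z := lt_of_lt_of_le one_pos h1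
  have h4 : |z| * ∏ p ∈ S, padicNorm p z ≤ 1 := by
    have := (le_inv_comm₀ one_pos hpos).1 h2
    simpa using this
  exact le_antisymm h4 h1

end Pool.Agent.FPS
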