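import Pool.Agent.FPS4.Places
import Pool.Agent.FPS4.ProdFormula

/-!
The logarithms of `|x i + x j|` and `|x i - x j|` as linear forms in the numbers
`log |2 x 0|_p`, `p` running through the bad primes.
-/

namespace Pool.Agent.FPS

open Finset

/-- Length (at most `n`) of the common prefix of the word `w` read from `i` and from `j`. -/
def pre (w : ℕ → Bool) : ℕ → ℕ → ℕ → ℕ
  | 0, _, _ => 0
  | n + 1, i, j => match w i == w j with
    | true => pre w n (i + 1) (j + 1) + 1
    | false => 0

/-- The exponent (plus one) of a word at `x i + x j` (`b = true`) or `x i - x j` (`b = false`). -/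
def qx (N : ℕ) (w : ℕ → Bool) (b : Bool) (i j : ℕ) : ℕ :=
  match (w i == w j) == b with
  | true => 0
  | false => pre w N (i + 1) (j + 1) + 1

/-- `x i + x j` or `x i - x j` -/
def pm (x : ℕ → ℚ) (b : Bool) (i j : ℕ) : ℚ := if b then x i + x j else x i - x j

theorem pre_spec {w : ℕ → Bool} : ∀ (n i j : ℕ),
    (∃ k < n, w (i + k) ≠ w (j + k)) →
    ∃ k, pre w n i j = k ∧ k < n ∧ w (i + k) ≠ w (j + k) ∧ ∀ l < k, w (i + l) = w (j + l) := by
  intro n
  induction n with
  | zero => rintro i j ⟨k, hk, -⟩; omega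
  | succ n ih =>
    rintro i j ⟨k, hk, hne⟩
    unfold pre
    by_cases hw : w i = w j
    · have hb : (w i == w j) = true := by simpa using hw
      simp only [hb]
      cases k with
      | zero => exact absurd hw hne
      | succ k =>
        obtain ⟨l, h1, h2, h3, h4⟩ := ih (i + 1) (j + 1) ⟨k, by omega, by
          rw [show i + 1 + k = i + (k + 1) by ring, show j + 1 + k = j + (k + 1) by ring]
          exact hne⟩
        refine ⟨l + 1, by rw [h1], by omega, ?_, ?_⟩
        · rw [show i + (l + 1) = i + 1 + l by ring, show j + (l + 1) = j + 1 + l by ring]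
          exact h3
        · intro m hm
          cases m with
          | zero => exact hw
          | succ m =>
            rw [show i + (m + 1) = i + 1 + m by ring, show j + (m + 1) = j + 1 + m by ring]
            exact h4 m (by omega)
    · have hb : (w i == w j) = false := by simpa using hw
      simp only [hb]
      exact ⟨0, rfl, by omega, by simpa using hw, fun l hl => by omega⟩

variable {c : ℚ} {N : ℕ} {x : ℕ → ℚ}

theorem norm_sub_pow {p : ℕ} [Fact p.Prime] (h : Cyc c N x) (hM : 1 < padicNorm p (2 * x 0))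
    {i j : ℕ} (hij : i % N ≠ j % N) :
    padicNorm p (x i - x j) * padicNorm p (2 * x 0) ^ (pre (cls p x) N i j) =
      padicNorm p (2 * x 0) := by
  obtain ⟨T, hT, hTN, hTne, hTlt⟩ := pre_spec (w := cls p x) N i j (exists_sep h hM hij)
  rw [hT]
  have h2 : ∀ l, l ≤ T → padicNorm p (x (i + l) - x (j + l)) =
      padicNorm p (x i - x j) * padicNorm p (2 * x 0) ^ l := by
    intro l
    induction l with
    | zero => intro _; simp
    | succ l ih =>
      intro hl
      have h4 := (place_same h hM (hTlt l (by omega))).2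
      rw [ih (by omega)] at h4
      rw [← add_assoc, ← add_assoc, ← h4, pow_succ, mul_assoc]
  rw [← h2 T le_rfl]
  exact (place_diff h hM hTne).1

theorem norm_pm {p : ℕ} [Fact p.Prime] (h : Cyc c N x) (hM : 1 < padicNorm p (2 * x 0))
    {i j : ℕ} (hij : i % N ≠ j % N) (b : Bool) :
    padicNorm p (pm x b i j) =
      padicNorm p (2 * x 0) ^ (1 - (qx N (cls p x) b i j : ℤ)) := by
  have hMpos : 0 < padicNorm p (2 * x 0) := lt_trans zero_lt_one hM
  have hij1 : (i + 1) % N ≠ (j + 1) % N := fun e => hij (mod_add_congr.1 e)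
  set M := padicNorm p (2 * x 0) with hMd
  set T := pre (cls p x) N (i + 1) (j + 1) with hT
  have key : padicNorm p (x (i + 1) - x (j + 1)) * M ^ T = M := norm_sub_pow h hM hij1
  have fin : ∀ a : ℚ, a * M = padicNorm p (x (i + 1) - x (j + 1)) →
      a = M ^ (1 - ((T + 1 : ℕ) : ℤ)) := by
    intro a ha
    rw [← ha] at key
    have h5 : a * M ^ T = 1 := by
      have h6 : M * (a * M ^ T) = M * 1 := by rw [mul_one]; conv_rhs => rw [← key]
                                              ring
      exact mul_left_cancel₀ hMpos.ne' h6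
    have h7 : (1 - ((T + 1 : ℕ) : ℤ)) = -(T : ℤ) := by push_cast; ring
    rw [h7, zpow_neg, zpow_natCast]
    exact eq_inv_of_mul_eq_one_left h5
  unfold qx pm
  by_cases hc : cls p x i = cls p x j
  · have hb : (cls p x i == cls p x j) = true := by simpa using hc
    obtain ⟨h1, h2⟩ := place_same h hM hc
    cases b with
    | true =>
      simp only [hb]
      change padicNorm p (x i + x j) = M ^ (1 - ((0 : ℕ) : ℤ))
      rw [show (1 - ((0 : ℕ) : ℤ)) = 1 by norm_num, zpow_one]; exact h1
    | false =>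
      simp only [hb]
      exact fin _ h2
  · have hb : (cls p x i == cls p x j) = false := by simpa using hc
    obtain ⟨h1, h2⟩ := place_diff h hM hc
    cases b with
    | true =>
      simp only [hb]
      exact fin _ h2
    | false =>
      simp only [hb]
      change padicNorm p (x i - x j) = M ^ (1 - ((0 : ℕ) : ℤ))
      rw [show (1 - ((0 : ℕ) : ℤ)) = 1 by norm_num, zpow_one]; exact h1

/-- the places where `|2 x 0| > 1` -/
noncomputable def places (c : ℚ) (x : ℕ → ℚ) : Finset ℕ :=
  c.den.primeFactors.filter fun p => 1 < padicNorm p (2 * x 0)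

theorem mem_places_iff (h : Cyc c N x) {p : ℕ} (hp : p.Prime) :
    p ∈ places c x ↔ 1 < padicNorm p (2 * x 0) := by
  have : Fact p.Prime := ⟨hp⟩
  unfold places
  rw [mem_filter, Nat.mem_primeFactors]
  constructor
  · exact fun hh => hh.2
  · intro hM
    exact ⟨⟨hp, dvd_den_of_place h hM, c.den_ne_zero⟩, hM⟩

theorem prime_of_mem {p : ℕ} (hp : p ∈ places c x) : p.Prime := by
  unfold places at hp
  exact Nat.prime_of_mem_primeFactors (mem_filter.1 hp).1

theorem one_lt_of_mem {p : ℕ} (hp : p ∈ places c x) : 1 < padicNorm p (2 * x 0) :=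
  (mem_filter.1 hp).2

theorem pm_ne_zero (h : Cyc c N x) {i j : ℕ} (hij : i % N ≠ j % N) (b : Bool) :
    pm x b i j ≠ 0 := by
  cases b
  · exact sub_ne_zero' h hij
  · exact add_ne_zero' h hij

/-- `|z|` times the product of the norms of `z` at the places -/
noncomputable def Dq (c : ℚ) (x : ℕ → ℚ) (z : ℚ) : ℚ := |z| * ∏ p ∈ places c x, padicNorm p z

theorem Dq_mul (z z' : ℚ) : Dq c x (z * z') = Dq c x z * Dq c x z' := by
  unfold Dq
  rw [abs_mul]
  have : ∏ p ∈ places c x, padicNorm p (z * z') =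
      (∏ p ∈ places c x, padicNorm p z) * ∏ p ∈ places c x, padicNorm p z' := by
    rw [← Finset.prod_mul_distrib]
    refine Finset.prod_congr rfl fun p hp => ?_
    have : Fact p.Prime := ⟨prime_of_mem hp⟩
    exact padicNorm.mul _ _
  rw [this]; ring

theorem Dq_neg (z : ℚ) : Dq c x (-z) = Dq c x z := by
  unfold Dq
  rw [abs_neg]
  congr 1
  refine Finset.prod_congr rfl fun p hp => ?_
  exact padicNorm.neg _

theorem Dq_add (h : Cyc c N x) {i j : ℕ} (hij : i % N ≠ j % N) : Dq c x (x i + x j) = 1 := by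
  unfold Dq
  refine prod_formula_eq _ (fun p hp => prime_of_mem hp) _ (add_ne_zero' h hij) ?_
  intro p hp hpn
  have : Fact p.Prime := ⟨hp⟩
  rw [mem_places_iff h hp] at hpn
  exact good_add h (not_lt.1 hpn) hij

theorem one_le_Dq_sub (h : Cyc c N x) {i j : ℕ} (hij : i % N ≠ j % N) :
    1 ≤ Dq c x (x i - x j) := by
  unfold Dq
  refine prod_formula_le _ (fun p hp => prime_of_mem hp) _ (sub_ne_zero' h hij) ?_
  intro p hp hpn
  have : Fact p.Prime := ⟨hp⟩
  rw [mem_places_iff h hp] at hpn
  exact good_sub h (not_lt.1 hpn) i j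

theorem Dq_shift (h : Cyc c N x) {i j : ℕ} (hij : i % N ≠ j % N) :
    Dq c x (x (i + 1) - x (j + 1)) = Dq c x (x i - x j) := by
  rw [← h.mul_eq, Dq_mul, Dq_add h hij, mul_one]

theorem Dq_shift_n (h : Cyc c N x) {i j : ℕ} (hij : i % N ≠ j % N) (n : ℕ) :
    Dq c x (x (i + n) - x (j + n)) = Dq c x (x i - x j) := by
  induction n with
  | zero => rfl
  | succ n ih =>
    rw [← ih, ← add_assoc, ← add_assoc]
    exact Dq_shift h fun e => hij (mod_add_congr.1 e)

/-- distance of two indices on the cycle -/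
def dist' (N i j : ℕ) : ℕ := min (if i < j then j - i else i - j) (N - (if i < j then j - i else i - j))

theorem Dq_dist (h : Cyc c N x) {i j : ℕ} (hi : i < N) (hj : j < N) (hij : i ≠ j) :
    Dq c x (x i - x j) = Dq c x (x 0 - x (dist' N i j)) := by
  have hsymm : ∀ a b, Dq c x (x a - x b) = Dq c x (x b - x a) := by
    intro a b
    rw [← neg_sub, Dq_neg]
  -- reduce to `i < j`
  have main : ∀ a b, a < b → b < N → Dq c x (x a - x b) = Dq c x (x 0 - x (min (b - a) (N - (b - a)))) := by
    intro a b hab hb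
    have h0 : (0 : ℕ) % N ≠ (b - a) % N := by
      rw [Nat.zero_mod, Nat.mod_eq_of_lt (by omega)]; omega
    have h1 : Dq c x (x a - x b) = Dq c x (x 0 - x (b - a)) := by
      have := Dq_shift_n h h0 a
      rw [zero_add, Nat.sub_add_cancel hab.le] at this
      exact this
    rcases le_total (b - a) (N - (b - a)) with hle | hle
    · rw [min_eq_left hle, h1]
    · rw [min_eq_right hle, h1]
      have h0' : (0 : ℕ) % N ≠ (N - (b - a)) % N := by
        rw [Nat.zero_mod, Nat.mod_eq_of_lt (by omega)]; omega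
      have := Dq_shift_n h h0' (b - a)
      rw [zero_add, Nat.sub_add_cancel (by omega)] at this
      rw [← this, hsymm, show x N = x 0 by have := h.per 0; rwa [zero_add] at this]
  unfold dist'
  rcases lt_or_gt_of_ne hij with hlt | hlt
  · rw [if_pos hlt]
    exact main i j hlt hj
  · rw [if_neg (by omega), hsymm]
    exact main j i hlt hi

/-- `log |2 x 0|_p` -/
noncomputable def Lg (x : ℕ → ℚ) (p : ℕ) : ℝ := Real.log ((padicNorm p (2 * x 0) : ℚ) : ℝ)

/-- the contribution of the good primes -/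
noncomputable def dl (c : ℚ) (x : ℕ → ℚ) (d : ℕ) : ℝ := Real.log ((Dq c x (x 0 - x d) : ℚ) : ℝ)

theorem log_two_le_Lg {p : ℕ} (hp : p ∈ places c x) : Real.log 2 ≤ Lg x p := by
  have hprime := prime_of_mem hp
  have : Fact p.Prime := ⟨hprime⟩
  have hM := one_lt_of_mem hp
  have h0 : 2 * x 0 ≠ 0 := by
    intro e
    rw [e, padicNorm.zero] at hM
    norm_num at hM
  unfold Lg
  refine Real.log_le_log (by norm_num) ?_
  rw [padicNorm.eq_zpow_of_nonzero h0] at hM ⊢
  have hp2 : (2 : ℚ) ≤ p := by exact_mod_cast hprime.two_le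
  have hk : 1 ≤ -padicValRat p (2 * x 0) := by
    by_contra hcon
    have : (p : ℚ) ^ (-padicValRat p (2 * x 0)) ≤ 1 :=
      zpow_le_one_of_nonpos₀ (by linarith) (by omega)
    linarith
  have h1 : (p : ℚ) ≤ (p : ℚ) ^ (-padicValRat p (2 * x 0)) := by
    calc (p : ℚ) = (p : ℚ) ^ (1 : ℤ) := (zpow_one _).symm
      _ ≤ _ := zpow_le_zpow_right₀ (by linarith) hk
  exact_mod_cast hp2.trans h1

theorem dl_nonneg (h : Cyc c N x) (d : ℕ) : 0 ≤ dl c x d := by
  unfold dl
  by_cases hd : (0 : ℕ) % N = d % N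
  · have : x 0 - x d = 0 := by rw [(h.eq_iff).2 hd, sub_self]
    rw [this]
    simp [Dq]
  · refine Real.log_nonneg ?_
    exact_mod_cast one_le_Dq_sub h hd

theorem log_pm (h : Cyc c N x) {i j : ℕ} (hi : i < N) (hj : j < N) (hij : i ≠ j) (b : Bool) :
    Real.log |((pm x b i j : ℚ) : ℝ)| =
      ∑ p ∈ places c x, Lg x p * ((qx N (cls p x) b i j : ℝ) - 1) +
        (if b then 0 else dl c x (dist' N i j)) := by
  have hij' : i % N ≠ j % N := by rwa [Nat.mod_eq_of_lt hi, Nat.mod_eq_of_lt hj]
  have hne := pm_ne_zero h hij' b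
  have hD : Real.log ((Dq c x (pm x b i j) : ℚ) : ℝ) = (if b then 0 else dl c x (dist' N i j)) := by
    cases b with
    | true =>
      have : Dq c x (pm x true i j) = 1 := Dq_add h hij'
      rw [this]; simp
    | false =>
      have : Dq c x (pm x false i j) = Dq c x (x 0 - x (dist' N i j)) := Dq_dist h hi hj hij
      rw [this]; rfl
  have hprod : ((Dq c x (pm x b i j) : ℚ) : ℝ) = |((pm x b i j : ℚ) : ℝ)| *
      ∏ p ∈ places c x, ((padicNorm p (pm x b i j) : ℚ) : ℝ) := by
    unfold Dq
    push_cast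
    rfl
  have hpos : ∀ p ∈ places c x, ((padicNorm p (pm x b i j) : ℚ) : ℝ) ≠ 0 := by
    intro p hp
    have : Fact p.Prime := ⟨prime_of_mem hp⟩
    exact_mod_cast padicNorm.nonzero hne
  rw [hprod, Real.log_mul (by
    rw [abs_ne_zero]; exact_mod_cast hne) (Finset.prod_ne_zero_iff.2 hpos),
    Real.log_prod hpos] at hD
  have hterm : ∀ p ∈ places c x, Real.log ((padicNorm p (pm x b i j) : ℚ) : ℝ) =
      Lg x p * (1 - (qx N (cls p x) b i j : ℝ)) := by
    intro p hp
    have : Fact p.Prime := ⟨prime_of_mem hp⟩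
    rw [norm_pm h (one_lt_of_mem hp) hij' b]
    unfold Lg
    push_cast
    rw [Real.log_zpow]
    push_cast
    ring
  rw [Finset.sum_congr rfl hterm] at hD
  have e1 : ∑ p ∈ places c x, Lg x p * ((qx N (cls p x) b i j : ℝ) - 1) =
      -∑ p ∈ places c x, Lg x p * (1 - (qx N (cls p x) b i j : ℝ)) := by
    rw [← Finset.sum_neg_distrib]
    exact Finset.sum_congr rfl fun p _ => by ring
  rw [e1]
  linarith

end Pool.Agent.FPS
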