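import Pool.Agent.FPS4.Defs

/-!
Local structure of a cycle of `y ^ 2 + c` at a prime `p`.
-/

namespace Pool.Agent.FPS

variable {c : ℚ} {N : ℕ} {x : ℕ → ℚ}

section
variable {p : ℕ} [hp : Fact p.Prime]

theorem exists_max (h : Cyc c N x) (f : ℚ → ℚ) : ∃ i, ∀ j, f (x j) ≤ f (x i) := by
  obtain ⟨i, -, hi⟩ := Finset.exists_max_image (Finset.range N) (fun j => f (x j))
    ⟨0, Finset.mem_range.2 h.pos⟩
  refine ⟨i, fun j => ?_⟩
  rw [← h.mod j]
  exact hi _ (Finset.mem_range.2 (Nat.mod_lt _ h.pos))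

theorem norm_sub_eq (a b : ℚ) (hab : padicNorm p b < padicNorm p a) :
    padicNorm p (a - b) = padicNorm p a := by
  have h1 : padicNorm p a ≠ padicNorm p (-b) := by
    rw [padicNorm.neg]; exact ne_of_gt hab
  have := padicNorm.add_eq_max_of_ne h1
  rw [← sub_eq_add_neg, padicNorm.neg] at this
  rw [this, max_eq_left hab.le]

theorem norm_add_eq (a b : ℚ) (hab : padicNorm p b < padicNorm p a) :
    padicNorm p (a + b) = padicNorm p a := by
  have := padicNorm.add_eq_max_of_ne (ne_of_gt hab)
  rw [this, max_eq_left hab.le]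

theorem norm_sq (a : ℚ) : padicNorm p (a ^ 2) = padicNorm p a ^ 2 := by
  rw [sq, padicNorm.mul, sq]

/-- if some `|x i| > 1` then all `|x i| ^ 2 = |c|` -/
theorem sq_eq (h : Cyc c N x) {i0 : ℕ} (h0 : 1 < padicNorm p (x i0)) (i : ℕ) :
    padicNorm p (x i) ^ 2 = padicNorm p c := by
  obtain ⟨m, hm⟩ := exists_max h (padicNorm p)
  set R := padicNorm p (x m) with hR
  have hR1 : 1 < R := lt_of_lt_of_le h0 (hm i0)
  have hcR : padicNorm p c = R ^ 2 := by
    by_contra hne
    have h1 : padicNorm p (x m ^ 2) ≠ padicNorm p c := by rw [norm_sq]; exact fun e => hne e.symm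
    have h2 := padicNorm.add_eq_max_of_ne h1
    rw [← h.step, norm_sq] at h2
    have h3 := hm (m + 1)
    rw [h2] at h3
    have : R ^ 2 ≤ R := le_trans (le_max_left _ _) h3
    nlinarith
  by_contra hne
  have hlt : padicNorm p (x i) < R := by
    rcases lt_or_eq_of_le (hm i) with h1 | h1
    · exact h1
    · exact absurd (by rw [hcR, ← h1]) hne
  have hx0 : 0 ≤ padicNorm p (x i) := padicNorm.nonneg _
  have h1 : padicNorm p (x i ^ 2) < padicNorm p c := by
    rw [norm_sq, hcR]; nlinarith
  have h2 := padicNorm.add_eq_max_of_ne (ne_of_lt h1)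
  rw [← h.step, max_eq_right h1.le, hcR] at h2
  have h3 := hm (i + 1)
  rw [h2] at h3
  nlinarith

theorem den_of_one_lt {z : ℚ} (hz : 1 < padicNorm p z) : p ∣ z.den := by
  by_contra hnd
  have h1 : padicNorm p (z.den : ℚ) = 1 := (padicNorm.nat_eq_one_iff _).2 hnd
  have h2 : padicNorm p z * padicNorm p (z.den : ℚ) ≤ 1 := by
    rw [← padicNorm.mul, Rat.mul_den_eq_num]
    exact padicNorm.of_int _
  rw [h1, mul_one] at h2
  exact absurd hz (not_lt.2 h2)

theorem norm_two_le : padicNorm p 2 ≤ 1 := by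
  have := padicNorm.of_nat (p := p) 2
  simpa using this

theorem norm_le_of_place (hM : 1 < padicNorm p (2 * x 0)) : 1 < padicNorm p (x 0) := by
  rw [padicNorm.mul] at hM
  have h2 := norm_two_le (p := p)
  have h0 : 0 ≤ padicNorm p (x 0) := padicNorm.nonneg _
  nlinarith

theorem dvd_den_of_place (h : Cyc c N x) (hM : 1 < padicNorm p (2 * x 0)) : p ∣ c.den := by
  have h1 := norm_le_of_place hM
  have h2 := sq_eq h h1 0
  refine den_of_one_lt ?_
  rw [← h2]; nlinarith

theorem two_mul_eq (h : Cyc c N x) (hM : 1 < padicNorm p (2 * x 0)) (i : ℕ) :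
    padicNorm p (2 * x i) = padicNorm p (2 * x 0) := by
  have h1 := norm_le_of_place hM
  have h2 := sq_eq h h1 0
  have h3 := sq_eq h h1 i
  rw [padicNorm.mul, padicNorm.mul]
  congr 1
  exact (sq_eq_sq₀ (padicNorm.nonneg _) (padicNorm.nonneg _)).1 (h3.trans h2.symm)

theorem two_mul_le (h : Cyc c N x) (i : ℕ) :
    padicNorm p (2 * x i) ≤ max (padicNorm p (2 * x 0)) 1 := by
  by_cases h1 : ∃ j, 1 < padicNorm p (x j)
  · obtain ⟨j, hj⟩ := h1
    have h2 := sq_eq h hj 0
    have h3 := sq_eq h hj i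
    have : padicNorm p (x i) = padicNorm p (x 0) :=
      (sq_eq_sq₀ (padicNorm.nonneg _) (padicNorm.nonneg _)).1 (h3.trans h2.symm)
    rw [padicNorm.mul, padicNorm.mul, this]
    exact le_max_left _ _
  · push Not at h1
    refine le_trans ?_ (le_max_right _ _)
    rw [padicNorm.mul]
    have h2 := norm_two_le (p := p)
    have h0 : 0 ≤ padicNorm p (x i) := padicNorm.nonneg _
    have h00 : 0 ≤ padicNorm p 2 := padicNorm.nonneg _
    nlinarith [h1 i]

/-- differences are bounded by `max |2 x 0| 1` -/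
theorem sub_le (h : Cyc c N x) (i j : ℕ) :
    padicNorm p (x i - x j) ≤ max (padicNorm p (2 * x 0)) 1 := by
  obtain ⟨m, -, hm⟩ := Finset.exists_max_image (Finset.range N ×ˢ Finset.range N)
    (fun q => padicNorm p (x q.1 - x q.2))
    ⟨(0, 0), Finset.mem_product.2 ⟨Finset.mem_range.2 h.pos, Finset.mem_range.2 h.pos⟩⟩
  have hm' : ∀ a b, padicNorm p (x a - x b) ≤ padicNorm p (x m.1 - x m.2) := by
    intro a b
    rw [← h.mod a, ← h.mod b]
    exact hm (a % N, b % N) (Finset.mem_product.2
      ⟨Finset.mem_range.2 (Nat.mod_lt _ h.pos), Finset.mem_range.2 (Nat.mod_lt _ h.pos)⟩)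
  refine le_trans (hm' i j) ?_
  set D := padicNorm p (x m.1 - x m.2) with hD
  rcases eq_or_ne (x m.1 - x m.2) 0 with h0 | h0
  · rw [hD, h0, padicNorm.zero]; exact le_trans zero_le_one (le_max_right _ _)
  have hDpos : 0 < D := lt_of_le_of_ne (padicNorm.nonneg _) (Ne.symm (padicNorm.nonzero h0))
  have h1 : D * padicNorm p (x m.1 + x m.2) ≤ D := by
    rw [hD, ← padicNorm.mul, h.mul_eq]; exact hm' _ _
  have h2 : padicNorm p (x m.1 + x m.2) ≤ 1 := by
    by_contra hcon
    push Not at hcon
    nlinarith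
  have h3 : x m.1 - x m.2 = (x m.1 + x m.2) - 2 * x m.2 := by ring
  rw [hD, h3]
  refine le_trans padicNorm.sub (max_le (le_trans h2 (le_max_right _ _)) (two_mul_le h _))

theorem add_le (h : Cyc c N x) (i j : ℕ) :
    padicNorm p (x i + x j) ≤ max (padicNorm p (2 * x 0)) 1 := by
  have h3 : x i + x j = (x i - x j) + 2 * x j := by ring
  rw [h3]
  exact le_trans padicNorm.nonarchimedean (max_le (sub_le h _ _) (two_mul_le h _))

theorem sub_ne_zero' (h : Cyc c N x) {i j : ℕ} (hij : i % N ≠ j % N) : x i - x j ≠ 0 := by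
  intro e
  exact hij (h.inj_mod (sub_eq_zero.1 e))

theorem add_ne_zero' (h : Cyc c N x) {i j : ℕ} (hij : i % N ≠ j % N) : x i + x j ≠ 0 := by
  intro e
  have h1 := h.mul_eq i j
  rw [e, mul_zero] at h1
  exact sub_ne_zero' h (fun hh => hij (mod_add_congr.1 hh)) h1.symm

/-- product of the sums along the orbit is one -/
theorem sub_shift (h : Cyc c N x) (i j n : ℕ) :
    x (i + n) - x (j + n) = (x i - x j) * ∏ t ∈ Finset.range n, (x (i + t) + x (j + t)) := by
  induction n with
  | zero => simp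
  | succ n ih =>
    rw [Finset.prod_range_succ, ← mul_assoc, ← ih, ← add_assoc, ← add_assoc, ← h.mul_eq]

theorem prod_add (h : Cyc c N x) {i j : ℕ} (hij : i % N ≠ j % N) :
    ∏ t ∈ Finset.range N, (x (i + t) + x (j + t)) = 1 := by
  have h1 := sub_shift h i j N
  rw [h.per, h.per] at h1
  have h2 := sub_ne_zero' h hij
  field_simp at h1
  exact h1.symm

theorem good_add (h : Cyc c N x) (hM : padicNorm p (2 * x 0) ≤ 1) {i j : ℕ}
    (hij : i % N ≠ j % N) : padicNorm p (x i + x j) = 1 := by
  have hle : ∀ a b, padicNorm p (x a + x b) ≤ 1 := fun a b => by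
    have := add_le (p := p) h a b
    rwa [max_eq_right hM] at this
  have h1 := congrArg (padicNorm p) (prod_add h hij)
  rw [padicNorm.one] at h1
  have h2 : ∀ n, padicNorm p (∏ t ∈ Finset.range n, (x (i + 1 + t) + x (j + 1 + t))) ≤ 1 := by
    intro n
    induction n with
    | zero => simp
    | succ n ih =>
      rw [Finset.prod_range_succ, padicNorm.mul]
      exact mul_le_one₀ ih (padicNorm.nonneg _) (hle _ _)
  obtain ⟨n, rfl⟩ : ∃ n, N = n + 1 := ⟨N - 1, by have := h.pos; omega⟩
  rw [Finset.prod_range_succ', padicNorm.mul] at h1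
  have h3 := h2 n
  have h4 : ∏ k ∈ Finset.range n, (x (i + (k + 1)) + x (j + (k + 1))) =
      ∏ t ∈ Finset.range n, (x (i + 1 + t) + x (j + 1 + t)) := by
    refine Finset.prod_congr rfl (fun t _ => ?_)
    rw [show i + (t + 1) = i + 1 + t by ring, show j + (t + 1) = j + 1 + t by ring]
  rw [h4] at h1
  simp only [add_zero] at h1
  have h5 := hle i j
  have h6 : 0 ≤ padicNorm p (x i + x j) := padicNorm.nonneg _
  have h7 : 0 ≤ padicNorm p (∏ t ∈ Finset.range n, (x (i + 1 + t) + x (j + 1 + t))) :=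
    padicNorm.nonneg _
  nlinarith

theorem good_sub (h : Cyc c N x) (hM : padicNorm p (2 * x 0) ≤ 1) (i j : ℕ) :
    padicNorm p (x i - x j) ≤ 1 := by
  have := sub_le (p := p) h i j
  rwa [max_eq_right hM] at this

/-- the class of `i` at the place `p`: `true` iff `i` is opposite to `0` -/
noncomputable def cls (p : ℕ) (x : ℕ → ℚ) (i : ℕ) : Bool :=
  decide (padicNorm p (x i - x 0) = padicNorm p (2 * x 0))

omit hp in
theorem cls_zero (hM : 1 < padicNorm p (2 * x 0)) : cls p x 0 = false := by
  unfold cls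
  rw [decide_eq_false_iff_not, sub_self, padicNorm.zero]
  intro e
  rw [← e] at hM
  norm_num at hM

omit hp in
theorem cls_mod (h : Cyc c N x) (i : ℕ) : cls p x (i % N) = cls p x i := by
  unfold cls
  rw [h.mod]

/-- exactly one of `|x i + x j|`, `|x i - x j|` is `|2 x 0|` -/
theorem dich (h : Cyc c N x) (hM : 1 < padicNorm p (2 * x 0)) (i j : ℕ) :
    (padicNorm p (x i + x j) = padicNorm p (2 * x 0) ∧
      padicNorm p (x i - x j) < padicNorm p (2 * x 0)) ∨
    (padicNorm p (x i - x j) = padicNorm p (2 * x 0) ∧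
      padicNorm p (x i + x j) < padicNorm p (2 * x 0)) := by
  have ha := add_le (p := p) h i j
  have hs := sub_le (p := p) h i j
  have hs1 := sub_le (p := p) h (i + 1) (j + 1)
  rw [max_eq_left hM.le] at ha hs hs1
  rw [← h.mul_eq, padicNorm.mul] at hs1
  set M := padicNorm p (2 * x 0) with hMd
  rcases lt_or_eq_of_le ha with ha' | ha'
  · rcases lt_or_eq_of_le hs with hs' | hs'
    · exfalso
      have h2 : 2 * x i = (x i + x j) + (x i - x j) := by ring
      have h3 := two_mul_eq h hM i
      rw [h2] at h3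
      have h4 : padicNorm p ((x i + x j) + (x i - x j)) ≤ _ := padicNorm.nonarchimedean
      rw [h3] at h4
      exact absurd h4 (not_le.2 (max_lt ha' hs'))
    · exact Or.inr ⟨hs', ha'⟩
  · rcases lt_or_eq_of_le hs with hs' | hs'
    · exact Or.inl ⟨ha', hs'⟩
    · exfalso
      rw [hs', ha'] at hs1
      nlinarith

theorem cls_iff (h : Cyc c N x) (hM : 1 < padicNorm p (2 * x 0)) (i j : ℕ) :
    cls p x i = cls p x j ↔ padicNorm p (x i - x j) < padicNorm p (2 * x 0) := by
  set M := padicNorm p (2 * x 0) with hMd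
  have key : ∀ i, cls p x i = false ↔ padicNorm p (x i - x 0) < M := by
    intro i
    unfold cls
    rw [decide_eq_false_iff_not]
    have := sub_le (p := p) h i 0
    rw [max_eq_left hM.le] at this
    constructor
    · intro hne; exact lt_of_le_of_ne this hne
    · intro hlt e; exact absurd e (ne_of_lt hlt)
  have key' : ∀ i, cls p x i = true ↔ padicNorm p (x i - x 0) = M := by
    intro i
    unfold cls
    rw [decide_eq_true_iff]
  have hd : x i - x j = (x i - x 0) - (x j - x 0) := by ring
  cases hi : cls p x i <;> cases hj : cls p x j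
  · simp only [true_iff]
    rw [key] at hi hj
    rw [hd]
    exact lt_of_le_of_lt padicNorm.sub (max_lt hi hj)
  · simp only [Bool.false_eq_true, false_iff, not_lt]
    rw [key] at hi
    rw [key'] at hj
    rw [hd, ← neg_sub, padicNorm.neg, norm_sub_eq _ _ (by rw [hj]; exact hi), hj]
  · simp only [Bool.true_eq_false, false_iff, not_lt]
    rw [key] at hj
    rw [key'] at hi
    rw [hd, norm_sub_eq _ _ (by rw [hi]; exact hj), hi]
  · simp only [true_iff]
    rw [key'] at hi hj
    -- both opposite to `0`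
    have hi' : padicNorm p (x i + x 0) < M := by
      rcases dich h hM i 0 with hh | hh
      · exact absurd hi (ne_of_lt hh.2)
      · exact hh.2
    have hj' : padicNorm p (x j + x 0) < M := by
      rcases dich h hM j 0 with hh | hh
      · exact absurd hj (ne_of_lt hh.2)
      · exact hh.2
    have hd' : x i - x j = (x i + x 0) - (x j + x 0) := by ring
    rw [hd']
    exact lt_of_le_of_lt padicNorm.sub (max_lt hi' hj')

theorem place_same (h : Cyc c N x) (hM : 1 < padicNorm p (2 * x 0)) {i j : ℕ}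
    (hij : cls p x i = cls p x j) :
    padicNorm p (x i + x j) = padicNorm p (2 * x 0) ∧
      padicNorm p (x i - x j) * padicNorm p (2 * x 0) = padicNorm p (x (i + 1) - x (j + 1)) := by
  have h1 : padicNorm p (x i + x j) = padicNorm p (2 * x 0) := by
    rcases dich h hM i j with hh | hh
    · exact hh.1
    · exact absurd hh.1 (ne_of_lt ((cls_iff h hM i j).1 hij))
  exact ⟨h1, by rw [← h.mul_eq, padicNorm.mul (x i - x j), h1]⟩

theorem place_diff (h : Cyc c N x) (hM : 1 < padicNorm p (2 * x 0)) {i j : ℕ}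
    (hij : cls p x i ≠ cls p x j) :
    padicNorm p (x i - x j) = padicNorm p (2 * x 0) ∧
      padicNorm p (x i + x j) * padicNorm p (2 * x 0) = padicNorm p (x (i + 1) - x (j + 1)) := by
  have h1 : padicNorm p (x i - x j) = padicNorm p (2 * x 0) := by
    rcases dich h hM i j with hh | hh
    · exact absurd ((cls_iff h hM i j).2 hh.2) hij
    · exact hh.1
  exact ⟨h1, by rw [← h.mul_eq, padicNorm.mul (x i - x j), h1, mul_comm]⟩

/-- different indices are separated -/
theorem exists_sep (h : Cyc c N x) (hM : 1 < padicNorm p (2 * x 0)) {i j : ℕ}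
    (hij : i % N ≠ j % N) : ∃ t, t < N ∧ cls p x (i + t) ≠ cls p x (j + t) := by
  by_contra hcon
  push Not at hcon
  have h1 : ∀ t, t ≤ N → padicNorm p (x (i + t) - x (j + t)) =
      padicNorm p (x i - x j) * padicNorm p (2 * x 0) ^ t := by
    intro t
    induction t with
    | zero => intro _; simp
    | succ t ih =>
      intro ht
      have h2 := (place_same h hM (hcon t (by omega))).2
      rw [ih (by omega)] at h2
      rw [← add_assoc, ← add_assoc, ← h2, pow_succ, mul_assoc]
  have h3 := h1 N le_rfl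
  rw [h.per, h.per] at h3
  have h4 : 0 < padicNorm p (x i - x j) :=
    lt_of_le_of_ne (padicNorm.nonneg _) (Ne.symm (padicNorm.nonzero (sub_ne_zero' h hij)))
  have h5 : 1 < padicNorm p (2 * x 0) ^ N := one_lt_pow₀ hM h.pos.ne'
  nlinarith

end

end Pool.Agent.FPS
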