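import Mathlib
import Pool.Agent.FPS4.Good

/-!
# The primes `2` and `3`

If `2` does not divide the denominator of `c` then exact periods are `≤ 2`, and if `3` does not
divide it then they are `≤ 3`.
-/

namespace Pool.Agent.FPS

open Function Finset

/-- a periodic point is in the image of every iterate -/
theorem exists_iter {α : Type*} {f : α → α} {x : α} (h : 0 < minimalPeriod f x) (k : ℕ) :
    ∃ y, f^[k] y = x := by
  set N := minimalPeriod f x with hN
  refine ⟨f^[k * N - k] x, ?_⟩
  rw [← iterate_add_apply]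
  have h1 : k + (k * N - k) = N * k := by
    have : k ≤ k * N := Nat.le_mul_of_pos_right k h
    rw [Nat.mul_comm N k]
    omega
  rw [h1, iterate_mul]
  exact iterate_fixed (isPeriodicPt_minimalPeriod f x) k

theorem red_pos {p : ℕ} [Fact p.Prime] {C X : ℤ_[p]} (hN : 0 < minimalPeriod (F C) X) :
    0 < minimalPeriod (F (PadicInt.toZMod C)) (PadicInt.toZMod X) :=
  Nat.pos_of_dvd_of_pos (red_dvd C X) hN

instance : Fact (Nat.Prime 2) := ⟨Nat.prime_two⟩
instance : Fact (Nat.Prime 3) := ⟨Nat.prime_three⟩

theorem period_two {C X : ℤ_[2]} (hN : 0 < minimalPeriod (F C) X) :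
    minimalPeriod (F C) X ≤ 2 := by
  have hl0 := red_pos hN
  have h2 : ∀ c x : ZMod 2, (F c)^[2] x = x := by
    intro c x
    change F c (F c x) = x
    revert c x
    unfold F
    decide
  have hl2 : minimalPeriod (F (PadicInt.toZMod C)) (PadicInt.toZMod X) ≤ 2 := by
    apply Nat.le_of_dvd (by norm_num)
    exact IsPeriodicPt.minimalPeriod_dvd (h2 _ _)
  rcases first_cases hN with h | ⟨K, hμ0, -⟩
  · rw [h]; exact hl2
  · exfalso
    apply hμ0
    unfold mult
    apply prod_eq_zero (mem_range.2 hl0)
    have : (2 : ZMod 2) = 0 := by decide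
    rw [this, zero_mul]

theorem coefB_one (d : ZMod 3) (n : ℕ) :
    coefB (0 : ZMod 3) 1 d (2 * n) = 0 := by
  have hfix : ∀ n, (F (0 : ZMod 3))^[n] 1 = 1 := fun n => iterate_fixed (by unfold F; decide) n
  have hm : ∀ n, mult (0 : ZMod 3) 1 n = 2 ^ n := by
    intro n
    unfold mult
    simp [hfix]
  induction n with
  | zero => simp [coefB]
  | succ n ih =>
    have h1 : 2 * (n + 1) = 2 * n + 1 + 1 := by ring
    rw [h1]
    simp only [coefB, hfix, hm, ih]
    have h4 : ((2 : ZMod 3) ^ (2 * n)) = 1 := by
      rw [pow_mul]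
      have : (2 : ZMod 3) ^ 2 = 1 := by decide
      rw [this, one_pow]
    have h5 : ((2 : ZMod 3) ^ (2 * n + 1)) = 2 := by rw [pow_succ, h4, one_mul]
    rw [h4, h5]
    clear ih
    revert d
    decide

theorem coefB_two (d : ZMod 3) (n : ℕ) :
    coefB (1 : ZMod 3) 2 d n = n * d := by
  have hfix : ∀ n, (F (1 : ZMod 3))^[n] 2 = 2 := fun n => iterate_fixed (by unfold F; decide) n
  have h22 : (2 : ZMod 3) * 2 = 1 := by decide
  have hm : ∀ n, mult (1 : ZMod 3) 2 n = 1 := by
    intro n
    unfold mult
    simp [hfix, h22]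
  induction n with
  | zero => simp [coefB]
  | succ n ih =>
    simp only [coefB, hfix, hm, ih, h22]
    push_cast
    ring

theorem dvd_of_sq_dvd {a B : ℤ_[3]}
    (h : (3 : ℤ_[3]) ^ 2 ∣ 3 + 3 * (3 * a + 5 * B)) : PadicInt.toZMod B = 1 := by
  obtain ⟨w, hw⟩ := h
  have h3 : (3 : ℤ_[3]) ≠ 0 := by
    have : ((3 : ℕ) : ℤ_[3]) ≠ 0 := by
      rw [Nat.cast_ne_zero]; norm_num
    exact_mod_cast this
  have h1 : (3 : ℤ_[3]) * (1 + 5 * B - 3 * (w - a)) = 0 := by linear_combination hw
  rcases mul_eq_zero.1 h1 with h4 | h4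
  · exact absurd h4 h3
  · have h5 := congrArg (PadicInt.toZMod (p := 3)) h4
    have e3 : PadicInt.toZMod (3 : ℤ_[3]) = 3 := map_ofNat _ 3
    have e5 : PadicInt.toZMod (5 : ℤ_[3]) = 5 := map_ofNat _ 5
    rw [map_sub, map_add, map_mul, map_mul, map_one, map_zero, e3, e5] at h5
    revert h5
    generalize PadicInt.toZMod B = b
    generalize PadicInt.toZMod (w - a) = z
    revert b z
    decide

theorem period_three {C X : ℤ_[3]} (hN : 0 < minimalPeriod (F C) X) :
    minimalPeriod (F C) X ≤ 3 := by
  have hl0 := red_pos hN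
  obtain ⟨y, hy⟩ := exists_iter hl0 2
  set c := PadicInt.toZMod C with hc
  set x := PadicInt.toZMod X with hx
  have h2 : (F c)^[2] x = x := by
    rw [← hy]
    have : ∀ c y : ZMod 3, F c (F c (F c (F c y))) = F c (F c y) := by
      unfold F; decide
    exact this c y
  by_cases h1 : F c x = x
  · -- `l = 1`
    have hl1 : minimalPeriod (F c) x = 1 := minimalPeriod_eq_one_iff_isFixedPt.2 h1
    have hm1 : mult c x 1 = 2 * x := by simp [mult]
    rcases first_cases hN with h | ⟨K, hμ0, hK, hK'⟩
    · rw [h, ← hc, ← hx, hl1]; norm_num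
    rw [← hc, ← hx, hl1, hm1] at hμ0 hK
    rw [one_mul] at hK
    have hr2 : orderOf (2 * x) ∣ 2 := by
      apply orderOf_dvd_of_pow_eq_one
      revert hμ0
      generalize x = z
      revert z
      decide
    rcases hK' with hK1 | ⟨m, hm⟩
    · rw [hK, hK1, mul_one]
      exact (Nat.le_of_dvd (by norm_num) hr2).trans (by norm_num)
    rw [hm] at hK
    have hm0 : 0 < m := by
      rcases Nat.eq_zero_or_pos m with h0 | h0
      · rw [h0] at hK; simp at hK; omega
      · exact h0
    have hx' : x = 1 ∧ c = 0 ∨ x = 2 ∧ c = 1 := by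
      revert hμ0 h1
      generalize x = z
      generalize c = w
      revert z w
      unfold F
      decide
    rcases hx' with ⟨hx1, hc1⟩ | ⟨hx1, hc1⟩
    · -- `x = 1`
      exfalso
      have hr : orderOf (2 * x) = 2 := by
        rw [hx1]
        apply orderOf_eq_prime <;> decide
      rw [hr] at hK
      obtain ⟨d, a, h3, -⟩ := second_cases (M := 2 * m) (C := C) (X := X) (by omega)
        (by rw [hK]; ring)
        (by rw [← hc, ← hx]; exact iterate_fixed h1 _)
        (by
          rw [← hc, ← hx]
          have : mult c x (2 * m) = mult c x 1 ^ (2 * m) := by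
            conv_lhs => rw [← Nat.one_mul (2 * m)]
            exact mult_mul (m := 1) h1 _
          rw [this, hm1, hx1, pow_mul]
          have : ((2 : ZMod 3) * 1) ^ 2 = 1 := by decide
          rw [this, one_pow])
      have e1 : ∑ k ∈ range 3, k = 3 := by decide
      have e2 : ∑ k ∈ range 3, k ^ 2 = 5 := by decide
      rw [e1, e2] at h3
      have h4 := dvd_of_sq_dvd (a := a) (B := coefB C X d (2 * m)) (by exact_mod_cast h3)
      rw [coefB_map, ← hc, ← hx, hx1, hc1, coefB_one] at h4
      exact zero_ne_one h4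
    · -- `x = 2`
      have hr : orderOf (2 * x) = 1 := by
        rw [hx1, orderOf_eq_one_iff]
        decide
      rw [hr, one_mul] at hK
      by_contra hlt
      push Not at hlt
      have hm1' : 1 < m := by omega
      have hmult : ∀ k, mult c x k = 1 := by
        intro k
        have : mult c x k = mult c x 1 ^ k := by
          conv_lhs => rw [← Nat.one_mul k]
          exact mult_mul (m := 1) h1 _
        rw [this, hm1, hx1]
        have : ((2 : ZMod 3) * 2) = 1 := by decide
        rw [this, one_pow]
      -- `3 ∣ m`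
      have h5 := first_order (PadicInt.toZMod (p := 3)) (c := C) (x := X) (M := 3) (K := m)
        (by
          have h6 := isPeriodicPt_minimalPeriod (F C) X
          rw [hK, mul_comm] at h6
          exact h6)
        (by
          intro h6
          exact not_isPeriodicPt_of_pos_of_lt_minimalPeriod (by norm_num) hlt h6)
        (by rw [← hc, ← hx]; exact iterate_fixed h1 _)
      rw [← hc, ← hx, hmult] at h5
      simp only [one_pow, sum_const, card_range, nsmul_eq_mul, mul_one] at h5
      obtain ⟨d, a, h3, -⟩ := second_cases (M := m) (C := C) (X := X) hm0 (by rw [hK])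
        (by rw [← hc, ← hx]; exact iterate_fixed h1 _)
        (by rw [← hc, ← hx, hmult])
      have e1 : ∑ k ∈ range 3, k = 3 := by decide
      have e2 : ∑ k ∈ range 3, k ^ 2 = 5 := by decide
      rw [e1, e2] at h3
      have h4 := dvd_of_sq_dvd (a := a) (B := coefB C X d m) (by exact_mod_cast h3)
      rw [coefB_map, ← hc, ← hx, hx1, hc1, coefB_two, h5, zero_mul] at h4
      exact zero_ne_one h4
  · -- `l = 2`
    have hl2 : minimalPeriod (F c) x = 2 := by
      apply minimalPeriod_eq_prime
      · exact h2
      · exact h1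
    rcases first_cases hN with h | ⟨K, hμ0, -⟩
    · rw [h, ← hc, ← hx, hl2]; norm_num
    · exfalso
      rw [← hc, ← hx, hl2] at hμ0
      apply hμ0
      have hm2 : mult c x 2 = 2 * x * (2 * F c x) := by
        simp [mult, prod_range_succ]
      rw [hm2]
      have h2' : F c (F c x) = x := h2
      revert h1 h2'
      generalize x = z
      generalize c = w
      revert z w
      unfold F
      decide

end Pool.Agent.FPS
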