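import Pool.Agent.FPS4.Checker

/-!
Soundness of the tree search, and of the packed arithmetic.
-/

namespace Pool.Agent.FPS

open Finset

/-! ### The tree -/

/-- The meaning of an entry for the actual set of words `W`. -/
def VE (W : Finset ℕ) (e : ℕ) : Prop :=
  (∀ w ∈ W, e.testBit w = false) → ∑ w ∈ W, efld e w < ekap e

theorem sumF_eq (e : ℕ) : ∀ U : List ℕ, U.Nodup → sumF e U = ∑ w ∈ U.toFinset, efld e w := by
  intro U
  induction U with
  | nil => intro _; simp [sumF]
  | cons u l ih =>
    intro h
    rw [List.nodup_cons] at h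
    rw [sumF, ih h.2, List.toFinset_cons, Finset.sum_insert (by simpa using h.1)]

theorem node_spec {W : Finset ℕ} {e : ℕ} (hv : VE W e) {U : List ℕ} (hU : U.toFinset ⊆ W)
    (hn : U.Nodup) (h : nodeOK e U = true) :
    (∀ u ∈ U, e.testBit u = false) ∧ ∃ v ∈ W, v ∉ U ∧ e.testBit v = true := by
  unfold nodeOK at h
  rw [Bool.and_eq_true, List.all_eq_true] at h
  obtain ⟨h1, h2⟩ := h
  have h1' : ∀ u ∈ U, e.testBit u = false := fun u hu => by simpa using h1 u hu
  refine ⟨h1', ?_⟩
  by_contra hcon
  push Not at hcon
  have hall : ∀ w ∈ W, e.testBit w = false := by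
    intro w hw
    by_cases hwU : w ∈ U
    · exact h1' w hwU
    · have := hcon w hw hwU
      simpa using this
  have h3 := hv hall
  have h4 : ekap e ≤ sumF e U := Nat.le_of_ble_eq_true h2
  rw [sumF_eq e U hn] at h4
  have h5 : ∑ w ∈ U.toFinset, efld e w ≤ ∑ w ∈ W, efld e w :=
    Finset.sum_le_sum_of_subset hU
  omega

theorem loop_spec {W : Finset ℕ} (f : ℕ → List ℕ → ℕ → Option ℕ) (U : List ℕ)
    (hf : ∀ X w s s', w ∈ W → w ∉ U → (∀ v ∈ W, X.testBit v = false) →
      f X (w :: U) s = some s' → False) :
    ∀ (n cand X s s' : ℕ), loop f U n cand X s = some s' → (∀ v ∈ W, X.testBit v = false) →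
      (∀ w, cand.testBit w = true → w ∉ U) → (∃ v ∈ W, cand.testBit v = true) → False := by
  intro n
  induction n with
  | zero => intro cand X s s' h; simp [loop] at h
  | succ n ih =>
    intro cand X s s' h hX hc hv
    obtain ⟨v, hvW, hvc⟩ := hv
    unfold loop at h
    have hc0 : cand ≠ 0 := by
      rintro rfl
      simp at hvc
    have hb : Nat.beq cand 0 = false := by
      rcases hb : Nat.beq cand 0 with _ | _
      · rfl
      · exact absurd (Nat.eq_of_beq_eq_true hb) hc0
    simp only [hb] at h
    set w := Nat.log2 cand with hw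
    have hwc : cand.testBit w = true := Nat.testBit_log2 hc0
    have hwU := hc w hwc
    rcases hfe : f X (w :: U) s with _ | s₁
    · rw [hfe] at h
      simp at h
    · rw [hfe] at h
      simp only at h
      by_cases hwW : w ∈ W
      · exact hf X w s s₁ hwW hwU hX hfe
      · have hbit : ∀ u, (Nat.shiftLeft 1 w).testBit u = decide (u = w) := by
          intro u
          have : Nat.shiftLeft 1 w = 2 ^ w := by
            change 1 <<< w = 2 ^ w
            rw [Nat.shiftLeft_eq, one_mul]
          rw [this, Nat.testBit_two_pow]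
          simp [eq_comm]
        have hxor : ∀ u, (Nat.xor cand (Nat.shiftLeft 1 w)).testBit u =
            (cand.testBit u ^^ decide (u = w)) := by
          intro u
          change (cand ^^^ (Nat.shiftLeft 1 w)).testBit u = _
          rw [Nat.testBit_xor, hbit]
        have hlor : ∀ u, (Nat.lor X (Nat.shiftLeft 1 w)).testBit u =
            (X.testBit u || decide (u = w)) := by
          intro u
          change (X ||| (Nat.shiftLeft 1 w)).testBit u = _
          rw [Nat.testBit_or, hbit]
        refine ih _ _ _ _ h ?_ ?_ ⟨v, hvW, ?_⟩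
        · intro u hu
          have hne : u ≠ w := fun e => hwW (e ▸ hu)
          rw [hlor, hX u hu]
          simp [hne]
        · intro u hu
          rw [hxor] at hu
          by_cases huw : u = w
          · rw [huw]; exact hwU
          · apply hc u
            simpa [huw] using hu
        · have hne : v ≠ w := fun e => hwW (e ▸ hvW)
          rw [hxor, hvc]
          simp [hne]

theorem eneg_testBit (e w : ℕ) (hw : w < 32) : (eneg e).testBit w = e.testBit w := by
  unfold eneg
  change (e &&& 4294967295).testBit w = _
  rw [show (4294967295 : ℕ) = 2 ^ 32 - 1 by norm_num, Nat.and_two_pow_sub_one_eq_mod,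
    Nat.testBit_mod_two_pow]
  simp [hw]

theorem eneg_testBit' (e w : ℕ) (h : (eneg e).testBit w = true) : e.testBit w = true := by
  unfold eneg at h
  change (e &&& 4294967295).testBit w = _ at h
  rw [Nat.testBit_and, Bool.and_eq_true] at h
  exact h.1

theorem run_spec {W : Finset ℕ} (hW : ∀ w ∈ W, w < 32) (tab nc : ℕ)
    (hv : ∀ i < nc, VE W (entry tab i)) :
    ∀ (r X : ℕ) (U : List ℕ) (s s' : ℕ), run tab nc r X U s = some s' → U.toFinset ⊆ W →
      U.Nodup → (∀ v ∈ W, X.testBit v = false) → (W \ U.toFinset).card ≤ r → False := by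
  intro r
  induction r with
  | zero =>
    intro X U s s' h hU hn hX hcard
    unfold run at h
    rcases hb : (Nat.blt (s % 4096) nc && nodeOK (entry tab (s % 4096)) U) with _ | _
    · rw [hb] at h
      simp at h
    · rw [Bool.and_eq_true] at hb
      have hi : s % 4096 < nc := Nat.lt_of_succ_le (Nat.le_of_ble_eq_true hb.1)
      obtain ⟨-, v, hvW, hvU, -⟩ := node_spec (hv _ hi) hU hn hb.2
      have : v ∈ W \ U.toFinset := by
        rw [mem_sdiff, List.mem_toFinset]
        exact ⟨hvW, hvU⟩
      have := Finset.card_pos.2 ⟨v, this⟩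
      omega
  | succ r ih =>
    intro X U s s' h hU hn hX hcard
    unfold run at h
    rcases hb : (Nat.blt (s % 4096) nc && nodeOK (entry tab (s % 4096)) U) with _ | _
    · rw [hb] at h
      simp at h
    · rw [hb] at h
      simp only at h
      rw [Bool.and_eq_true] at hb
      have hi : s % 4096 < nc := Nat.lt_of_succ_le (Nat.le_of_ble_eq_true hb.1)
      set e := entry tab (s % 4096) with he
      obtain ⟨hneg, v, hvW, hvU, hve⟩ := node_spec (hv _ hi) hU hn hb.2
      have hcand : ∀ w, (Nat.xor (eneg e) (Nat.land (eneg e) X)).testBit w =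
          ((eneg e).testBit w && !(X.testBit w)) := by
        intro w
        change ((eneg e) ^^^ ((eneg e) &&& X)).testBit w = _
        rw [Nat.testBit_xor, Nat.testBit_and]
        cases (eneg e).testBit w <;> cases X.testBit w <;> rfl
      refine loop_spec (W := W) (run tab nc r) U ?_ 33 _ X (s / 4096) s' h hX ?_ ⟨v, hvW, ?_⟩
      · intro X' w s₁ s₂ hwW hwU hX' hrun
        refine ih X' (w :: U) s₁ s₂ hrun ?_ ?_ hX' ?_
        · rw [List.toFinset_cons]
          exact Finset.insert_subset hwW hU
        · exact List.nodup_cons.2 ⟨hwU, hn⟩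
        · have h1 : W \ (w :: U).toFinset = (W \ U.toFinset).erase w := by
            ext u
            simp only [mem_sdiff, List.mem_toFinset, List.mem_cons, mem_erase]
            tauto
          have h2 : w ∈ W \ U.toFinset := by
            rw [mem_sdiff, List.mem_toFinset]
            exact ⟨hwW, hwU⟩
          rw [h1, Finset.card_erase_of_mem h2]
          omega
      · intro w hw hwU
        rw [hcand, Bool.and_eq_true] at hw
        have := eneg_testBit' e w hw.1
        rw [hneg w hwU] at this
        exact Bool.false_ne_true this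
      · rw [hcand, eneg_testBit e v (hW v hvW), hve, hX v hvW]
        rfl

/-! ### Packed arithmetic -/

theorem pack_congr {f g : ℕ → ℕ} {n : ℕ} (h : ∀ u < n, f u = g u) : pack f n = pack g n := by
  induction n with
  | zero => rfl
  | succ n ih =>
    rw [pack, pack, ih fun u hu => h u (by omega), h n (by omega)]

theorem pack_add (f g : ℕ → ℕ) (n : ℕ) : pack (fun u => f u + g u) n = pack f n + pack g n := by
  induction n with
  | zero => rfl
  | succ n ih => rw [pack, pack, pack, ih]; ring

theorem pack_mul (a : ℕ) (f : ℕ → ℕ) (n : ℕ) : pack (fun u => a * f u) n = a * pack f n := by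
  induction n with
  | zero => rfl
  | succ n ih => rw [pack, pack, ih]; ring

theorem pack_zero (n : ℕ) : pack (fun _ => 0) n = 0 := by
  induction n with
  | zero => rfl
  | succ n ih => rw [pack, ih]; ring

theorem pack_lt {f : ℕ → ℕ} {n : ℕ} (h : ∀ u < n, f u < 65536) : pack f n < 65536 ^ n := by
  induction n with
  | zero => simp [pack]
  | succ n ih =>
    rw [pack, pow_succ]
    have h1 := ih fun u hu => h u (by omega)
    have h2 := h n (by omega)
    have h3 : f n * 65536 ^ n ≤ 65535 * 65536 ^ n := Nat.mul_le_mul_right _ (by omega)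
    omega

theorem fd_eq (P u : ℕ) : fd P u = P / 65536 ^ u % 65536 := by
  unfold fd
  change (P >>> (16 * u)) &&& 65535 = _
  rw [show (65535 : ℕ) = 2 ^ 16 - 1 by norm_num, Nat.and_two_pow_sub_one_eq_mod,
    Nat.shiftRight_eq_div_pow]
  norm_num [pow_mul]

theorem fd_pack {f : ℕ → ℕ} : ∀ {n : ℕ}, (∀ u < n, f u < 65536) → ∀ {u : ℕ}, u < n →
    fd (pack f n) u = f u := by
  intro n
  induction n with
  | zero => intro _ u hu; omega
  | succ n ih =>
    intro h u hu
    rw [fd_eq, pack]
    have h65 : 0 < 65536 ^ u := by positivity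
    rcases Nat.lt_or_ge u n with hun | hun
    · have h1 : f n * 65536 ^ n = 65536 ^ u * (65536 * (f n * 65536 ^ (n - u - 1))) := by
        have : n = u + 1 + (n - u - 1) := by omega
        conv_lhs => rw [this, pow_add, pow_succ]
        have h2 : u + 1 + (n - u - 1) = n := by omega
        rw [h2]
        ring
      rw [h1, Nat.add_mul_div_left _ _ h65, Nat.add_mul_mod_self_left, ← fd_eq]
      exact ih (fun v hv => h v (by omega)) hun
    · have hune : u = n := by omega
      subst hune
      have h1 := pack_lt (f := f) (n := u) fun v hv => h v (by omega)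
      rw [Nat.add_mul_div_right _ _ h65, Nat.div_eq_of_lt h1, zero_add]
      exact Nat.mod_eq_of_lt (h u (by omega))

theorem tsum_pack (g : ℕ → ℕ → ℕ) (n : ℕ) (l : List ℕ) :
    tsum (fun a => pack (g a) n) l = pack (fun u => tsum (fun a => g a u) l) n := by
  induction l with
  | nil => simp [tsum, pack_zero]
  | cons a l ih =>
    simp only [tsum]
    rw [ih, pack_add, pack_mul]

theorem tsum_congr {f g : ℕ → ℕ} {l : List ℕ} (h : ∀ a ∈ l, f a = g a) : tsum f l = tsum g l := by
  induction l with
  | nil => rfl
  | cons a l ih =>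
    simp only [tsum]
    rw [h a (by simp), ih fun b hb => h b (by simp [hb])]

theorem tsum_le {f g : ℕ → ℕ} {l : List ℕ} (h : ∀ a ∈ l, f a ≤ g a) : tsum f l ≤ tsum g l := by
  induction l with
  | nil => exact le_rfl
  | cons a l ih =>
    simp only [tsum]
    exact Nat.add_le_add (Nat.mul_le_mul_left _ (h a (by simp))) (ih fun b hb => h b (by simp [hb]))

theorem tsum_const (k : ℕ) (l : List ℕ) : tsum (fun _ => k) l = tsum (fun _ => 1) l * k := by
  induction l with
  | nil => simp [tsum]
  | cons a l ih =>
    simp only [tsum]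
    rw [ih]; ring

theorem pack_single (d n : ℕ) (hd : d < n) :
    pack (fun u => if u = d then 1 else 0) n = 65536 ^ d := by
  induction n with
  | zero => omega
  | succ n ih =>
    rw [pack]
    rcases Nat.lt_or_ge d n with h | h
    · rw [ih h, if_neg (by omega), zero_mul, add_zero]
    · have : d = n := by omega
      subst this
      rw [if_pos rfl, one_mul]
      have h0 : pack (fun u => if u = d then 1 else 0) d = 0 := by
        rw [pack_congr (g := fun _ => 0) (fun u hu => if_neg (by omega)), pack_zero]
      rw [h0, zero_add]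

theorem wordsOK_spec {N P Q e : ℕ} : ∀ {n : ℕ}, wordsOK N P Q e n = true → ∀ {u : ℕ}, u < n →
    primw N u = true → e.testBit u = false → fd Q u + efld e u ≤ fd P u := by
  intro n
  induction n with
  | zero => intro _ u hu; omega
  | succ n ih =>
    intro h u hu hp he
    unfold wordsOK at h
    rw [Bool.and_eq_true] at h
    rcases Nat.lt_or_ge u n with hun | hun
    · exact ih h.2 hun hp he
    · have hune : u = n := by omega
      subst hune
      rw [Bool.or_eq_true, Bool.or_eq_true, hp, he] at h
      simp only [Bool.false_eq_true, false_or, Bool.not_true, or_false] at h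
      exact Nat.le_of_ble_eq_true h.1

theorem countsOK_spec {cA cB : ℕ} : ∀ {n : ℕ}, countsOK cA cB n = true → ∀ {u : ℕ}, u < n →
    fd cB u ≤ fd cA u := by
  intro n
  induction n with
  | zero => intro _ u hu; omega
  | succ n ih =>
    intro h u hu
    unfold countsOK at h
    rw [Bool.and_eq_true] at h
    rcases Nat.lt_or_ge u n with hun | hun
    · exact ih h.2 hun
    · have hune : u = n := by omega
      subst hune
      exact Nat.le_of_ble_eq_true h.1

theorem certsOK_spec {N s qt tab : ℕ} : ∀ {l : List (List ℕ)} {i : ℕ},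
    certsOK N s qt tab i l = true → ∀ j < l.length,
      ∃ c : List ℕ, certOK N s qt c (entry tab (i + j)) = true := by
  intro l
  induction l with
  | nil => intro i _ j hj; simp at hj
  | cons c l ih =>
    intro i h j hj
    unfold certsOK at h
    rw [Bool.and_eq_true] at h
    cases j with
    | zero => exact ⟨c, h.1⟩
    | succ j =>
      obtain ⟨c', hc'⟩ := ih h.2 j (by simpa using hj)
      exact ⟨c', by rwa [show i + (j + 1) = i + 1 + j by ring]⟩

end Pool.Agent.FPS
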