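import Pool.Agent.FPS4.Sound

/-!
A certificate which passes the check gives a valid entry for every actual cycle.
-/

namespace Pool.Agent.FPS

open Finset

variable {c : ℚ} {N : ℕ} {x : ℕ → ℚ}

/-! ### The code of a word -/

/-- the code of the word of the place `p` -/
noncomputable def code (N : ℕ) (x : ℕ → ℚ) (p : ℕ) : ℕ :=
  Nat.ofBits (n := N - 1) fun i => cls p x (i + 1)

theorem wd_code (h : Cyc c N x) {p : ℕ} (hM : 1 < padicNorm p (2 * x 0)) :
    wd N (code N x p) = cls p x := by
  funext i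
  unfold wd code
  rw [← cls_mod h i]
  have hlt := Nat.mod_lt i h.pos
  rcases hk : i % N with _ | k
  · rw [cls_zero hM]
    simp
  · rw [Nat.testBit_succ]
    rw [show 2 * Nat.ofBits (n := N - 1) (fun i => cls p x (i + 1)) / 2 =
      Nat.ofBits (n := N - 1) (fun i => cls p x (i + 1)) by omega]
    rw [Nat.testBit_ofBits_lt _ _ (by omega)]

theorem code_lt (N : ℕ) (x : ℕ → ℚ) (p : ℕ) : code N x p < 2 ^ (N - 1) := Nat.ofBits_lt_two_pow _

theorem primw_code (h : Cyc c N x) {p : ℕ} [Fact p.Prime] (hM : 1 < padicNorm p (2 * x 0)) :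
    primw N (code N x p) = true := by
  unfold primw
  rw [List.all_eq_true]
  intro d hd
  rw [List.mem_range] at hd
  rw [Bool.or_eq_true]
  by_cases hd0 : d = 0
  · left; simp [hd0]
  · right
    rw [List.any_eq_true]
    obtain ⟨t, ht, hne⟩ := exists_sep h hM (i := 0) (j := d) (by
      rw [Nat.zero_mod, Nat.mod_eq_of_lt hd]; exact fun e => hd0 e.symm)
    refine ⟨t, List.mem_range.2 ht, ?_⟩
    rw [wd_code h hM]
    rw [zero_add] at hne
    simpa using hne

/-! ### The real inequalities -/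

theorem pm_ell (i j : ℕ) : |pm x (decide (x i < 0) == decide (x j < 0)) i j| = |x i| + |x j| := by
  unfold pm
  by_cases a : x i < 0 <;> by_cases b : x j < 0
  · have e : (decide (x i < 0) == decide (x j < 0)) = true := by simp [a, b]
    rw [e, if_pos rfl, abs_of_neg a, abs_of_neg b, abs_of_neg (by linarith)]; ring
  · have e : (decide (x i < 0) == decide (x j < 0)) = false := by simp [a, b]
    have b' := not_lt.1 b
    rw [e, if_neg Bool.false_ne_true, abs_of_neg a, abs_of_nonneg b', abs_of_neg (by linarith)]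
    ring
  · have e : (decide (x i < 0) == decide (x j < 0)) = false := by simp [a, b]
    have a' := not_lt.1 a
    rw [e, if_neg Bool.false_ne_true, abs_of_nonneg a', abs_of_neg b, abs_of_pos (by linarith)]
    ring
  · have e : (decide (x i < 0) == decide (x j < 0)) = true := by simp [a, b]
    rw [e, if_pos rfl, abs_of_nonneg (not_lt.1 a), abs_of_nonneg (not_lt.1 b),
      abs_of_nonneg (by linarith [not_lt.1 a, not_lt.1 b])]

theorem pm_oth (i j : ℕ) :
    |pm x (decide (x i < 0) != decide (x j < 0)) i j| = abs (|x i| - |x j|) := by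
  unfold pm
  by_cases a : x i < 0 <;> by_cases b : x j < 0
  · have e : (decide (x i < 0) != decide (x j < 0)) = false := by simp [a, b]
    rw [e, if_neg Bool.false_ne_true, abs_of_neg a, abs_of_neg b, ← abs_neg]; congr 1; ring
  · have e : (decide (x i < 0) != decide (x j < 0)) = true := by simp [a, b]
    have b' := not_lt.1 b
    rw [e, if_pos rfl, abs_of_neg a, abs_of_nonneg b', ← abs_neg (-x i - x j)]
    congr 1; ring
  · have e : (decide (x i < 0) != decide (x j < 0)) = true := by simp [a, b]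
    have a' := not_lt.1 a
    rw [e, if_pos rfl, abs_of_nonneg a', abs_of_neg b]
    congr 1; ring
  · have e : (decide (x i < 0) != decide (x j < 0)) = false := by simp [a, b]
    rw [e, if_neg Bool.false_ne_true, abs_of_nonneg (not_lt.1 a), abs_of_nonneg (not_lt.1 b)]

/-- The basic inequality expressed by a term. -/
theorem term_ineq (h : Cyc c N x) (hmin : ∀ i, i % N ≠ 0 → x 0 < x i) (hx : ∀ i, x i ≠ 0) {s : ℕ}
    (hs : ∀ i, s.testBit (i % N) = decide (x i < 0)) {a : ℕ} (ha : validT N s a = true) :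
    |pm x (sA s a) (ti a) (tj a)| < (2 : ℚ) ^ (kt a) * |pm x (sB s a) (ti a) (tk a)| := by
  unfold validT at ha
  simp only [Bool.and_eq_true] at ha
  obtain ⟨⟨⟨⟨⟨⟨h1, h2⟩, h3⟩, h4⟩, h5⟩, h6⟩, h7⟩ := ha
  have i1 : ti a < N := Nat.lt_of_succ_le (Nat.le_of_ble_eq_true h1)
  have i2 : tj a < N := Nat.lt_of_succ_le (Nat.le_of_ble_eq_true h2)
  have i3 : tk a < N := Nat.lt_of_succ_le (Nat.le_of_ble_eq_true h3)
  have bne' : ∀ {m n : ℕ}, (!(Nat.beq m n)) = true → m ≠ n := by
    intro m n hb e
    rw [e] at hb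
    have : Nat.beq n n = true := Nat.beq_refl n
    rw [this] at hb
    exact Bool.false_ne_true hb
  have i4 : ti a ≠ tj a := bne' h4
  have i5 : ti a ≠ tk a := bne' h5
  have m1 := Nat.mod_eq_of_lt i1
  have m2 := Nat.mod_eq_of_lt i2
  have m3 := Nat.mod_eq_of_lt i3
  have s1 : s.testBit (ti a) = decide (x (ti a) < 0) := by rw [← hs, m1]
  have s2 : s.testBit (tj a) = decide (x (tj a) < 0) := by rw [← hs, m2]
  have s3 : s.testBit (tk a) = decide (x (tk a) < 0) := by rw [← hs, m3]
  have p1 := abs_pos.2 (hx (ti a))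
  have p2 := abs_pos.2 (hx (tj a))
  have p3 := abs_pos.2 (hx (tk a))
  have eB : |pm x (sB s a) (ti a) (tk a)| = |x (ti a)| + |x (tk a)| := by
    unfold sB
    rw [s1, s3]
    exact pm_ell _ _
  rw [eB]
  rcases hb1 : Nat.beq (tt a) 1 with _ | _
  · simp only [hb1] at h7
    have hk : kt a = 0 := by unfold kt; simp only [hb1]
    rw [hk, pow_zero, one_mul]
    rcases hb2 : Nat.beq (tt a) 2 with _ | _
    · simp only [hb2] at h7
      rcases hb3 : Nat.beq (tt a) 3 with _ | _
      · simp only [hb3] at h7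
        exact absurd h7 Bool.false_ne_true
      · simp only [hb3] at h7
        have eA : |pm x (sA s a) (ti a) (tj a)| = abs (|x (ti a)| - |x (tj a)|) := by
          unfold sA
          simp only [hb3]
          rw [s1, s2]
          exact pm_oth _ _
        rw [ygt_eq h hmin hs (by rw [m1, m2]; exact i4), decide_eq_true_iff] at h7
        rw [eA, abs_of_pos (by linarith)]
        linarith
    · simp only [hb2, Bool.and_eq_true] at h7
      have i6 : tj a ≠ tk a := bne' h7.1
      have hb3 : Nat.beq (tt a) 3 = false := by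
        rw [Nat.eq_of_beq_eq_true hb2]; rfl
      have eA : |pm x (sA s a) (ti a) (tj a)| = |x (ti a)| + |x (tj a)| := by
        unfold sA
        simp only [hb3]
        rw [s1, s2]
        exact pm_ell _ _
      have h8 := h7.2
      rw [ygt_eq h hmin hs (by rw [m3, m2]; exact fun e => i6 e.symm), decide_eq_true_iff] at h8
      rw [eA]
      linarith
  · simp only [hb1] at h7
    have hk : kt a = 1 := by unfold kt; simp only [hb1]
    have hb3 : Nat.beq (tt a) 3 = false := by
      rw [Nat.eq_of_beq_eq_true hb1]; rfl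
    have eA : |pm x (sA s a) (ti a) (tj a)| = |x (ti a)| + |x (tj a)| := by
      unfold sA
      simp only [hb3]
      rw [s1, s2]
      exact pm_ell _ _
    rw [ygt_eq h hmin hs (by rw [m1, m2]; exact i4), decide_eq_true_iff] at h7
    rw [hk, eA, pow_one]
    linarith

theorem term_log (h : Cyc c N x) (hmin : ∀ i, i % N ≠ 0 → x 0 < x i) (hx : ∀ i, x i ≠ 0) {s : ℕ}
    (hs : ∀ i, s.testBit (i % N) = decide (x i < 0)) {a : ℕ} (ha : validT N s a = true) :
    Real.log |((pm x (sA s a) (ti a) (tj a) : ℚ) : ℝ)| <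
      Real.log |((pm x (sB s a) (ti a) (tk a) : ℚ) : ℝ)| + (kt a : ℝ) * Real.log 2 := by
  have h0 := term_ineq h hmin hx hs ha
  have ha' := ha
  unfold validT at ha'
  simp only [Bool.and_eq_true] at ha'
  obtain ⟨⟨⟨⟨⟨⟨h1, h2⟩, h3⟩, h4⟩, h5⟩, h6⟩, h7⟩ := ha'
  have i1 : ti a < N := Nat.lt_of_succ_le (Nat.le_of_ble_eq_true h1)
  have i2 : tj a < N := Nat.lt_of_succ_le (Nat.le_of_ble_eq_true h2)
  have i3 : tk a < N := Nat.lt_of_succ_le (Nat.le_of_ble_eq_true h3)
  have bne' : ∀ {m n : ℕ}, (!(Nat.beq m n)) = true → m ≠ n := by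
    intro m n hb e
    rw [e] at hb
    have : Nat.beq n n = true := Nat.beq_refl n
    rw [this] at hb
    exact Bool.false_ne_true hb
  have i4 : ti a ≠ tj a := bne' h4
  have i5 : ti a ≠ tk a := bne' h5
  have n1 : pm x (sA s a) (ti a) (tj a) ≠ 0 :=
    pm_ne_zero h (by rw [Nat.mod_eq_of_lt i1, Nat.mod_eq_of_lt i2]; exact i4) _
  have n2 : pm x (sB s a) (ti a) (tk a) ≠ 0 :=
    pm_ne_zero h (by rw [Nat.mod_eq_of_lt i1, Nat.mod_eq_of_lt i3]; exact i5) _
  have h0' : |((pm x (sA s a) (ti a) (tj a) : ℚ) : ℝ)| <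
      (2 : ℝ) ^ (kt a) * |((pm x (sB s a) (ti a) (tk a) : ℚ) : ℝ)| := by
    exact_mod_cast h0
  have p1 : 0 < |((pm x (sA s a) (ti a) (tj a) : ℚ) : ℝ)| := by
    rw [abs_pos]; exact_mod_cast n1
  have p2 : |((pm x (sB s a) (ti a) (tk a) : ℚ) : ℝ)| ≠ 0 := by
    rw [abs_ne_zero]; exact_mod_cast n2
  have h9 := Real.log_lt_log p1 h0'
  rw [Real.log_mul (by positivity) p2, Real.log_pow] at h9
  linarith

/-! ### Real weighted sums -/

noncomputable def rsum (f : ℕ → ℝ) : List ℕ → ℝ
  | [] => 0
  | a :: l => (tm a : ℝ) * f a + rsum f l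

theorem rsum_cast (f : ℕ → ℕ) (l : List ℕ) : rsum (fun a => (f a : ℝ)) l = (tsum f l : ℝ) := by
  induction l with
  | nil => simp [rsum, tsum]
  | cons a l ih => simp only [rsum, tsum]; rw [ih]; push_cast; ring

theorem rsum_add (f g : ℕ → ℝ) (l : List ℕ) :
    rsum (fun a => f a + g a) l = rsum f l + rsum g l := by
  induction l with
  | nil => simp [rsum]
  | cons a l ih => simp only [rsum]; rw [ih]; ring

theorem rsum_mul (k : ℝ) (f : ℕ → ℝ) (l : List ℕ) :
    rsum (fun a => k * f a) l = k * rsum f l := by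
  induction l with
  | nil => simp [rsum]
  | cons a l ih => simp only [rsum]; rw [ih]; ring

theorem rsum_sum {ι : Type} (S : Finset ι) (f : ι → ℕ → ℝ) (l : List ℕ) :
    rsum (fun a => ∑ p ∈ S, f p a) l = ∑ p ∈ S, rsum (f p) l := by
  induction l with
  | nil => simp [rsum]
  | cons a l ih =>
    simp only [rsum]
    rw [ih, Finset.mul_sum, ← Finset.sum_add_distrib]

theorem rsum_congr {f g : ℕ → ℝ} {l : List ℕ} (h : ∀ a ∈ l, f a = g a) : rsum f l = rsum g l := by
  induction l with
  | nil => rfl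
  | cons a l ih =>
    simp only [rsum]
    rw [h a (by simp), ih fun b hb => h b (by simp [hb])]

theorem rsum_lt {f g : ℕ → ℝ} {l : List ℕ} (hl : l ≠ []) (hm : ∀ a ∈ l, 1 ≤ tm a)
    (h : ∀ a ∈ l, f a < g a) : rsum f l < rsum g l := by
  have key : ∀ l : List ℕ, (∀ a ∈ l, 1 ≤ tm a) → (∀ a ∈ l, f a < g a) → rsum f l ≤ rsum g l := by
    intro l
    induction l with
    | nil => intro _ _; exact le_rfl
    | cons a l ih =>
      intro hm h
      simp only [rsum]
      have h1 := ih (fun b hb => hm b (by simp [hb])) fun b hb => h b (by simp [hb])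
      have h2 := (h a (by simp)).le
      have h3 : (0 : ℝ) ≤ tm a := Nat.cast_nonneg _
      have := mul_le_mul_of_nonneg_left h2 h3
      linarith
  cases l with
  | nil => exact absurd rfl hl
  | cons a l =>
    simp only [rsum]
    have h1 := key l (fun b hb => hm b (by simp [hb])) fun b hb => h b (by simp [hb])
    have h2 := h a (by simp)
    have h3 : (1 : ℝ) ≤ tm a := by exact_mod_cast hm a (by simp)
    have := mul_lt_mul_of_pos_left h2 (by linarith : (0 : ℝ) < tm a)
    linarith

theorem sum_image_le' {ι : Type} [DecidableEq ι] (S : Finset ι) (u : ι → ℕ) (f : ℕ → ℕ) :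
    ∑ w ∈ S.image u, f w ≤ ∑ p ∈ S, f (u p) := by
  induction S using Finset.induction_on with
  | empty => simp
  | insert a S ha ih =>
    rw [Finset.image_insert, Finset.sum_insert ha]
    by_cases hmem : u a ∈ S.image u
    · rw [Finset.insert_eq_of_mem hmem]; omega
    · rw [Finset.sum_insert hmem]; omega

end Pool.Agent.FPS
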